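import Mathlib
import Pool.Agent.H306R2.SM.Defs
import Pool.Agent.H942R2.SM_T0

set_option autoImplicit false

/-!
Task T3 (osc) of the sixth moment project of helper306.
-/

namespace Pool.Agent.H497R2.SMT3

open Finset Filter Topology MeasureTheory Complex
open Pool.Agent.H306R2 Pool.Agent.H306R2.SM

noncomputable section

/-- `t` as a function of `s = 1/2 + it` -/
def tt (s : ℂ) : ℂ := -I * (s - 1 / 2)

lemma tt_re (s : ℂ) : (tt s).re = s.im := by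
  simp [tt]

lemma tt_im (s : ℂ) : (tt s).im = 1 / 2 - s.re := by
  simp [tt]

lemma tt_cl (t : ℝ) : tt (cl t) = t := by
  apply Complex.ext
  · simp [tt_re, cl]
  · simp [tt_im, cl]

/-- the integrand as a function of `s` -/
def Fs (k : ℕ) (δ r : ℝ) (m : ℕ) (s : ℂ) : ℂ :=
  ((δ ^ (k + 1) / (k.factorial : ℝ) : ℝ) : ℂ) * tt s ^ k * Complex.exp (-((δ : ℂ) * tt s)) *
    Xf s ^ m * Complex.exp (-(s - 1 / 2) * (Real.log r : ℂ))

lemma Fs_cl (k : ℕ) (δ r : ℝ) (m : ℕ) (t : ℝ) :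
    Fs k δ r m (cl t) = (om k δ t : ℂ) * Xf (cl t) ^ m * ef (-(Real.log r)) t := by
  have h1 : Complex.exp (-(cl t - 1 / 2) * (Real.log r : ℂ)) = ef (-(Real.log r)) t := by
    unfold ef cl
    congr 1
    push_cast
    ring
  unfold Fs
  rw [tt_cl, h1]
  unfold om
  push_cast
  ring

lemma Xf_differentiableAt (s : ℂ) (hs : 0 < s.im) : DifferentiableAt ℂ Xf s := by
  unfold Xf
  have h2pi : (2 * (Real.pi : ℂ)) ≠ 0 := by
    simp [Real.pi_ne_zero]
  have hG : DifferentiableAt ℂ Complex.Gamma s := by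
    apply Complex.differentiableAt_Gamma
    intro m hm
    have := congrArg Complex.im hm
    simp at this
    linarith
  have hc : DifferentiableAt ℂ (fun s : ℂ => (2 * (Real.pi : ℂ)) ^ (-s)) s := by
    apply DifferentiableAt.const_cpow
    · fun_prop
    · left; exact h2pi
  apply DifferentiableAt.mul
  · apply DifferentiableAt.mul
    · exact (differentiableAt_const _).mul hc
    · exact hG
  · fun_prop

lemma Fs_differentiableAt (k : ℕ) (δ r : ℝ) (m : ℕ) (s : ℂ) (hs : 0 < s.im) :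
    DifferentiableAt ℂ (Fs k δ r m) s := by
  have hX := Xf_differentiableAt s hs
  unfold Fs tt
  apply DifferentiableAt.mul
  · apply DifferentiableAt.mul
    · fun_prop
    · exact hX.pow m
  · fun_prop

lemma Fs_norm (k : ℕ) (δ r : ℝ) (hδ : 0 < δ) (hr : 0 < r) (m : ℕ) (s : ℂ) :
    ‖Fs k δ r m s‖ = δ ^ (k + 1) / (k.factorial : ℝ) * ‖tt s‖ ^ k * Real.exp (-(δ * s.im)) *
      ‖Xf s‖ ^ m * r ^ (1 / 2 - s.re) := by
  unfold Fs
  rw [norm_mul, norm_mul, norm_mul, norm_mul, norm_pow, norm_pow, Complex.norm_exp,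
    Complex.norm_exp, Complex.norm_real, Real.norm_of_nonneg (by positivity)]
  have h1 : (-((δ : ℂ) * tt s)).re = -(δ * s.im) := by
    simp [tt_re]
  have h2 : (-(s - 1 / 2) * (Real.log r : ℂ)).re = Real.log r * (1 / 2 - s.re) := by
    simp
    ring
  rw [h1, h2, ← Real.rpow_def_of_pos hr]

lemma Xf_cl_continuous : Continuous (fun t : ℝ => Xf (cl t)) := by
  unfold Xf
  have h2pi : (2 * (Real.pi : ℂ)) ≠ 0 := by
    simp [Real.pi_ne_zero]
  have hcl : Continuous cl := by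
    unfold cl
    fun_prop
  have hG : Continuous (fun t : ℝ => Complex.Gamma (cl t)) := by
    rw [continuous_iff_continuousAt]
    intro t
    have h1 : ContinuousAt Complex.Gamma (cl t) := by
      apply DifferentiableAt.continuousAt (𝕜 := ℂ)
      apply Complex.differentiableAt_Gamma
      intro m hm
      have := congrArg Complex.re hm
      simp [cl] at this
      have hm0 : (0 : ℝ) ≤ (m : ℝ) := by positivity
      linarith
    exact ContinuousAt.comp (f := cl) h1 hcl.continuousAt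
  have hc : Continuous (fun t : ℝ => (2 * (Real.pi : ℂ)) ^ (-(cl t))) := by
    apply Continuous.const_cpow
    · fun_prop
    · left; exact h2pi
  apply Continuous.mul
  · apply Continuous.mul
    · exact continuous_const.mul hc
    · exact hG
  · fun_prop

lemma small_bound (T : ℝ) (hT : 1 ≤ T) (k : ℕ) (hk : (k : ℝ) * (2 * Real.exp 1) ≤ Real.sqrt T)
    (x : ℝ) (hx0 : 0 ≤ x) (hx : x ≤ 2 * k) (M : ℕ) (hM : 2 * M ≤ k) :
    (k / T) ^ (k + 1) / (k.factorial : ℝ) * x ^ k ≤ (T ^ M)⁻¹ := by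
  have hT0 : 0 < T := by linarith
  have hk0 : (0 : ℝ) ≤ (k : ℝ) := by positivity
  have hsq : 0 < Real.sqrt T := Real.sqrt_pos.mpr hT0
  have hsq1 : 1 ≤ Real.sqrt T := by
    rw [Real.one_le_sqrt]; exact hT
  have hss : Real.sqrt T * Real.sqrt T = T := Real.mul_self_sqrt hT0.le
  have he1 : 1 ≤ Real.exp 1 := by
    have := Real.add_one_le_exp (1 : ℝ)
    linarith
  have hδ1 : (k : ℝ) / T ≤ 1 := by
    rw [div_le_one hT0]
    nlinarith
  have hδ0 : 0 ≤ (k : ℝ) / T := by positivity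
  have h1 : (k : ℝ) ^ k / (k.factorial : ℝ) ≤ Real.exp 1 ^ k := by
    have := Real.pow_div_factorial_le_exp (k : ℝ) hk0 k
    rw [← Real.exp_nat_mul, mul_one]
    exact this
  have h2 : x ^ k ≤ (2 * (k : ℝ)) ^ k := pow_le_pow_left₀ hx0 hx k
  have h3 : ((k : ℝ) / T) * (2 * Real.exp 1) ≤ (Real.sqrt T)⁻¹ := by
    rw [div_mul_eq_mul_div, div_le_iff₀ hT0]
    calc (k : ℝ) * (2 * Real.exp 1) ≤ Real.sqrt T := hk
      _ = (Real.sqrt T)⁻¹ * T := by
        nth_rewrite 3 [← hss]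
        field_simp
  calc (k / T) ^ (k + 1) / (k.factorial : ℝ) * x ^ k
      ≤ (k / T) ^ (k + 1) / (k.factorial : ℝ) * (2 * (k : ℝ)) ^ k := by gcongr
    _ = (k / T) * ((k / T) ^ k * 2 ^ k * ((k : ℝ) ^ k / (k.factorial : ℝ))) := by
        rw [mul_pow]; ring
    _ ≤ (k / T) * ((k / T) ^ k * 2 ^ k * Real.exp 1 ^ k) := by gcongr
    _ = (k / T) * (((k : ℝ) / T) * (2 * Real.exp 1)) ^ k := by
        rw [← mul_pow, ← mul_pow]; ring_nf
    _ ≤ 1 * ((Real.sqrt T)⁻¹) ^ k := by gcongr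
    _ = ((Real.sqrt T) ^ k)⁻¹ := by rw [one_mul, inv_pow]
    _ ≤ (T ^ M)⁻¹ := by
        apply inv_anti₀ (by positivity)
        calc T ^ M = Real.sqrt T ^ (2 * M) := by
              rw [pow_mul, Real.sq_sqrt hT0.le]
          _ ≤ Real.sqrt T ^ k := pow_le_pow_right₀ hsq1 hM

lemma r_bound (r Q : ℝ) (hr : 0 < r) (hrQ : r ≤ Q) (hQ : 1 ≤ Q) (y : ℝ) (N : ℕ) (hy0 : 0 ≤ y)
    (hyN : y ≤ N) : r ^ y ≤ Q ^ N := by
  calc r ^ y ≤ Q ^ y := Real.rpow_le_rpow hr.le hrQ hy0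
    _ ≤ Q ^ (N : ℝ) := Real.rpow_le_rpow_of_exponent_le hQ hyN
    _ = Q ^ N := Real.rpow_natCast Q N

lemma gamma_int_nat (j : ℕ) (δ : ℝ) (hδ : 0 < δ) :
    IntegrableOn (fun t : ℝ => t ^ j * Real.exp (-(δ * t))) (Set.Ioi 0) ∧
      ∫ t in Set.Ioi (0 : ℝ), t ^ j * Real.exp (-(δ * t)) = (j.factorial : ℝ) / δ ^ (j + 1) := by
  have h := Real.integral_rpow_mul_exp_neg_mul_Ioi (a := (j : ℝ) + 1) (r := δ) (by positivity) hδ
  have hfun : (fun t : ℝ => t ^ ((j : ℝ) + 1 - 1) * Real.exp (-(δ * t))) =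
      (fun t : ℝ => t ^ j * Real.exp (-(δ * t))) := by
    funext t
    rw [show (j : ℝ) + 1 - 1 = (j : ℝ) by ring, Real.rpow_natCast]
  rw [hfun] at h
  have hval : (1 / δ) ^ ((j : ℝ) + 1) * Real.Gamma ((j : ℝ) + 1) =
      (j.factorial : ℝ) / δ ^ (j + 1) := by
    rw [Real.Gamma_nat_eq_factorial]
    rw [show ((j : ℝ) + 1) = ((j + 1 : ℕ) : ℝ) by push_cast; ring, Real.rpow_natCast]
    rw [div_pow, one_pow]
    ring
  rw [hval] at h
  refine ⟨?_, h⟩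
  by_contra hcon
  rw [integral_undef hcon] at h
  have : 0 < (j.factorial : ℝ) / δ ^ (j + 1) := by positivity
  linarith


lemma tt_norm_le (s : ℂ) : ‖tt s‖ ≤ |s.im| + |1 / 2 - s.re| := by
  have := Complex.norm_le_abs_re_add_abs_im (tt s)
  rwa [tt_re, tt_im] at this

/-- left vertical line -/
def ll (N : ℕ) (τ : ℝ) : ℂ := (((1 / 2 - (N : ℝ) : ℝ) : ℂ) + τ * I)

lemma ll_re (N : ℕ) (τ : ℝ) : (ll N τ).re = 1 / 2 - (N : ℝ) := by simp [ll]

lemma ll_im (N : ℕ) (τ : ℝ) : (ll N τ).im = τ := by simp [ll]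

lemma tt_ll_pow (N k : ℕ) (τ : ℝ) (hk : 1 ≤ k) (hN : N ^ 2 ≤ k) (hτ : (k : ℝ) ≤ τ) :
    ‖tt (ll N τ)‖ ^ k ≤ 2 * τ ^ k := by
  have hk0 : (1 : ℝ) ≤ (k : ℝ) := by exact_mod_cast hk
  have hτ0 : 0 < τ := by linarith
  have hN2 : (N : ℝ) ^ 2 ≤ (k : ℝ) := by exact_mod_cast hN
  have h1 : ‖tt (ll N τ)‖ ≤ τ * (1 + (N : ℝ) ^ 2 / (2 * τ ^ 2)) := by
    have h2 : ‖tt (ll N τ)‖ ^ 2 = τ ^ 2 + (N : ℝ) ^ 2 := by
      rw [Complex.sq_norm, Complex.normSq_apply, tt_re, tt_im, ll_re, ll_im]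
      ring
    apply le_of_sq_le_sq _ (by positivity)
    rw [h2]
    have h3 : (τ * (1 + (N : ℝ) ^ 2 / (2 * τ ^ 2))) ^ 2 =
        τ ^ 2 + (N : ℝ) ^ 2 + ((N : ℝ) ^ 2 / (2 * τ)) ^ 2 := by
      field_simp
      ring
    rw [h3]
    nlinarith [sq_nonneg ((N : ℝ) ^ 2 / (2 * τ))]
  have h4 : (N : ℝ) ^ 2 / (2 * τ ^ 2) ≤ 1 / (2 * (k : ℝ)) := by
    rw [div_le_div_iff₀ (by positivity) (by positivity)]
    nlinarith [mul_le_mul hτ hτ (by positivity) (by positivity)]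
  calc ‖tt (ll N τ)‖ ^ k ≤ (τ * (1 + (N : ℝ) ^ 2 / (2 * τ ^ 2))) ^ k := by gcongr
    _ = τ ^ k * (1 + (N : ℝ) ^ 2 / (2 * τ ^ 2)) ^ k := mul_pow _ _ _
    _ ≤ τ ^ k * (1 + 1 / (2 * (k : ℝ))) ^ k := by gcongr
    _ ≤ τ ^ k * (Real.exp (1 / (2 * (k : ℝ)))) ^ k := by
        gcongr
        have := Real.add_one_le_exp (1 / (2 * (k : ℝ)))
        linarith
    _ = τ ^ k * Real.exp (1 / 2) := by
        rw [← Real.exp_nat_mul]
        congr 2
        field_simp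
    _ ≤ 2 * τ ^ k := by
        have h5 : Real.exp (1 / 2) ≤ 2 := by
          have h6 : Real.exp (1 / 2) ^ 2 ≤ 2 ^ 2 := by
            rw [← Real.exp_nat_mul]
            have := Real.exp_one_lt_d9
            norm_num
            linarith
          exact le_of_sq_le_sq h6 (by norm_num)
        have h7 : 0 ≤ τ ^ k := by positivity
        nlinarith

/-- the data and size conditions -/
structure Dat (N m k : ℕ) (C : ℝ) (A : ℕ) (T r : ℝ) : Prop where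
  hT : 1 ≤ T
  hk : (k : ℝ) * (2 * Real.exp 1) ≤ Real.sqrt T
  hkM : 2 * (3 * N + 10) ≤ k
  hkN : N ^ 2 ≤ k
  hkmN : 2 * (m * N) ≤ k
  hC : 0 < C
  hr : 0 < r
  hrT : r ≤ T ^ 3
  hstrip : ∀ s : ℂ, 1 / 2 - (N : ℝ) ≤ s.re → s.re ≤ 1 / 2 → 1 ≤ s.im → ‖Xf s‖ ≤ C * s.im ^ A
  hleft : ∀ τ : ℝ, 1 ≤ τ → ‖Xf (((1 / 2 - (N : ℝ) : ℝ) : ℂ) + τ * I)‖ ≤ C * τ ^ (-(N : ℝ))

section dat

variable {N m k : ℕ} {C : ℝ} {A : ℕ} {T r : ℝ}

lemma Dat.k_pos (D : Dat N m k C A T r) : 0 < k := by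
  have := D.hkM
  omega

lemma Dat.T_pos (D : Dat N m k C A T r) : 0 < T := by
  have := D.hT
  linarith

lemma Dat.k_le_T (D : Dat N m k C A T r) : (k : ℝ) ≤ T := by
  have h1 := D.hk
  have h2 : 1 ≤ Real.exp 1 := by
    have := Real.add_one_le_exp (1 : ℝ)
    linarith
  have h3 : Real.sqrt T ≤ T := by
    have hT := D.hT
    rw [Real.sqrt_le_left (by linarith)]
    nlinarith
  have h4 : (0 : ℝ) ≤ k := by positivity
  nlinarith

lemma Dat.pow_id (D : Dat N m k C A T r) : (T ^ (3 * N + 10))⁻¹ * C ^ m * (T ^ 3) ^ N =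
    C ^ m * (T ^ 10)⁻¹ := by
  have := D.T_pos
  rw [← pow_mul, pow_add]
  field_simp

/-- any point with small `tt` and `‖Xf‖ ≤ C` -/
lemma Dat.small_pt (D : Dat N m k C A T r) (s : ℂ) (hre : 1 / 2 - (N : ℝ) ≤ s.re)
    (hre2 : s.re ≤ 1 / 2) (him : 0 ≤ s.im) (hXs : ‖Xf s‖ ≤ C) (htt : ‖tt s‖ ≤ 2 * k) :
    ‖Fs k (k / T) r m s‖ ≤ C ^ m * (T ^ 10)⁻¹ := by
  have hT := D.T_pos
  have hk := D.k_pos
  have hk0 : (0 : ℝ) < k := by exact_mod_cast hk
  rw [Fs_norm k (k / T) r (by positivity) D.hr m s]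
  have h1 := small_bound T D.hT k D.hk ‖tt s‖ (norm_nonneg _) htt (3 * N + 10) D.hkM
  have h2 : Real.exp (-((k : ℝ) / T * s.im)) ≤ 1 := by
    rw [Real.exp_le_one_iff]
    have : 0 ≤ (k : ℝ) / T * s.im := by positivity
    linarith
  have h3 : ‖Xf s‖ ^ m ≤ C ^ m := pow_le_pow_left₀ (norm_nonneg _) hXs m
  have h4 : r ^ (1 / 2 - s.re) ≤ (T ^ 3) ^ N :=
    r_bound r (T ^ 3) D.hr D.hrT (one_le_pow₀ D.hT) _ N (by linarith) (by linarith)
  have hC := D.hC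
  have hr := D.hr
  rw [← D.pow_id]
  calc ((k : ℝ) / T) ^ (k + 1) / (k.factorial : ℝ) * ‖tt s‖ ^ k * Real.exp (-((k : ℝ) / T * s.im)) *
        ‖Xf s‖ ^ m * r ^ (1 / 2 - s.re)
      ≤ (T ^ (3 * N + 10))⁻¹ * 1 * C ^ m * (T ^ 3) ^ N := by gcongr
    _ = (T ^ (3 * N + 10))⁻¹ * C ^ m * (T ^ 3) ^ N := by ring

lemma Dat.bottom (D : Dat N m k C A T r) (x : ℝ) (hx1 : 1 / 2 - (N : ℝ) ≤ x) (hx2 : x ≤ 1 / 2) :
    ‖Fs k (k / T) r m ((x : ℂ) + ((1 : ℝ) : ℂ) * I)‖ ≤ C ^ m * (T ^ 10)⁻¹ := by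
  have hre : ((x : ℂ) + ((1 : ℝ) : ℂ) * I).re = x := by simp
  have him : ((x : ℂ) + ((1 : ℝ) : ℂ) * I).im = 1 := by simp
  apply D.small_pt
  · rw [hre]; exact hx1
  · rw [hre]; exact hx2
  · rw [him]; norm_num
  · have := D.hstrip ((x : ℂ) + ((1 : ℝ) : ℂ) * I) (by rw [hre]; exact hx1) (by rw [hre]; exact hx2)
      (by rw [him])
    rwa [him, one_pow, mul_one] at this
  · refine (tt_norm_le _).trans ?_
    rw [hre, him, abs_one, abs_of_nonneg (by linarith)]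
    have h1 := D.hkM
    have h2 : (2 * (3 * (N : ℝ) + 10)) ≤ k := by exact_mod_cast h1
    have h3 : (0 : ℝ) ≤ N := by positivity
    linarith

lemma Dat.left_small (D : Dat N m k C A T r) (τ : ℝ) (h1 : 1 ≤ τ) (h2 : τ ≤ k) :
    ‖Fs k (k / T) r m (ll N τ)‖ ≤ C ^ m * (T ^ 10)⁻¹ := by
  have hN : (0 : ℝ) ≤ N := by positivity
  apply D.small_pt
  · rw [ll_re]
  · rw [ll_re]; linarith
  · rw [ll_im]; linarith
  · refine (D.hleft τ h1).trans ?_
    have h3 : τ ^ (-(N : ℝ)) ≤ 1 := Real.rpow_le_one_of_one_le_of_nonpos h1 (by linarith)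
    have := D.hC
    nlinarith
  · refine (tt_norm_le _).trans ?_
    rw [ll_re, ll_im, abs_of_nonneg (by linarith : (0 : ℝ) ≤ τ)]
    have h4 : |1 / 2 - (1 / 2 - (N : ℝ))| = N := by
      rw [show 1 / 2 - (1 / 2 - (N : ℝ)) = N by ring, abs_of_nonneg hN]
    rw [h4]
    have h5 := D.hkM
    have h6 : (2 * (3 * (N : ℝ) + 10)) ≤ k := by exact_mod_cast h5
    linarith

lemma Dat.left_large (D : Dat N m k C A T r) (τ : ℝ) (h1 : (k : ℝ) ≤ τ) :
    ‖Fs k (k / T) r m (ll N τ)‖ ≤ 2 * C ^ m * r ^ N * (((k : ℝ) / T) ^ (k + 1) / (k.factorial : ℝ)) *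
      (τ ^ (k - m * N) * Real.exp (-((k : ℝ) / T * τ))) := by
  have hT := D.T_pos
  have hk := D.k_pos
  have hk0 : (0 : ℝ) < k := by exact_mod_cast hk
  have hk1 : (1 : ℝ) ≤ k := by exact_mod_cast hk
  have hτ : 0 < τ := by linarith
  have hC := D.hC
  have hr := D.hr
  rw [Fs_norm k (k / T) r (by positivity) D.hr m _, ll_im, ll_re]
  have h2 := tt_ll_pow N k τ hk D.hkN h1
  have h3 : ‖Xf (ll N τ)‖ ^ m ≤ C ^ m * (τ ^ (m * N))⁻¹ := by
    have h4 := D.hleft τ (by linarith)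
    have h5 : (C * τ ^ (-(N : ℝ))) ^ m = C ^ m * (τ ^ (m * N))⁻¹ := by
      rw [mul_pow, Real.rpow_neg hτ.le, Real.rpow_natCast, inv_pow, ← pow_mul, mul_comm m N]
    rw [← h5]
    exact pow_le_pow_left₀ (norm_nonneg _) h4 m
  have h6 : r ^ (1 / 2 - (1 / 2 - (N : ℝ))) = r ^ N := by
    rw [show 1 / 2 - (1 / 2 - (N : ℝ)) = (N : ℝ) by ring, Real.rpow_natCast]
  rw [h6]
  have h7 : τ ^ k = τ ^ (k - m * N) * τ ^ (m * N) := by
    rw [← pow_add]
    congr 1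
    have := D.hkmN
    omega
  calc ((k : ℝ) / T) ^ (k + 1) / (k.factorial : ℝ) * ‖tt (ll N τ)‖ ^ k *
        Real.exp (-((k : ℝ) / T * τ)) * ‖Xf (ll N τ)‖ ^ m * r ^ N
      ≤ ((k : ℝ) / T) ^ (k + 1) / (k.factorial : ℝ) * (2 * τ ^ k) *
        Real.exp (-((k : ℝ) / T * τ)) * (C ^ m * (τ ^ (m * N))⁻¹) * r ^ N := by gcongr
    _ = 2 * C ^ m * r ^ N * (((k : ℝ) / T) ^ (k + 1) / (k.factorial : ℝ)) *
      (τ ^ (k - m * N) * Real.exp (-((k : ℝ) / T * τ))) := by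
        rw [h7]
        field_simp

lemma Dat.fact_bound (D : Dat N m k C A T r) :
    (((k : ℝ) / T) ^ (k + 1) / (k.factorial : ℝ)) *
      (((k - m * N).factorial : ℝ) / ((k : ℝ) / T) ^ (k - m * N + 1)) ≤ (2 / T) ^ (m * N) := by
  have hT := D.T_pos
  have hk := D.k_pos
  have hk0 : (0 : ℝ) < k := by exact_mod_cast hk
  obtain ⟨j, hj⟩ : ∃ j, k = j + m * N := ⟨k - m * N, by have := D.hkmN; omega⟩
  have hj2 : k - m * N = j := by omega
  rw [hj2]
  have h1 : j.factorial * (j + 1) ^ (m * N) ≤ k.factorial := by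
    rw [hj]; exact Nat.factorial_mul_pow_le_factorial
  have h1' : (j.factorial : ℝ) * ((j : ℝ) + 1) ^ (m * N) ≤ (k.factorial : ℝ) := by
    exact_mod_cast h1
  have h2 : (k : ℝ) / 2 ≤ (j : ℝ) + 1 := by
    have h3 : k ≤ 2 * j := by have := D.hkmN; omega
    have h4 : (k : ℝ) ≤ 2 * j := by exact_mod_cast h3
    linarith
  have h5 : (j.factorial : ℝ) / (k.factorial : ℝ) ≤ (2 / (k : ℝ)) ^ (m * N) := by
    rw [div_le_iff₀ (by positivity)]
    have h6 : (2 / (k : ℝ)) ^ (m * N) * ((k : ℝ) / 2) ^ (m * N) = 1 := by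
      rw [← mul_pow]
      have : 2 / (k : ℝ) * ((k : ℝ) / 2) = 1 := by field_simp
      rw [this, one_pow]
    calc (j.factorial : ℝ) = (2 / (k : ℝ)) ^ (m * N) *
          ((j.factorial : ℝ) * ((k : ℝ) / 2) ^ (m * N)) := by
            rw [mul_left_comm, h6, mul_one]
      _ ≤ (2 / (k : ℝ)) ^ (m * N) * ((j.factorial : ℝ) * ((j : ℝ) + 1) ^ (m * N)) := by gcongr
      _ ≤ (2 / (k : ℝ)) ^ (m * N) * (k.factorial : ℝ) := by gcongr
  have h7 : ((k : ℝ) / T) ^ (k + 1) = ((k : ℝ) / T) ^ (j + 1) * ((k : ℝ) / T) ^ (m * N) := by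
    rw [← pow_add]
    congr 1
    omega
  calc (((k : ℝ) / T) ^ (k + 1) / (k.factorial : ℝ)) * ((j.factorial : ℝ) / ((k : ℝ) / T) ^ (j + 1))
      = ((k : ℝ) / T) ^ (m * N) * ((j.factorial : ℝ) / (k.factorial : ℝ)) := by
        rw [h7]
        have : 0 < ((k : ℝ) / T) ^ (j + 1) := by positivity
        field_simp
    _ ≤ ((k : ℝ) / T) ^ (m * N) * (2 / (k : ℝ)) ^ (m * N) := by gcongr
    _ = (2 / T) ^ (m * N) := by
        rw [← mul_pow]
        congr 1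
        field_simp

end dat


section dat2

variable {N m k : ℕ} {C : ℝ} {A : ℕ} {T r : ℝ}

lemma ll_continuous (N : ℕ) : Continuous (ll N) := by
  unfold ll
  fun_prop

lemma Fs_comp_continuousOn (k : ℕ) (δ r : ℝ) (m : ℕ) (g : ℝ → ℂ) (hg : Continuous g) (S : Set ℝ)
    (hS : ∀ x ∈ S, 0 < (g x).im) : ContinuousOn (fun x => Fs k δ r m (g x)) S := by
  intro x hx
  have h1 : ContinuousAt (Fs k δ r m) (g x) :=
    (Fs_differentiableAt k δ r m (g x) (hS x hx)).continuousAt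
  exact (ContinuousAt.comp (f := g) h1 hg.continuousAt).continuousWithinAt

lemma Dat.left_int (D : Dat N m k C A T r) (R : ℝ) (hR : (k : ℝ) ≤ R) :
    ‖∫ y in (1 : ℝ)..R, Fs k (k / T) r m (ll N y)‖ ≤
      T * (C ^ m * (T ^ 10)⁻¹) + 2 * C ^ m * r ^ N * (2 / T) ^ (m * N) := by
  have hT := D.T_pos
  have hk := D.k_pos
  have hk0 : (0 : ℝ) < k := by exact_mod_cast hk
  have hk1 : (1 : ℝ) ≤ k := by exact_mod_cast hk
  have hC := D.hC
  have hr := D.hr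
  have hδ : 0 < (k : ℝ) / T := by positivity
  have hcont : ∀ a b : ℝ, 1 ≤ a → 1 ≤ b →
      IntervalIntegrable (fun y => Fs k (k / T) r m (ll N y)) volume a b := by
    intro a b ha hb
    apply ContinuousOn.intervalIntegrable
    apply Fs_comp_continuousOn _ _ _ _ _ (ll_continuous N)
    intro x hx
    rw [ll_im]
    have : min a b ≤ x := hx.1
    have h2 : 1 ≤ min a b := le_min ha hb
    linarith
  rw [← intervalIntegral.integral_add_adjacent_intervals (hcont 1 k le_rfl hk1)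
    (hcont k R hk1 (by linarith))]
  refine (norm_add_le _ _).trans (add_le_add ?_ ?_)
  · have h1 := intervalIntegral.norm_integral_le_of_norm_le_const (a := (1 : ℝ)) (b := (k : ℝ))
      (f := fun y => Fs k (k / T) r m (ll N y)) (C := C ^ m * (T ^ 10)⁻¹) (by
        intro y hy
        rw [Set.uIoc_of_le hk1] at hy
        exact D.left_small y hy.1.le hy.2)
    refine h1.trans ?_
    have h2 : |(k : ℝ) - 1| ≤ T := by
      rw [abs_of_nonneg (by linarith)]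
      have := D.k_le_T
      linarith
    rw [mul_comm]
    gcongr
  · obtain ⟨hint, hval⟩ := gamma_int_nat (k - m * N) ((k : ℝ) / T) hδ
    set K : ℝ := 2 * C ^ m * r ^ N * (((k : ℝ) / T) ^ (k + 1) / (k.factorial : ℝ)) with hK
    have hK0 : 0 ≤ K := by positivity
    have h1 : ‖∫ y in (k : ℝ)..R, Fs k (k / T) r m (ll N y)‖ ≤
        ∫ y in (k : ℝ)..R, K * (y ^ (k - m * N) * Real.exp (-((k : ℝ) / T * y))) := by
      apply intervalIntegral.norm_integral_le_of_norm_le hR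
      · filter_upwards with y hy
        exact D.left_large y hy.1.le
      · apply Continuous.intervalIntegrable
        fun_prop
    refine h1.trans ?_
    rw [intervalIntegral.integral_of_le hR]
    have h2 : ∫ y in Set.Ioc (k : ℝ) R, K * (y ^ (k - m * N) * Real.exp (-((k : ℝ) / T * y))) ≤
        ∫ y in Set.Ioi (0 : ℝ), K * (y ^ (k - m * N) * Real.exp (-((k : ℝ) / T * y))) := by
      apply setIntegral_mono_set
      · exact hint.const_mul K
      · rw [Filter.EventuallyLE, ae_restrict_iff' measurableSet_Ioi]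
        filter_upwards with y hy
        have hy0 : (0 : ℝ) < y := hy
        simp only [Pi.zero_apply]
        positivity
      · have hsub : Set.Ioc (k : ℝ) R ⊆ Set.Ioi (0 : ℝ) := by
          intro y hy
          have : (k : ℝ) < y := hy.1
          exact lt_trans hk0 this
        exact Filter.Eventually.of_forall hsub
    refine h2.trans ?_
    rw [integral_const_mul, hval, hK]
    have h3 := D.fact_bound
    calc 2 * C ^ m * r ^ N * (((k : ℝ) / T) ^ (k + 1) / (k.factorial : ℝ)) *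
          (((k - m * N).factorial : ℝ) / ((k : ℝ) / T) ^ (k - m * N + 1))
        = 2 * C ^ m * r ^ N * ((((k : ℝ) / T) ^ (k + 1) / (k.factorial : ℝ)) *
          (((k - m * N).factorial : ℝ) / ((k : ℝ) / T) ^ (k - m * N + 1))) := by ring
      _ ≤ 2 * C ^ m * r ^ N * (2 / T) ^ (m * N) := by gcongr

/-- the top side -/
def topB (N m k : ℕ) (C : ℝ) (A : ℕ) (T : ℝ) (R : ℝ) : ℝ :=
  ((k : ℝ) / T) ^ (k + 1) / (k.factorial : ℝ) * (2 * R) ^ k * Real.exp (-((k : ℝ) / T * R)) *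
    (C * R ^ A) ^ m * (T ^ 3) ^ N

lemma Dat.top (D : Dat N m k C A T r) (R : ℝ) (hR1 : 1 ≤ R) (hRN : (N : ℝ) ≤ R) (x : ℝ)
    (hx1 : 1 / 2 - (N : ℝ) ≤ x) (hx2 : x ≤ 1 / 2) :
    ‖Fs k (k / T) r m ((x : ℂ) + ((R : ℝ) : ℂ) * I)‖ ≤ topB N m k C A T R := by
  have hT := D.T_pos
  have hk := D.k_pos
  have hk0 : (0 : ℝ) < k := by exact_mod_cast hk
  have hC := D.hC
  have hr := D.hr
  have hre : ((x : ℂ) + ((R : ℝ) : ℂ) * I).re = x := by simp
  have him : ((x : ℂ) + ((R : ℝ) : ℂ) * I).im = R := by simp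
  rw [Fs_norm k (k / T) r (by positivity) D.hr m _, hre, him]
  have h1 : ‖tt ((x : ℂ) + ((R : ℝ) : ℂ) * I)‖ ≤ 2 * R := by
    refine (tt_norm_le _).trans ?_
    rw [hre, him, abs_of_nonneg (by linarith : (0 : ℝ) ≤ R), abs_of_nonneg (by linarith)]
    linarith
  have h2 := D.hstrip ((x : ℂ) + ((R : ℝ) : ℂ) * I) (by rw [hre]; exact hx1)
    (by rw [hre]; exact hx2) (by rw [him]; exact hR1)
  rw [him] at h2
  have h4 : r ^ (1 / 2 - x) ≤ (T ^ 3) ^ N :=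
    r_bound r (T ^ 3) D.hr D.hrT (one_le_pow₀ D.hT) _ N (by linarith) (by linarith)
  unfold topB
  gcongr

lemma topB_tendsto (N m k : ℕ) (C : ℝ) (A : ℕ) (T : ℝ) (hT : 0 < T) (hk : 0 < k) :
    Tendsto (topB N m k C A T) atTop (𝓝 0) := by
  have hk0 : (0 : ℝ) < k := by exact_mod_cast hk
  have hδ : 0 < (k : ℝ) / T := by positivity
  have h1 := (Real.tendsto_pow_mul_exp_neg_atTop_nhds_zero (k + A * m)).comp
    (tendsto_id.const_mul_atTop hδ)
  have h2 : topB N m k C A T = fun R => (((k : ℝ) / T) ^ (k + 1) / (k.factorial : ℝ) * 2 ^ k *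
      C ^ m * (T ^ 3) ^ N / ((k : ℝ) / T) ^ (k + A * m)) *
      (((k : ℝ) / T * R) ^ (k + A * m) * Real.exp (-((k : ℝ) / T * R))) := by
    funext R
    unfold topB
    have hne : ((k : ℝ) / T) ^ (k + A * m) ≠ 0 := by positivity
    rw [mul_pow ((k : ℝ) / T) R, mul_pow C, ← pow_mul, mul_pow 2 R]
    rw [pow_add R k (A * m)]
    field_simp
  rw [h2]
  have h3 := h1.const_mul (((k : ℝ) / T) ^ (k + 1) / (k.factorial : ℝ) * 2 ^ k *
      C ^ m * (T ^ 3) ^ N / ((k : ℝ) / T) ^ (k + A * m))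
  rw [mul_zero] at h3
  exact h3

lemma cl_eq (y : ℝ) : cl y = ((1 / 2 : ℝ) : ℂ) + (y : ℂ) * I := by
  unfold cl
  push_cast
  ring

lemma cl_continuous : Continuous cl := by
  unfold cl
  fun_prop

lemma Dat.rect (D : Dat N m k C A T r) (R : ℝ) (hR1 : 1 ≤ R) (hRN : (N : ℝ) ≤ R)
    (hRk : (k : ℝ) ≤ R) :
    ‖∫ y in (1 : ℝ)..R, Fs k (k / T) r m (cl y)‖ ≤
      T * (C ^ m * (T ^ 10)⁻¹) + 2 * C ^ m * r ^ N * (2 / T) ^ (m * N) +
        N * (C ^ m * (T ^ 10)⁻¹) + N * topB N m k C A T R := by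
  have hN0 : (0 : ℝ) ≤ N := by positivity
  have hleN : 1 / 2 - (N : ℝ) ≤ 1 / 2 := by linarith
  have h := Complex.integral_boundary_rect_eq_zero_of_differentiableOn (Fs k (k / T) r m)
    (ll N 1) (cl R) (by
      intro s hs
      have him : s.im ∈ Set.uIcc (ll N 1).im (cl R).im := hs.2
      rw [ll_im] at him
      have hclim : (cl R).im = R := by simp [cl]
      rw [hclim, Set.uIcc_of_le hR1] at him
      have : 0 < s.im := by linarith [him.1]
      exact (Fs_differentiableAt k _ r m s this).differentiableWithinAt)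
  have hclim : (cl R).im = R := by simp [cl]
  have hclre : (cl R).re = 1 / 2 := by simp [cl]
  rw [ll_re, ll_im, hclim, hclre] at h
  have e1 : ∀ y : ℝ, (((1 / 2 : ℝ) : ℂ) + (y : ℂ) * I) = cl y := fun y => (cl_eq y).symm
  have e2 : ∀ y : ℝ, (((1 / 2 - (N : ℝ) : ℝ) : ℂ) + (y : ℂ) * I) = ll N y := fun y => rfl
  simp only [e1, e2] at h
  have h2 : I • (∫ y in (1 : ℝ)..R, Fs k (k / T) r m (cl y)) =
      I • (∫ y in (1 : ℝ)..R, Fs k (k / T) r m (ll N y)) -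
      (∫ x in (1 / 2 - (N : ℝ))..(1 / 2), Fs k (k / T) r m ((x : ℂ) + ((1 : ℝ) : ℂ) * I)) +
      (∫ x in (1 / 2 - (N : ℝ))..(1 / 2), Fs k (k / T) r m ((x : ℂ) + ((R : ℝ) : ℂ) * I)) := by
    linear_combination h
  have h3 : ‖∫ y in (1 : ℝ)..R, Fs k (k / T) r m (cl y)‖ =
      ‖I • (∫ y in (1 : ℝ)..R, Fs k (k / T) r m (cl y))‖ := by
    rw [norm_smul, Complex.norm_I, one_mul]
  rw [h3, h2]
  refine (norm_add_le _ _).trans (add_le_add ((norm_sub_le _ _).trans (add_le_add ?_ ?_)) ?_)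
  · rw [norm_smul, Complex.norm_I, one_mul]
    exact D.left_int R hRk
  · have h4 := intervalIntegral.norm_integral_le_of_norm_le_const (a := 1 / 2 - (N : ℝ))
      (b := (1 / 2 : ℝ))
      (f := fun x : ℝ => Fs k (k / T) r m ((x : ℂ) + ((1 : ℝ) : ℂ) * I)) (C := C ^ m * (T ^ 10)⁻¹) (by
        intro y hy
        rw [Set.uIoc_of_le hleN] at hy
        exact D.bottom y hy.1.le hy.2)
    refine h4.trans (le_of_eq ?_)
    rw [show (1 / 2 - (1 / 2 - (N : ℝ))) = N by ring, abs_of_nonneg hN0, mul_comm]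
  · have h4 := intervalIntegral.norm_integral_le_of_norm_le_const (a := 1 / 2 - (N : ℝ))
      (b := (1 / 2 : ℝ))
      (f := fun x : ℝ => Fs k (k / T) r m ((x : ℂ) + ((R : ℝ) : ℂ) * I))
      (C := topB N m k C A T R) (by
        intro y hy
        rw [Set.uIoc_of_le hleN] at hy
        exact D.top R hR1 hRN y hy.1.le hy.2)
    refine h4.trans (le_of_eq ?_)
    rw [show (1 / 2 - (1 / 2 - (N : ℝ))) = N by ring, abs_of_nonneg hN0, mul_comm]

lemma Fs_cl_continuous (k : ℕ) (δ r : ℝ) (m : ℕ) : Continuous (fun t : ℝ => Fs k δ r m (cl t)) := by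
  have h : (fun t : ℝ => Fs k δ r m (cl t)) =
      fun t : ℝ => (om k δ t : ℂ) * Xf (cl t) ^ m * ef (-(Real.log r)) t := by
    funext t
    exact Fs_cl k δ r m t
  rw [h]
  have h1 : Continuous (fun t : ℝ => (om k δ t : ℂ)) := by
    unfold om
    fun_prop
  have h2 : Continuous (fun t : ℝ => ef (-(Real.log r)) t) := by
    unfold ef
    fun_prop
  exact (h1.mul (Xf_cl_continuous.pow m)).mul h2

lemma Dat.cl_norm (D : Dat N m k C A T r) (t : ℝ) (ht : 1 ≤ t) :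
    ‖Fs k (k / T) r m (cl t)‖ ≤ (((k : ℝ) / T) ^ (k + 1) / (k.factorial : ℝ)) * C ^ m *
      (t ^ (k + A * m) * Real.exp (-((k : ℝ) / T * t))) := by
  have hT := D.T_pos
  have hk := D.k_pos
  have hk0 : (0 : ℝ) < k := by exact_mod_cast hk
  have hC := D.hC
  have ht0 : 0 < t := by linarith
  rw [Fs_norm k (k / T) r (by positivity) D.hr m _, tt_cl, Complex.norm_real,
    Real.norm_of_nonneg ht0.le]
  have hclim : (cl t).im = t := by simp [cl]
  have hclre : (cl t).re = 1 / 2 := by simp [cl]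
  have h1 := D.hstrip (cl t) (by rw [hclre]; have : (0 : ℝ) ≤ N := by positivity
                                 linarith) (by rw [hclre]) (by rw [hclim]; exact ht)
  rw [hclim] at h1 ⊢
  rw [hclre, sub_self, Real.rpow_zero, mul_one]
  calc ((k : ℝ) / T) ^ (k + 1) / (k.factorial : ℝ) * t ^ k * Real.exp (-((k : ℝ) / T * t)) *
        ‖Xf (cl t)‖ ^ m
      ≤ ((k : ℝ) / T) ^ (k + 1) / (k.factorial : ℝ) * t ^ k * Real.exp (-((k : ℝ) / T * t)) *
        (C * t ^ A) ^ m := by gcongr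
    _ = _ := by
        rw [mul_pow, ← pow_mul, pow_add]
        ring

lemma Dat.cl_integrable (D : Dat N m k C A T r) :
    IntegrableOn (fun t : ℝ => Fs k (k / T) r m (cl t)) (Set.Ioi 1) := by
  have hT := D.T_pos
  have hk := D.k_pos
  have hk0 : (0 : ℝ) < k := by exact_mod_cast hk
  obtain ⟨hint, -⟩ := gamma_int_nat (k + A * m) ((k : ℝ) / T) (by positivity)
  have hint2 : IntegrableOn (fun t : ℝ => t ^ (k + A * m) * Real.exp (-((k : ℝ) / T * t)))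
      (Set.Ioi 1) := hint.mono_set (Set.Ioi_subset_Ioi (by norm_num))
  apply Integrable.mono' (hint2.const_mul
    ((((k : ℝ) / T) ^ (k + 1) / (k.factorial : ℝ)) * C ^ m))
  · exact (Fs_cl_continuous k _ r m).aestronglyMeasurable
  · rw [ae_restrict_iff' measurableSet_Ioi]
    filter_upwards with t ht
    exact D.cl_norm t (le_of_lt ht)

lemma Dat.tail (D : Dat N m k C A T r) :
    ‖∫ t in Set.Ioi (1 : ℝ), Fs k (k / T) r m (cl t)‖ ≤
      T * (C ^ m * (T ^ 10)⁻¹) + 2 * C ^ m * r ^ N * (2 / T) ^ (m * N) +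
        N * (C ^ m * (T ^ 10)⁻¹) := by
  have h1 := intervalIntegral_tendsto_integral_Ioi (1 : ℝ) D.cl_integrable tendsto_id
  have h2 := h1.norm
  have h3 := (topB_tendsto N m k C A T D.T_pos D.k_pos).const_mul (N : ℝ)
  rw [mul_zero] at h3
  have h4 := h3.const_add (T * (C ^ m * (T ^ 10)⁻¹) + 2 * C ^ m * r ^ N * (2 / T) ^ (m * N) +
        N * (C ^ m * (T ^ 10)⁻¹))
  rw [add_zero] at h4
  apply le_of_tendsto_of_tendsto h2 h4
  filter_upwards [eventually_ge_atTop (1 : ℝ), eventually_ge_atTop (N : ℝ),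
    eventually_ge_atTop (k : ℝ)] with R hR1 hR2 hR3
  exact D.rect R hR1 hR2 hR3

lemma Dat.head (D : Dat N m k C A T r) (C1 : ℝ)
    (hC1 : ∀ t ∈ Set.Icc (0 : ℝ) 1, ‖Xf (cl t)‖ ≤ C1) :
    ‖∫ t in (0 : ℝ)..1, Fs k (k / T) r m (cl t)‖ ≤ C1 ^ m * (T ^ 10)⁻¹ := by
  have hT := D.T_pos
  have hT1 := D.hT
  have hk := D.k_pos
  have hk0 : (0 : ℝ) < k := by exact_mod_cast hk
  have hk1 : (1 : ℝ) ≤ k := by exact_mod_cast hk
  have h1 := intervalIntegral.norm_integral_le_of_norm_le_const (a := (0 : ℝ)) (b := (1 : ℝ))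
      (f := fun t => Fs k (k / T) r m (cl t)) (C := C1 ^ m * (T ^ 10)⁻¹) (by
        intro t ht
        rw [Set.uIoc_of_le (by norm_num)] at ht
        rw [Fs_norm k (k / T) r (by positivity) D.hr m _, tt_cl, Complex.norm_real,
          Real.norm_of_nonneg ht.1.le]
        have hclim : (cl t).im = t := by simp [cl]
        have hclre : (cl t).re = 1 / 2 := by simp [cl]
        rw [hclim, hclre, sub_self, Real.rpow_zero, mul_one]
        have h2 := small_bound T D.hT k D.hk t ht.1.le (by linarith [ht.2]) (3 * N + 10) D.hkM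
        have h3 : Real.exp (-((k : ℝ) / T * t)) ≤ 1 := by
          rw [Real.exp_le_one_iff]
          have h0 := ht.1
          have : 0 ≤ (k : ℝ) / T * t := by positivity
          linarith
        have h4 := hC1 t ⟨ht.1.le, ht.2⟩
        have h5 : (T ^ (3 * N + 10))⁻¹ ≤ (T ^ 10)⁻¹ := by
          apply inv_anti₀ (by positivity)
          exact pow_le_pow_right₀ hT1 (by omega)
        have h6 : 0 ≤ C1 := (norm_nonneg _).trans h4
        calc ((k : ℝ) / T) ^ (k + 1) / (k.factorial : ℝ) * t ^ k * Real.exp (-((k : ℝ) / T * t)) *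
              ‖Xf (cl t)‖ ^ m
            ≤ (T ^ 10)⁻¹ * 1 * C1 ^ m := by
              have h7 := h2.trans h5
              gcongr
          _ = C1 ^ m * (T ^ 10)⁻¹ := by ring)
  rwa [sub_zero, abs_one, mul_one] at h1

lemma Dat.total (D : Dat N m k C A T r) (C1 : ℝ)
    (hC1 : ∀ t ∈ Set.Icc (0 : ℝ) 1, ‖Xf (cl t)‖ ≤ C1) :
    ‖∫ t in Set.Ioi (0 : ℝ), (om k (k / T) t : ℂ) * Xf (cl t) ^ m * ef (-(Real.log r)) t‖ ≤
      C1 ^ m * (T ^ 10)⁻¹ + (T * (C ^ m * (T ^ 10)⁻¹) + 2 * C ^ m * r ^ N * (2 / T) ^ (m * N) +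
        N * (C ^ m * (T ^ 10)⁻¹)) := by
  have h1 : ∀ t : ℝ, (om k (k / T) t : ℂ) * Xf (cl t) ^ m * ef (-(Real.log r)) t =
      Fs k (k / T) r m (cl t) := fun t => (Fs_cl k _ r m t).symm
  simp only [h1]
  have h2 : IntegrableOn (fun t : ℝ => Fs k (k / T) r m (cl t)) (Set.Ioc 0 1) :=
    ((Fs_cl_continuous k _ r m).continuousOn.integrableOn_Icc).mono_set Set.Ioc_subset_Icc_self
  rw [← Set.Ioc_union_Ioi_eq_Ioi (zero_le_one : (0 : ℝ) ≤ 1),
    setIntegral_union (Set.Ioc_disjoint_Ioi le_rfl) measurableSet_Ioi h2 D.cl_integrable]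
  refine (norm_add_le _ _).trans (add_le_add ?_ D.tail)
  rw [← intervalIntegral.integral_of_le zero_le_one]
  exact D.head C1 hC1

end dat2


theorem osc_of
    (Xf_bounds : ∀ (N : ℕ), ∃ C : ℝ, ∃ A : ℕ, 0 < C ∧
      (∀ s : ℂ, 1 / 2 - (N : ℝ) ≤ s.re → s.re ≤ 1 / 2 → 1 ≤ s.im → ‖Xf s‖ ≤ C * s.im ^ A) ∧
      (∀ τ : ℝ, 1 ≤ τ → ‖Xf (((1 / 2 - (N : ℝ) : ℝ) : ℂ) + τ * I)‖ ≤ C * τ ^ (-(N : ℝ))))
    (ε : ℝ) (hε : 0 < ε) (hε1 : ε < 1) (m : ℕ) (hm : 1 ≤ m) (hm3 : m ≤ 3) :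
    ∀ᶠ T : ℝ in atTop, ∀ k : ℕ, Real.log T ^ 2 ≤ k → (k : ℝ) ≤ 4 * Real.log T ^ 2 →
      ∀ r : ℝ, 0 < r → r ≤ T ^ ((m : ℝ) - ε) →
        ‖∫ t in Set.Ioi (0 : ℝ), (om k (k / T) t : ℂ) * Xf (cl t) ^ m * ef (-(Real.log r)) t‖ ≤
          T ^ (-5 : ℝ) := by
  obtain ⟨N, hN⟩ : ∃ N : ℕ, 8 / ε ≤ N := exists_nat_ge _
  have hN8 : 8 ≤ ε * N := by
    rw [div_le_iff₀ hε] at hN
    linarith
  obtain ⟨C, A, hC, hstrip, hleft⟩ := Xf_bounds N
  obtain ⟨C1, hC1⟩ := isCompact_Icc.exists_bound_of_continuousOn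
    (f := fun t : ℝ => Xf (cl t)) (s := Set.Icc (0 : ℝ) 1) Xf_cl_continuous.continuousOn
  have hC10 : 0 ≤ C1 := (norm_nonneg _).trans (hC1 0 ⟨le_rfl, zero_le_one⟩)
  set K0 : ℕ := 2 * (3 * N + 10) + N ^ 2 + 2 * (m * N) with hK0
  set K : ℝ := C1 ^ m + C ^ m + 2 * C ^ m * 2 ^ (m * N) + N * C ^ m with hK
  have hKpos : 0 ≤ K := by positivity
  have hlog : ∀ᶠ T : ℝ in atTop, (K0 : ℝ) + 1 ≤ Real.log T :=
    Real.tendsto_log_atTop.eventually_ge_atTop _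
  have hsq : ∀ᶠ T : ℝ in atTop, 4 * Real.log T ^ 2 * (2 * Real.exp 1) ≤ Real.sqrt T := by
    have h1 := (isLittleO_log_rpow_rpow_atTop 2 (by norm_num : (0 : ℝ) < 1 / 2)).bound
      (c := (8 * Real.exp 1)⁻¹) (by positivity)
    filter_upwards [h1, eventually_ge_atTop (1 : ℝ)] with T hT hT1
    have h2 : 0 ≤ Real.log T := Real.log_nonneg hT1
    rw [Real.norm_of_nonneg (by positivity), Real.norm_of_nonneg (by positivity),
      Real.rpow_two, ← Real.sqrt_eq_rpow] at hT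
    have he : 0 < 8 * Real.exp 1 := by positivity
    calc 4 * Real.log T ^ 2 * (2 * Real.exp 1) = (8 * Real.exp 1) * Real.log T ^ 2 := by ring
      _ ≤ (8 * Real.exp 1) * ((8 * Real.exp 1)⁻¹ * Real.sqrt T) := by gcongr
      _ = Real.sqrt T := by field_simp
  filter_upwards [hlog, hsq, eventually_ge_atTop (1 : ℝ), eventually_ge_atTop K] with T h1 h2 hT1 hTK
    k hk1 hk2 r hr hrT
  have hT0 : 0 < T := by linarith
  have hKk : K0 ≤ k := by
    have h3 : (K0 : ℝ) ≤ (k : ℝ) := by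
      have h4 : (0 : ℝ) ≤ K0 := by positivity
      nlinarith
    exact_mod_cast h3
  have hm3' : (m : ℝ) ≤ 3 := by exact_mod_cast hm3
  have D : Dat N m k C A T r :=
    { hT := hT1
      hk := by
        calc (k : ℝ) * (2 * Real.exp 1) ≤ 4 * Real.log T ^ 2 * (2 * Real.exp 1) := by gcongr
          _ ≤ Real.sqrt T := h2
      hkM := by omega
      hkN := by omega
      hkmN := by omega
      hC := hC
      hr := hr
      hrT := by
        refine hrT.trans ?_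
        calc T ^ ((m : ℝ) - ε) ≤ T ^ (3 : ℝ) :=
              Real.rpow_le_rpow_of_exponent_le hT1 (by linarith)
          _ = T ^ 3 := by
              rw [show (3 : ℝ) = ((3 : ℕ) : ℝ) by norm_num, Real.rpow_natCast]
      hstrip := hstrip
      hleft := hleft }
  refine (D.total C1 (fun t ht => hC1 t ht)).trans ?_
  have hpow8 : r ^ N * (2 / T) ^ (m * N) ≤ 2 ^ (m * N) * (T ^ 8)⁻¹ := by
    have h5 : r ^ N ≤ T ^ (((m : ℝ) - ε) * N) := by
      rw [Real.rpow_mul hT0.le, Real.rpow_natCast]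
      exact pow_le_pow_left₀ hr.le hrT N
    have h6 : (2 / T) ^ (m * N) = 2 ^ (m * N) * T ^ (-((m : ℝ) * N)) := by
      rw [div_pow, Real.rpow_neg hT0.le, div_eq_mul_inv]
      congr 2
      rw [show ((m : ℝ) * N) = ((m * N : ℕ) : ℝ) by push_cast; ring, Real.rpow_natCast]
    rw [h6]
    calc r ^ N * (2 ^ (m * N) * T ^ (-((m : ℝ) * N)))
        ≤ T ^ (((m : ℝ) - ε) * N) * (2 ^ (m * N) * T ^ (-((m : ℝ) * N))) := by gcongr
      _ = 2 ^ (m * N) * (T ^ (((m : ℝ) - ε) * N) * T ^ (-((m : ℝ) * N))) := by ring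
      _ = 2 ^ (m * N) * T ^ (-(ε * N)) := by
          rw [← Real.rpow_add hT0]
          congr 2
          ring
      _ ≤ 2 ^ (m * N) * T ^ (-(8 : ℝ)) := by
          gcongr
      _ = 2 ^ (m * N) * (T ^ 8)⁻¹ := by
          rw [Real.rpow_neg hT0.le]
          congr 2
          rw [show (8 : ℝ) = ((8 : ℕ) : ℝ) by norm_num, Real.rpow_natCast]
  have h9 : (T ^ 10)⁻¹ ≤ (T ^ 8)⁻¹ := by
    apply inv_anti₀ (by positivity)
    exact pow_le_pow_right₀ hT1 (by norm_num)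
  have h10 : T * (T ^ 10)⁻¹ ≤ (T ^ 8)⁻¹ := by
    have : T * (T ^ 10)⁻¹ = (T ^ 9)⁻¹ := by field_simp
    rw [this]
    apply inv_anti₀ (by positivity)
    exact pow_le_pow_right₀ hT1 (by norm_num)
  calc C1 ^ m * (T ^ 10)⁻¹ + (T * (C ^ m * (T ^ 10)⁻¹) + 2 * C ^ m * r ^ N * (2 / T) ^ (m * N) +
        N * (C ^ m * (T ^ 10)⁻¹))
      = C1 ^ m * (T ^ 10)⁻¹ + (C ^ m * (T * (T ^ 10)⁻¹) +
        2 * C ^ m * (r ^ N * (2 / T) ^ (m * N)) + N * (C ^ m * (T ^ 10)⁻¹)) := by ring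
    _ ≤ C1 ^ m * (T ^ 8)⁻¹ + (C ^ m * (T ^ 8)⁻¹ +
        2 * C ^ m * (2 ^ (m * N) * (T ^ 8)⁻¹) + N * (C ^ m * (T ^ 8)⁻¹)) := by gcongr
    _ = K * (T ^ 8)⁻¹ := by rw [hK]; ring
    _ ≤ T ^ 3 * (T ^ 8)⁻¹ := by
        gcongr
        calc K ≤ T := hTK
          _ = T ^ 1 := (pow_one T).symm
          _ ≤ T ^ 3 := pow_le_pow_right₀ hT1 (by norm_num)
    _ = T ^ (-5 : ℝ) := by
        rw [Real.rpow_neg hT0.le, show (5 : ℝ) = ((5 : ℕ) : ℝ) by norm_num, Real.rpow_natCast]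
        field_simp


/-- T3 -/
theorem osc (ε : ℝ) (hε : 0 < ε) (hε1 : ε < 1) (m : ℕ) (hm : 1 ≤ m) (hm3 : m ≤ 3) :
    ∀ᶠ T : ℝ in atTop, ∀ k : ℕ, Real.log T ^ 2 ≤ k → (k : ℝ) ≤ 4 * Real.log T ^ 2 →
      ∀ r : ℝ, 0 < r → r ≤ T ^ ((m : ℝ) - ε) →
        ‖∫ t in Set.Ioi (0 : ℝ), (om k (k / T) t : ℂ) * Xf (cl t) ^ m * ef (-(Real.log r)) t‖ ≤
          T ^ (-5 : ℝ) :=
  osc_of Pool.Agent.H942R2.SMT0.Xf_bounds ε hε hε1 m hm hm3


end

end Pool.Agent.H497R2.SMT3
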