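import Pool.Agent.H223.EM.MDefs

/-!
# MI2: the weight `w4`, instance (3,6,1,2) (helper497)
-/

set_option autoImplicit false

namespace Pool.Agent.H497R2.EM

open Finset Filter Topology MeasureTheory Complex
open Pool.Agent.H306R2 Pool.Agent.H306R2.SM Pool.Agent.H223.EM

noncomputable section

/-- products of summable families of nonnegative reals over `Fin r → ℕ` -/
lemma summable_pi {r : ℕ} (f : Fin r → ℕ → ℝ) (h0 : ∀ i n, 0 ≤ f i n) (hf : ∀ i, Summable (f i)) :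
    Summable (fun v : Fin r → ℕ => ∏ i, f i (v i)) := by
  refine summable_of_sum_le (fun v => Finset.prod_nonneg fun i _ => h0 i _)
    (c := ∏ i, ∑' n, f i n) (fun s => ?_)
  classical
  calc ∑ v ∈ s, ∏ i, f i (v i)
      ≤ ∑ v ∈ Fintype.piFinset (fun i => s.image (fun v => v i)), ∏ i, f i (v i) := by
        refine Finset.sum_le_sum_of_subset_of_nonneg (fun v hv => ?_)
          (fun v _ _ => Finset.prod_nonneg fun i _ => h0 i _)
        rw [Fintype.mem_piFinset]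
        exact fun i => Finset.mem_image_of_mem (fun v => v i) hv
    _ = ∏ i, ∑ n ∈ s.image (fun v => v i), f i n := (Finset.prod_univ_sum _ _).symm
    _ ≤ ∏ i, ∑' n, f i n := by
        refine Finset.prod_le_prod (fun i _ => Finset.sum_nonneg fun n _ => h0 i n) (fun i _ => ?_)
        exact (hf i).sum_le_tsum _ (fun n _ => h0 i n)

lemma inv_pr {p : ℕ} (hp : p.Prime) : 0 < 1 / (p : ℝ) ∧ 1 / (p : ℝ) ≤ 1 / 2 := by
  have h2 : (2 : ℝ) ≤ p := by exact_mod_cast hp.two_le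
  refine ⟨by positivity, ?_⟩
  exact one_div_le_one_div_of_le (by norm_num) h2

/-- criterion for the conditions `sum` and `second` of `LW` -/
lemma LW_crit {r : ℕ} (P : (Fin r → ℕ) → ℝ) (hP : Summable (fun v => P v * (1 / 2 : ℝ) ^ (∑ i, v i)))
    (lam : ℕ → (Fin r → ℕ) → ℝ) (h0 : ∀ p : ℕ, p.Prime → ∀ v, 0 ≤ lam p v)
    (h : ∀ p : ℕ, p.Prime → ∀ v, lam p v ≤ P v * (1 / (p : ℝ)) ^ (∑ i, v i)) :
    (∀ p : ℕ, p.Prime → Summable (lam p)) ∧
    ∃ C : ℝ, ∀ p : ℕ, p.Prime →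
      ∑' v : Fin r → ℕ, (if 2 ≤ ∑ i, v i then lam p v else 0) ≤ C / (p : ℝ) ^ 2 := by
  have P0 : ∀ v, 0 ≤ P v := by
    intro v
    have h1 := (h0 2 Nat.prime_two v).trans (h 2 Nat.prime_two v)
    have h2 : 0 < (1 / ((2 : ℕ) : ℝ)) ^ (∑ i, v i) := by positivity
    exact nonneg_of_mul_nonneg_left h1 h2
  have hb : ∀ p : ℕ, p.Prime → ∀ v, lam p v ≤ P v * (1 / 2 : ℝ) ^ (∑ i, v i) := by
    intro p hp v
    refine (h p hp v).trans (mul_le_mul_of_nonneg_left ?_ (P0 v))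
    exact pow_le_pow_left₀ (inv_pr hp).1.le (inv_pr hp).2 _
  have hsum : ∀ p : ℕ, p.Prime → Summable (lam p) := fun p hp =>
    Summable.of_nonneg_of_le (h0 p hp) (hb p hp) hP
  refine ⟨hsum, 4 * ∑' v, P v * (1 / 2 : ℝ) ^ (∑ i, v i), fun p hp => ?_⟩
  obtain ⟨x0, x2⟩ := inv_pr hp
  have e : (4 * ∑' v, P v * (1 / 2 : ℝ) ^ (∑ i, v i)) / (p : ℝ) ^ 2 =
      ∑' v, (4 * (1 / (p : ℝ)) ^ 2) * (P v * (1 / 2 : ℝ) ^ (∑ i, v i)) := by
    rw [tsum_mul_left]
    ring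
  rw [e]
  refine Summable.tsum_le_tsum (fun v => ?_) ?_ (hP.mul_left _)
  · split_ifs with hv
    · refine (h p hp v).trans ?_
      obtain ⟨k, hk⟩ := Nat.exists_eq_add_of_le hv
      rw [hk, pow_add, pow_add]
      have h3 : (1 / (p : ℝ)) ^ k ≤ (1 / 2) ^ k := pow_le_pow_left₀ x0.le x2 _
      have h4 := mul_le_mul_of_nonneg_left h3 (show 0 ≤ (1 / (p : ℝ)) ^ 2 * P v by have := P0 v; positivity)
      linarith
    · have := P0 v
      positivity
  · refine Summable.of_nonneg_of_le (fun v => ?_) (fun v => ?_) (hsum p hp)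
    · split_ifs
      · exact h0 p hp v
      · exact le_rfl
    · split_ifs
      · exact le_rfl
      · exact h0 p hp v

lemma pow_geo_summable (k : ℕ) : Summable (fun n : ℕ => ((n : ℝ) + 2) ^ k * (1 / 2 : ℝ) ^ n) := by
  have h := summable_pow_mul_geometric_of_norm_lt_one k (r := (1 / 2 : ℝ)) (by norm_num)
  have h2 := (summable_nat_add_iff 2).mpr h
  refine (h2.mul_left 4).congr fun n => ?_
  push_cast
  rw [pow_add]
  ring

/-! ### psl -/

lemma psl_zero (p : ℕ) : psl p 0 = 1 := by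
  unfold psl
  push_cast
  ring

lemma psl_nonneg {p : ℕ} (hp : p.Prime) (a : ℕ) : 0 ≤ psl p a := by
  obtain ⟨x0, x2⟩ := inv_pr hp
  have : 0 ≤ 1 - 1 / (p : ℝ) := by linarith
  unfold psl
  positivity

lemma psl_le {p : ℕ} (hp : p.Prime) (a : ℕ) : psl p a ≤ ((a : ℝ) + 2) ^ 2 := by
  obtain ⟨x0, x2⟩ := inv_pr hp
  unfold psl
  set x := 1 / (p : ℝ)
  have a0 : (0 : ℝ) ≤ a := Nat.cast_nonneg a
  have h1 : (1 - x) ^ 2 ≤ 1 := by nlinarith
  have h2 : x * (1 - x) ≤ 1 := by nlinarith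
  have h3 : (1 - x) ^ 2 * (((a : ℝ) + 1) * (a + 2) / 2) ≤ ((a : ℝ) + 1) * (a + 2) / 2 :=
    mul_le_of_le_one_left (by positivity) h1
  have h4 : ((a : ℝ) + 1) * x * (1 - x) ≤ (a : ℝ) + 1 := by
    rw [mul_assoc]
    exact mul_le_of_le_one_right (by positivity) h2
  nlinarith

lemma ch_one (a : ℕ) : (((a + 1).choose 1 : ℕ) : ℝ) = (a : ℝ) + 1 := by
  rw [Nat.choose_one_right]; push_cast; ring

lemma ch_two (a : ℕ) : (((a + 2).choose 2 : ℕ) : ℝ) = ((a : ℝ) + 1) * (a + 2) / 2 := by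
  rw [Nat.cast_choose_two]
  push_cast
  ring

lemma ch_succ (k a : ℕ) : (((a + (k + 1)).choose (k + 1) : ℕ) : ℝ) =
    ((a + k).choose k : ℕ) * ((a : ℝ) + k + 1) / (k + 1) := by
  have h := Nat.add_one_mul_choose_eq (a + k) k
  have h' : (((a + k + 1) * (a + k).choose k : ℕ) : ℝ) = (((a + k + 1).choose (k + 1) * (k + 1) : ℕ) : ℝ) := by
    exact_mod_cast h
  push_cast at h'
  rw [← add_assoc, eq_div_iff (by positivity)]
  linarith

lemma ch_three (a : ℕ) : (((a + 3).choose 3 : ℕ) : ℝ) = ((a : ℝ) + 1) * (a + 2) * (a + 3) / 6 := by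
  have := ch_succ 2 a
  rw [ch_two] at this
  norm_num at this
  rw [this]
  ring

lemma ch_four (a : ℕ) : (((a + 4).choose 4 : ℕ) : ℝ) = ((a : ℝ) + 1) * (a + 2) * (a + 3) * (a + 4) / 24 := by
  have := ch_succ 3 a
  rw [ch_three] at this
  norm_num at this
  rw [this]
  ring

lemma ch_five (a : ℕ) : (((a + 5).choose 5 : ℕ) : ℝ) =
    ((a : ℝ) + 1) * (a + 2) * (a + 3) * (a + 4) * (a + 5) / 120 := by
  have := ch_succ 4 a
  rw [ch_four] at this
  norm_num at this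
  rw [this]
  ring

lemma ch_six (a : ℕ) : (((a + 6).choose 6 : ℕ) : ℝ) =
    ((a : ℝ) + 1) * (a + 2) * (a + 3) * (a + 4) * (a + 5) * (a + 6) / 720 := by
  have := ch_succ 5 a
  rw [ch_five] at this
  norm_num at this
  rw [this]
  ring

/-- `∑ psl(a)² x^a` -/
lemma psl_sq_hasSum {p : ℕ} (hp : p.Prime) :
    HasSum (fun a : ℕ => psl p a ^ 2 * (1 / (p : ℝ)) ^ a)
      ((1 + 8 * (1 / (p : ℝ)) + 9 * (1 / (p : ℝ)) ^ 2 + (1 / (p : ℝ)) ^ 3) / (1 - 1 / (p : ℝ))) := by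
  obtain ⟨x0, x2⟩ := inv_pr hp
  unfold psl
  set x := 1 / (p : ℝ)
  have hx : ‖x‖ < 1 := by rw [Real.norm_of_nonneg x0.le]; linarith
  have hc : 1 - x ≠ 0 := by linarith
  have h0 := hasSum_choose_mul_geometric_of_norm_lt_one 0 hx
  have h1 := hasSum_choose_mul_geometric_of_norm_lt_one 1 hx
  have h2 := hasSum_choose_mul_geometric_of_norm_lt_one 2 hx
  have h3 := hasSum_choose_mul_geometric_of_norm_lt_one 3 hx
  have h4 := hasSum_choose_mul_geometric_of_norm_lt_one 4 hx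
  have H := ((((h4.mul_left (6 * (1 - x) ^ 4)).add (h3.mul_left (-6 * (1 - x) ^ 4 + 6 * (1 - x) ^ 3 * x))).add
    (h2.mul_left ((1 - x) ^ 4 - 4 * (1 - x) ^ 3 * x + 2 * x ^ 2 * (1 - x) ^ 2 + 2 * x * (1 - x) ^ 2))).add
    (h1.mul_left (- x ^ 2 * (1 - x) ^ 2 + 2 * x ^ 2 * (1 - x)))).add (h0.mul_left (x ^ 2))
  have e : (1 + 8 * x + 9 * x ^ 2 + x ^ 3) / (1 - x) =
      6 * (1 - x) ^ 4 * (1 / (1 - x) ^ (4 + 1)) + (-6 * (1 - x) ^ 4 + 6 * (1 - x) ^ 3 * x) * (1 / (1 - x) ^ (3 + 1)) +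
      ((1 - x) ^ 4 - 4 * (1 - x) ^ 3 * x + 2 * x ^ 2 * (1 - x) ^ 2 + 2 * x * (1 - x) ^ 2) * (1 / (1 - x) ^ (2 + 1)) +
      (- x ^ 2 * (1 - x) ^ 2 + 2 * x ^ 2 * (1 - x)) * (1 / (1 - x) ^ (1 + 1)) + x ^ 2 * (1 / (1 - x) ^ (0 + 1)) := by
    field_simp
    ring
  rw [e]
  refine H.congr_fun fun a => ?_
  rw [ch_one, ch_two, ch_three, ch_four]
  simp only [add_zero, Nat.choose_zero_right, Nat.cast_one]
  ring

lemma lc_four (m : ℕ) : lc 4 m = ((m : ℝ) + 1) * (m + 2) * (m + 3) / 6 := by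
  unfold lc
  induction m with
  | zero => norm_num
  | succ m ih =>
    rw [Finset.prod_range_succ, ih]
    push_cast
    field_simp
    ring

lemma lc4_hasSum {x : ℝ} (hx0 : 0 ≤ x) (hx1 : x < 1) :
    HasSum (fun m : ℕ => lc 4 m ^ 2 * x ^ m) ((1 + 9 * x + 9 * x ^ 2 + x ^ 3) / (1 - x) ^ 7) := by
  have hx : ‖x‖ < 1 := by rw [Real.norm_of_nonneg hx0]; linarith
  have hc : 1 - x ≠ 0 := by linarith
  have h3 := hasSum_choose_mul_geometric_of_norm_lt_one 3 hx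
  have h4 := hasSum_choose_mul_geometric_of_norm_lt_one 4 hx
  have h5 := hasSum_choose_mul_geometric_of_norm_lt_one 5 hx
  have h6 := hasSum_choose_mul_geometric_of_norm_lt_one 6 hx
  have H := (((h6.mul_left 20).add (h5.mul_left (-30))).add (h4.mul_left 12)).add (h3.mul_left (-1))
  have e : (1 + 9 * x + 9 * x ^ 2 + x ^ 3) / (1 - x) ^ 7 =
      20 * (1 / (1 - x) ^ (6 + 1)) + -30 * (1 / (1 - x) ^ (5 + 1)) + 12 * (1 / (1 - x) ^ (4 + 1)) +
      -1 * (1 / (1 - x) ^ (3 + 1)) := by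
    field_simp
    ring
  rw [e]
  refine H.congr_fun fun a => ?_
  rw [lc_four, ch_three, ch_four, ch_five, ch_six]
  ring

/-- `∑_V (V+1) x^{max(A,V)}` -/
lemma inner_hasSum {p : ℕ} (hp : p.Prime) (A : ℕ) :
    HasSum (fun V : ℕ => ((V : ℝ) + 1) * (1 / (p : ℝ)) ^ (max A V))
      ((1 / (p : ℝ)) ^ A * psl p A / (1 - 1 / (p : ℝ)) ^ 2) := by
  obtain ⟨x0, x2⟩ := inv_pr hp
  unfold psl
  set x := 1 / (p : ℝ)
  have hx : ‖x‖ < 1 := by rw [Real.norm_of_nonneg x0.le]; linarith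
  have hc : 1 - x ≠ 0 := by linarith
  have h0 := hasSum_choose_mul_geometric_of_norm_lt_one 0 hx
  have h1 := hasSum_choose_mul_geometric_of_norm_lt_one 1 hx
  have H := (h1.mul_left (x ^ A)).add (h0.mul_left (x ^ A * A))
  rw [← hasSum_nat_add_iff' A]
  have hfin : ∑ i ∈ range A, ((i : ℝ) + 1) * x ^ (max A i) = x ^ A * (A * (A + 1) / 2) := by
    have e1 : ∑ i ∈ range A, ((i : ℝ) + 1) * x ^ (max A i) = ∑ i ∈ range A, ((i : ℝ) + 1) * x ^ A := by
      refine Finset.sum_congr rfl fun i hi => ?_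
      rw [max_eq_left (Finset.mem_range.mp hi).le]
    rw [e1, ← Finset.sum_mul, mul_comm]
    congr 1
    clear e1 H h0 h1
    induction A with
    | zero => simp
    | succ A ih =>
      rw [Finset.sum_range_succ, ih]
      push_cast
      ring
  rw [hfin]
  have e : x ^ A * ((1 - x) ^ 2 * (((A : ℝ) + 1) * (A + 2) / 2) + ((A : ℝ) + 1) * x * (1 - x) + x) / (1 - x) ^ 2 -
      x ^ A * (A * (A + 1) / 2) = x ^ A * (1 / (1 - x) ^ (1 + 1)) + x ^ A * A * (1 / (1 - x) ^ (0 + 1)) := by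
    field_simp
    ring
  rw [e]
  refine H.congr_fun fun j => ?_
  rw [ch_one, max_eq_right (Nat.le_add_left A j)]
  simp only [add_zero, Nat.choose_zero_right, Nat.cast_one]
  push_cast
  rw [pow_add]
  ring

/-! ### the local weights -/

/-- local weights of `w4` -/
def l4 (p : ℕ) (v : Fin 4 → ℕ) : ℝ :=
  if min (v 0) (v 3) = 0 ∧ min (v 0 + v 1) (v 2) = 0 then
    psl p (v 0 + v 1) * (((v 1 + v 3 : ℕ) : ℝ) + 1) * (1 / (p : ℝ)) ^ (v 0 + v 1 + v 2 + v 3) else 0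

lemma l4_nonneg {p : ℕ} (hp : p.Prime) (v : Fin 4 → ℕ) : 0 ≤ l4 p v := by
  obtain ⟨x0, x2⟩ := inv_pr hp
  have := psl_nonneg hp (v 0 + v 1)
  unfold l4
  split_ifs
  · positivity
  · exact le_rfl

lemma l4_le {p : ℕ} (hp : p.Prime) (v : Fin 4 → ℕ) :
    l4 p v ≤ (∏ i, ((v i : ℝ) + 2) ^ 3) * (1 / (p : ℝ)) ^ (∑ i, v i) := by
  obtain ⟨x0, x2⟩ := inv_pr hp
  unfold l4
  split_ifs
  · rw [Fin.sum_univ_four]
    refine mul_le_mul_of_nonneg_right ?_ (by positivity)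
    rw [Fin.prod_univ_four]
    have h1 := psl_le hp (v 0 + v 1)
    have a0 : (0 : ℝ) ≤ v 0 := Nat.cast_nonneg _
    have a1 : (0 : ℝ) ≤ v 1 := Nat.cast_nonneg _
    have a2 : (0 : ℝ) ≤ v 2 := Nat.cast_nonneg _
    have a3 : (0 : ℝ) ≤ v 3 := Nat.cast_nonneg _
    push_cast at h1 ⊢
    set b0 : ℝ := (v 0 : ℝ) + 2 with hb0
    set b1 : ℝ := (v 1 : ℝ) + 2 with hb1
    set b2 : ℝ := (v 2 : ℝ) + 2 with hb2
    set b3 : ℝ := (v 3 : ℝ) + 2 with hb3
    have c0 : 1 ≤ b0 := by linarith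
    have c1 : 1 ≤ b1 := by linarith
    have c2 : 1 ≤ b2 := by linarith
    have c3 : 1 ≤ b3 := by linarith
    have h2 : psl p (v 0 + v 1) ≤ (b0 * b1) ^ 2 := by
      refine h1.trans (pow_le_pow_left₀ (by positivity) ?_ 2)
      nlinarith [mul_nonneg a0 a1]
    have h3 : (v 1 : ℝ) + (v 3 : ℝ) + 1 ≤ b1 * b3 := by nlinarith [mul_nonneg a1 a3]
    have h4 := mul_le_mul h2 h3 (by positivity) (by positivity)
    refine h4.trans ?_
    have e1 : b0 ^ 2 ≤ b0 ^ 3 := pow_le_pow_right₀ c0 (by norm_num)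
    have e3 : b3 ≤ b3 ^ 3 := le_self_pow₀ c3 (by norm_num)
    have e2 : 1 ≤ b2 ^ 3 := one_le_pow₀ c2
    calc (b0 * b1) ^ 2 * (b1 * b3) = b0 ^ 2 * b1 ^ 3 * 1 * b3 := by ring
      _ ≤ b0 ^ 3 * b1 ^ 3 * b2 ^ 3 * b3 ^ 3 := by gcongr
  · positivity

lemma P4_summable : Summable (fun v : Fin 4 → ℕ => (∏ i, ((v i : ℝ) + 2) ^ 3) * (1 / 2 : ℝ) ^ (∑ i, v i)) := by
  have h := summable_pi (r := 4) (fun _ n => ((n : ℝ) + 2) ^ 3 * (1 / 2 : ℝ) ^ n)
    (fun _ n => by positivity) (fun _ => pow_geo_summable 3)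
  refine h.congr fun v => ?_
  rw [Finset.prod_mul_distrib, Finset.prod_pow_eq_pow_sum]

lemma psl_one (p : ℕ) : psl p 1 = 3 - 3 * (1 / (p : ℝ)) + (1 / (p : ℝ)) ^ 2 := by
  unfold psl
  push_cast
  ring

theorem l4_LW : LW 4 ![3, 6, 1, 2] l4 := by
  obtain ⟨h1, h2⟩ := LW_crit (fun v : Fin 4 → ℕ => ∏ i, ((v i : ℝ) + 2) ^ 3) P4_summable l4
    (fun p hp v => l4_nonneg hp v) (fun p hp v => l4_le hp v)
  refine ⟨fun p hp v => l4_nonneg hp v, fun p hp => ?_, h1, ⟨6, fun p hp i => ?_⟩, h2⟩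
  · unfold l4
    simp [psl_zero]
  · obtain ⟨x0, x2⟩ := inv_pr hp
    have e : (6 : ℝ) / (p : ℝ) ^ 2 = 6 * (1 / (p : ℝ)) ^ 2 := by ring
    have e' : ∀ c : ℝ, c / (p : ℝ) = c * (1 / (p : ℝ)) := fun c => by ring
    rw [e, e']
    have q1 := psl_one p
    have q0 := psl_zero p
    unfold l4
    set x := 1 / (p : ℝ)
    fin_cases i
    · simp [q1]
      rw [abs_le]
      constructor <;> nlinarith
    · simp [q1]
      rw [abs_le]
      constructor <;> nlinarith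
    · simp [q0]
      positivity
    · simp [q0]
      norm_num
      positivity

/-! ### the local sum -/

lemma hasSum_prod_nn (f : ℕ × ℕ → ℝ) (h0 : ∀ q, 0 ≤ f q) (g : ℕ → ℝ)
    (hg : ∀ a, HasSum (fun b => f (a, b)) (g a)) (S : ℝ) (hS : HasSum g S) : HasSum f S := by
  have hs : Summable f := by
    rw [summable_prod_of_nonneg h0]
    refine ⟨fun a => (hg a).summable, ?_⟩
    refine hS.summable.congr fun a => ?_
    exact (hg a).tsum_eq.symm
  have e := hs.tsum_prod' (fun a => (hg a).summable)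
  have e2 : ∑' a, ∑' b, f (a, b) = S := by
    rw [← hS.tsum_eq]
    exact tsum_congr fun a => (hg a).tsum_eq
  rw [e2] at e
  rw [← e]
  exact hs.hasSum

/-- parametrisation of the terms with `v 2 = 0` -/
def g1 (q : ℕ × ℕ) : Fin 4 → ℕ := ![q.1 - min q.1 q.2, min q.1 q.2, 0, q.2 - min q.1 q.2]

/-- parametrisation of the terms with `v 2 ≠ 0` -/
def g2 (q : ℕ × ℕ) : Fin 4 → ℕ := ![0, 0, q.2 + 1, q.1]

lemma g1_inj : Function.Injective g1 := by
  intro q q' h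
  have h0 := congrFun h 0
  have h1 := congrFun h 1
  have h3 := congrFun h 3
  simp only [g1, Matrix.cons_val] at h0 h1 h3
  ext <;> omega

lemma g2_inj : Function.Injective g2 := by
  intro q q' h
  have h2 := congrFun h 2
  have h3 := congrFun h 3
  simp only [g2, Matrix.cons_val] at h2 h3
  ext <;> omega

lemma l4_g1 (p : ℕ) (A V : ℕ) : l4 p (g1 (A, V)) =
    psl p A * (((V : ℝ) + 1) * (1 / (p : ℝ)) ^ (max A V)) := by
  have q0 : g1 (A, V) 0 = A - min A V := rfl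
  have q1 : g1 (A, V) 1 = min A V := rfl
  have q2 : g1 (A, V) 2 = 0 := rfl
  have q3 : g1 (A, V) 3 = V - min A V := rfl
  have e1 : g1 (A, V) 0 + g1 (A, V) 1 = A := by omega
  have e2 : g1 (A, V) 1 + g1 (A, V) 3 = V := by omega
  have e3 : g1 (A, V) 0 + g1 (A, V) 1 + g1 (A, V) 2 + g1 (A, V) 3 = max A V := by omega
  unfold l4
  rw [if_pos ⟨by omega, by omega⟩, e3, e1, e2]
  ring

lemma l4_g2 (p : ℕ) (V c : ℕ) : l4 p (g2 (V, c)) =
    (((V : ℝ) + 1) * (1 / (p : ℝ)) ^ V) * ((1 / (p : ℝ)) * (1 / (p : ℝ)) ^ c) := by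
  have q0 : g2 (V, c) 0 = 0 := rfl
  have q1 : g2 (V, c) 1 = 0 := rfl
  have q2 : g2 (V, c) 2 = c + 1 := rfl
  have q3 : g2 (V, c) 3 = V := rfl
  unfold l4
  rw [if_pos ⟨by omega, by omega⟩, q0, q1, q2, q3]
  simp only [zero_add, add_zero, psl_zero]
  rw [pow_add, pow_add]
  ring

lemma l4_hasSum {p : ℕ} (hp : p.Prime) : HasSum (l4 p)
    ((1 + 9 * (1 / (p : ℝ)) + 9 * (1 / (p : ℝ)) ^ 2 + (1 / (p : ℝ)) ^ 3) / (1 - 1 / (p : ℝ)) ^ 3) := by
  obtain ⟨x0, x2⟩ := inv_pr hp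
  have hsq := psl_sq_hasSum hp
  have hin := inner_hasSum hp
  have hx : ‖1 / (p : ℝ)‖ < 1 := by rw [Real.norm_of_nonneg x0.le]; linarith
  have hc : 1 - 1 / (p : ℝ) ≠ 0 := by linarith
  -- first part
  have p1 : HasSum (fun v : Fin 4 → ℕ => if v 2 = 0 then l4 p v else 0)
      ((1 + 8 * (1 / (p : ℝ)) + 9 * (1 / (p : ℝ)) ^ 2 + (1 / (p : ℝ)) ^ 3) / (1 - 1 / (p : ℝ)) /
        (1 - 1 / (p : ℝ)) ^ 2) := by
    rw [← g1_inj.hasSum_iff]
    · refine hasSum_prod_nn _ (fun q => ?_) (fun A => psl p A ^ 2 * (1 / (p : ℝ)) ^ A / (1 - 1 / (p : ℝ)) ^ 2)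
        (fun A => ?_) _ (hsq.div_const _)
      · simp only [Function.comp]
        split_ifs
        · exact l4_nonneg hp _
        · exact le_rfl
      · have h := (hin A).mul_left (psl p A)
        have e : psl p A ^ 2 * (1 / (p : ℝ)) ^ A / (1 - 1 / (p : ℝ)) ^ 2 =
            psl p A * ((1 / (p : ℝ)) ^ A * psl p A / (1 - 1 / (p : ℝ)) ^ 2) := by ring
        rw [e]
        refine h.congr_fun fun V => ?_
        simp only [Function.comp]
        rw [if_pos (by simp [g1]), l4_g1]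
    · intro v hv
      by_contra hne
      split_ifs at hne with h2
      · apply hv
        unfold l4 at hne
        split_ifs at hne with hm
        · refine ⟨(v 0 + v 1, v 1 + v 3), ?_⟩
          funext i
          unfold g1
          fin_cases i <;> simp only [Matrix.cons_val, Fin.isValue, Fin.zero_eta, Fin.mk_one, Fin.reduceFinMk] <;> omega
        · exact absurd rfl hne
      · exact absurd rfl hne
  have p2 : HasSum (fun v : Fin 4 → ℕ => if v 2 = 0 then 0 else l4 p v)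
      (1 / (1 - 1 / (p : ℝ)) ^ (1 + 1) * ((1 / (p : ℝ)) * (1 - 1 / (p : ℝ))⁻¹)) := by
    rw [← g2_inj.hasSum_iff]
    · have hV := hasSum_choose_mul_geometric_of_norm_lt_one 1 hx
      have hcc := (hasSum_geometric_of_norm_lt_one hx).mul_left (1 / (p : ℝ))
      refine hasSum_prod_nn _ (fun q => ?_)
        (fun V => (((V : ℝ) + 1) * (1 / (p : ℝ)) ^ V) * ((1 / (p : ℝ)) * (1 - 1 / (p : ℝ))⁻¹))
        (fun V => ?_) _ ?_
      · simp only [Function.comp]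
        split_ifs
        · exact le_rfl
        · exact l4_nonneg hp _
      · refine (hcc.mul_left (((V : ℝ) + 1) * (1 / (p : ℝ)) ^ V)).congr_fun fun c => ?_
        simp only [Function.comp]
        rw [if_neg (by simp [g2]), l4_g2]
      · refine (hV.mul_right ((1 / (p : ℝ)) * (1 - 1 / (p : ℝ))⁻¹)).congr_fun fun V => ?_
        rw [ch_one]
    · intro v hv
      by_contra hne
      split_ifs at hne with h2
      · exact absurd rfl hne
      · apply hv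
        unfold l4 at hne
        split_ifs at hne with hm
        · refine ⟨(v 3, v 2 - 1), ?_⟩
          funext i
          unfold g2
          fin_cases i <;> simp only [Matrix.cons_val, Fin.isValue, Fin.zero_eta, Fin.mk_one, Fin.reduceFinMk] <;> omega
        · exact absurd rfl hne
  have e : (1 + 9 * (1 / (p : ℝ)) + 9 * (1 / (p : ℝ)) ^ 2 + (1 / (p : ℝ)) ^ 3) / (1 - 1 / (p : ℝ)) ^ 3 =
      (1 + 8 * (1 / (p : ℝ)) + 9 * (1 / (p : ℝ)) ^ 2 + (1 / (p : ℝ)) ^ 3) / (1 - 1 / (p : ℝ)) /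
        (1 - 1 / (p : ℝ)) ^ 2 + 1 / (1 - 1 / (p : ℝ)) ^ (1 + 1) * ((1 / (p : ℝ)) * (1 - 1 / (p : ℝ))⁻¹) := by
    generalize 1 / (p : ℝ) = x at *
    field_simp
    ring
  rw [e]
  refine (p1.add p2).congr_fun fun v => ?_
  split_ifs <;> simp

lemma l4_factor {p : ℕ} (hp : p.Prime) :
    (1 - 1 / (p : ℝ)) ^ (12 : ℕ) * ∑' v : Fin 4 → ℕ, l4 p v =
      (1 - 1 / (p : ℝ)) ^ ((4 : ℝ) ^ 2) * ∑' m : ℕ, lc 4 m ^ 2 * (1 / (p : ℝ)) ^ m := by
  obtain ⟨x0, x2⟩ := inv_pr hp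
  rw [(l4_hasSum hp).tsum_eq, (lc4_hasSum x0.le (by linarith)).tsum_eq]
  rw [show ((4 : ℝ) ^ 2) = ((16 : ℕ) : ℝ) by norm_num, Real.rpow_natCast]
  have hc : 1 - 1 / (p : ℝ) ≠ 0 := by linarith
  generalize 1 / (p : ℝ) = x at *
  field_simp

/-! ### the multiplicative function -/

lemma min_fac {a b p : ℕ} (h : Nat.Coprime a b) : min (a.factorization p) (b.factorization p) = 0 := by
  by_contra hne
  have h1 : a.factorization p ≠ 0 := by omega
  have h2 : b.factorization p ≠ 0 := by omega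
  have hp : p.Prime := by
    by_contra hp
    exact h1 (Nat.factorization_eq_zero_of_not_prime _ hp)
  have d1 := Nat.dvd_of_factorization_pos h1
  have d2 := Nat.dvd_of_factorization_pos h2
  have := Nat.dvd_gcd d1 d2
  rw [h] at this
  exact hp.one_lt.ne' (Nat.dvd_one.mp this)

lemma exists_pr {a b : ℕ} (ha : a ≠ 0) (hb : b ≠ 0) (h : ¬ Nat.Coprime a b) :
    ∃ p : ℕ, p.Prime ∧ p ∣ a ∧ min (a.factorization p) (b.factorization p) ≠ 0 := by
  obtain ⟨p, hp, h1, h2⟩ := Nat.Prime.not_coprime_iff_dvd.mp h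
  refine ⟨p, hp, h1, ?_⟩
  have f1 := hp.factorization_pos_of_dvd ha h1
  have f2 := hp.factorization_pos_of_dvd hb h2
  omega

theorem w4_eq : w4 = mw l4 := by
  funext b
  unfold w4 mw
  by_cases hb : ∀ i, b i ≠ 0
  swap
  · rw [if_neg hb, if_neg (fun h => hb h.2.2)]
  rw [if_pos hb]
  have hN : ∏ i, b i ≠ 0 := Finset.prod_ne_zero_iff.mpr fun i _ => hb i
  have f01 : ∀ p, (b 0 * b 1).factorization p = (b 0).factorization p + (b 1).factorization p := by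
    intro p
    rw [Nat.factorization_mul (hb 0) (hb 1)]
    rfl
  have f13 : ∀ p, (b 1 * b 3).factorization p = (b 1).factorization p + (b 3).factorization p := by
    intro p
    rw [Nat.factorization_mul (hb 1) (hb 3)]
    rfl
  have eN : ∏ i, b i = b 0 * b 1 * b 2 * b 3 := Fin.prod_univ_four _
  have fN : ∀ p, (∏ i, b i).factorization p = (b 0).factorization p + (b 1).factorization p +
      (b 2).factorization p + (b 3).factorization p := by
    intro p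
    rw [eN, Nat.factorization_mul (mul_ne_zero (mul_ne_zero (hb 0) (hb 1)) (hb 2)) (hb 3),
      Nat.factorization_mul (mul_ne_zero (hb 0) (hb 1)) (hb 2), Nat.factorization_mul (hb 0) (hb 1)]
    rfl
  by_cases hc : Nat.Coprime (b 0) (b 3) ∧ Nat.Coprime (b 0 * b 1) (b 2)
  · rw [if_pos ⟨hc.1, hc.2, hb⟩]
    have hl : ∀ p ∈ (∏ i, b i).primeFactors, l4 p (fun i => (b i).factorization p) =
        psl p ((b 0 * b 1).factorization p) * (((b 1 * b 3).factorization p : ℝ) + 1) *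
          (1 / (p : ℝ)) ^ ((∏ i, b i).factorization p) := by
      intro p hp
      unfold l4
      have c1 := min_fac (p := p) hc.1
      have c2 := min_fac (p := p) hc.2
      rw [f01] at c2
      rw [if_pos ⟨c1, c2⟩, f01, f13, fN]
    rw [Finset.prod_congr rfl hl, Finset.prod_mul_distrib, Finset.prod_mul_distrib]
    have s1 : (b 0 * b 1).primeFactors ⊆ (∏ i, b i).primeFactors :=
      Nat.primeFactors_mono (by rw [eN, mul_assoc]; exact dvd_mul_right _ _) hN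
    have s2 : (b 1 * b 3).primeFactors ⊆ (∏ i, b i).primeFactors :=
      Nat.primeFactors_mono (by rw [eN]; exact ⟨b 0 * b 2, by ring⟩) hN
    have t1 : ps (b 0 * b 1) = ∏ p ∈ (∏ i, b i).primeFactors, psl p ((b 0 * b 1).factorization p) := by
      unfold ps
      refine Finsupp.prod_of_support_subset _ ?_ _ (fun p _ => psl_zero p)
      rw [Nat.support_factorization]
      exact s1
    have t2 : d2 (b 1 * b 3) = ∏ p ∈ (∏ i, b i).primeFactors, (((b 1 * b 3).factorization p : ℝ) + 1) := by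
      unfold d2
      rw [Nat.card_divisors (mul_ne_zero (hb 1) (hb 3))]
      push_cast
      refine Finset.prod_subset s2 fun p _ hp => ?_
      have : (b 1 * b 3).factorization p = 0 := by
        rwa [← Finsupp.notMem_support_iff, Nat.support_factorization]
      rw [this]
      norm_num
    have t3 : ∏ p ∈ (∏ i, b i).primeFactors, (1 / (p : ℝ)) ^ ((∏ i, b i).factorization p) =
        1 / ((∏ i, b i : ℕ) : ℝ) := by
      conv_rhs => rw [← Nat.prod_factorization_pow_eq_self hN]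
      unfold Finsupp.prod
      rw [Nat.support_factorization]
      push_cast
      rw [one_div, ← Finset.prod_inv_distrib]
      refine Finset.prod_congr rfl fun p _ => ?_
      rw [one_div, inv_pow]
    rw [← t1, ← t2, t3, eN]
    push_cast
    ring
  · rw [if_neg (fun h => hc ⟨h.1, h.2.1⟩)]
    symm
    have : ∃ p : ℕ, p.Prime ∧ p ∣ b 0 * b 1 ∧ ¬ (min ((b 0).factorization p) ((b 3).factorization p) = 0 ∧
        min ((b 0).factorization p + (b 1).factorization p) ((b 2).factorization p) = 0) := by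
      by_cases h1 : Nat.Coprime (b 0) (b 3)
      · have h2 : ¬ Nat.Coprime (b 0 * b 1) (b 2) := fun h => hc ⟨h1, h⟩
        obtain ⟨p, hp, hd, hm⟩ := exists_pr (mul_ne_zero (hb 0) (hb 1)) (hb 2) h2
        rw [f01] at hm
        exact ⟨p, hp, hd, fun h => hm h.2⟩
      · obtain ⟨p, hp, hd, hm⟩ := exists_pr (hb 0) (hb 3) h1
        exact ⟨p, hp, hd.mul_right _, fun h => hm h.1⟩
    obtain ⟨p, hp, hd, hm⟩ := this
    refine Finset.prod_eq_zero (i := p) ?_ ?_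
    · rw [Nat.mem_primeFactors]
      refine ⟨hp, ?_, hN⟩
      rw [eN, mul_assoc]
      exact hd.mul_right _
    · unfold l4
      rw [if_neg hm]

/-- MI2, from MC -/
theorem w4_lim
    (MEP : ∀ {r : ℕ} (_ : 0 < r) (m : Fin r → ℕ) (lam : ℕ → (Fin r → ℕ) → ℝ) (_ : LW r m lam),
      KH r (mw lam) ∧ ∀ s : Fin r → ℝ, (∀ i, 0 < s i) →
        Tendsto (fun L : ℝ => (∑' b : Fin r → ℕ, mw lam b * ∏ i, (b i : ℝ) ^ (-(s i / L))) /
            L ^ ((∑ i, m i : ℕ) : ℝ)) atTop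
          (𝓝 ((∏' p : Nat.Primes, ((1 - 1 / (p : ℝ)) ^ (∑ i, m i) * ∑' v : Fin r → ℕ, lam p v)) *
            ∏ i, (s i) ^ (-(m i : ℝ))))) :
    KH 4 w4 ∧ ∀ s : Fin 4 → ℝ, (∀ i, 0 < s i) →
    Tendsto (fun L : ℝ => (∑' b : Fin 4 → ℕ, w4 b * ∏ i, (b i : ℝ) ^ (-(s i / L))) / L ^ (12 : ℝ))
      atTop (𝓝 (aF 4 * ∏ i, (s i) ^ (-((![3, 6, 1, 2] : Fin 4 → ℝ) i)))) := by
  obtain ⟨h1, h2⟩ := MEP (by norm_num) ![3, 6, 1, 2] l4 l4_LW
  rw [w4_eq]
  refine ⟨h1, fun s hs => ?_⟩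
  have h3 := h2 s hs
  have e1 : (∑ i, (![3, 6, 1, 2] : Fin 4 → ℕ) i) = 12 := by decide
  rw [e1] at h3
  have e2 : ∏ i, (s i) ^ (-(((![3, 6, 1, 2] : Fin 4 → ℕ) i : ℕ) : ℝ)) =
      ∏ i, (s i) ^ (-((![3, 6, 1, 2] : Fin 4 → ℝ) i)) := by
    rw [Fin.prod_univ_four, Fin.prod_univ_four]
    simp
  have e3 : (∏' p : Nat.Primes, ((1 - 1 / (p : ℝ)) ^ (12 : ℕ) * ∑' v : Fin 4 → ℕ, l4 p v)) = aF 4 := by
    unfold aF
    exact tprod_congr fun p => l4_factor p.2
  rw [e2, e3] at h3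
  have e4 : ((12 : ℕ) : ℝ) = (12 : ℝ) := by norm_num
  rw [e4] at h3
  exact h3

end

end Pool.Agent.H497R2.EM
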