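import Pool.Agent.H223.TM.Defs
import Pool.Agent.H497R2.EM_MI2

/-!
# TM I2: the weight `wC`, instance (5,10,10,1,2,2) (helper497)
-/

set_option autoImplicit false

namespace Pool.Agent.H497R2.TMI2

open Finset Filter Topology MeasureTheory Complex
open Pool.Agent.H306R2 Pool.Agent.H306R2.SM Pool.Agent.H223.EM Pool.Agent.H223.TM
open Pool.Agent.H497R2.EM

noncomputable section

/-! ### psl6 -/

lemma psl6_eq (p a : ℕ) : psl6 p a =
    (1 / (p : ℝ)) ^ 4 + ((a : ℝ) + 4) * (1 - 1 / (p : ℝ)) * (1 / (p : ℝ)) ^ 3 +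
      ((a : ℝ) + 4) * (a + 3) / 2 * (1 - 1 / (p : ℝ)) ^ 2 * (1 / (p : ℝ)) ^ 2 +
      ((a : ℝ) + 4) * (a + 3) * (a + 2) / 6 * (1 - 1 / (p : ℝ)) ^ 3 * (1 / (p : ℝ)) +
      ((a : ℝ) + 4) * (a + 3) * (a + 2) * (a + 1) / 24 * (1 - 1 / (p : ℝ)) ^ 4 := by
  have c1 : (((a + 4).choose 1 : ℕ) : ℝ) = (a : ℝ) + 4 := by
    rw [Nat.choose_one_right]; push_cast; ring
  have c2 : (((a + 4).choose 2 : ℕ) : ℝ) = ((a : ℝ) + 4) * (a + 3) / 2 := by
    rw [Nat.cast_choose_two]; push_cast; ring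
  have c3 : (((a + 4).choose 3 : ℕ) : ℝ) = ((a : ℝ) + 4) * (a + 3) * (a + 2) / 6 := by
    have := ch_three (a + 1)
    rw [show a + 1 + 3 = a + 4 by ring] at this
    rw [this]
    push_cast
    ring
  have c4 := ch_four a
  unfold psl6
  rw [Finset.sum_range_succ, Finset.sum_range_succ, Finset.sum_range_succ,
    Finset.sum_range_succ, Finset.sum_range_succ, Finset.sum_range_zero, c1, c2, c3, c4,
    Nat.choose_zero_right]
  push_cast
  ring

lemma psl6_zero (p : ℕ) : psl6 p 0 = 1 := by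
  rw [psl6_eq]
  push_cast
  ring

lemma psl6_one (p : ℕ) : psl6 p 1 = 5 - 10 * (1 / (p : ℝ)) + 10 * (1 / (p : ℝ)) ^ 2 -
    5 * (1 / (p : ℝ)) ^ 3 + (1 / (p : ℝ)) ^ 4 := by
  rw [psl6_eq]
  push_cast
  ring

lemma psl6_nonneg {p : ℕ} (hp : p.Prime) (a : ℕ) : 0 ≤ psl6 p a := by
  obtain ⟨x0, x2⟩ := inv_pr hp
  have : 0 ≤ 1 - 1 / (p : ℝ) := by linarith
  unfold psl6
  positivity

lemma psl6_le {p : ℕ} (hp : p.Prime) (a : ℕ) : psl6 p a ≤ 80 * ((a : ℝ) + 2) ^ 4 := by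
  obtain ⟨x0, x2⟩ := inv_pr hp
  have hy : 0 ≤ 1 - 1 / (p : ℝ) := by linarith
  have a0 : (0 : ℝ) ≤ a := Nat.cast_nonneg a
  have h : ∀ i ∈ range 5, ((a + 4).choose i : ℝ) * (1 - 1 / (p : ℝ)) ^ i * (1 / (p : ℝ)) ^ (4 - i) ≤
      16 * ((a : ℝ) + 2) ^ 4 := by
    intro i hi
    have hi4 : i ≤ 4 := by have := Finset.mem_range.mp hi; omega
    have h1 : ((a + 4).choose i : ℝ) ≤ ((a : ℝ) + 4) ^ 4 := by
      have e1 : ((a + 4).choose i : ℝ) ≤ (((a + 4 : ℕ) : ℝ)) ^ i := by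
        exact_mod_cast Nat.choose_le_pow (a + 4) i
      refine e1.trans ?_
      push_cast
      exact pow_le_pow_right₀ (by linarith) hi4
    have h2 : (1 - 1 / (p : ℝ)) ^ i ≤ 1 := pow_le_one₀ hy (by linarith)
    have h3 : (1 / (p : ℝ)) ^ (4 - i) ≤ 1 := pow_le_one₀ x0.le (by linarith)
    have h4 : ((a : ℝ) + 4) ^ 4 ≤ 16 * ((a : ℝ) + 2) ^ 4 := by
      have : ((a : ℝ) + 4) ^ 4 ≤ (2 * ((a : ℝ) + 2)) ^ 4 :=
        pow_le_pow_left₀ (by linarith) (by linarith) 4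
      refine this.trans (le_of_eq ?_)
      ring
    calc ((a + 4).choose i : ℝ) * (1 - 1 / (p : ℝ)) ^ i * (1 / (p : ℝ)) ^ (4 - i)
        ≤ ((a : ℝ) + 4) ^ 4 * 1 * 1 := by gcongr
      _ ≤ _ := by rw [mul_one, mul_one]; exact h4
  unfold psl6
  refine (Finset.sum_le_card_nsmul _ _ _ h).trans (le_of_eq ?_)
  rw [card_range, nsmul_eq_mul]
  push_cast
  ring

lemma ch_seven (a : ℕ) : (((a + 7).choose 7 : ℕ) : ℝ) =
    ((a : ℝ) + 1) * (a + 2) * (a + 3) * (a + 4) * (a + 5) * (a + 6) * (a + 7) / 5040 := by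
  have := ch_succ 6 a
  rw [ch_six] at this
  norm_num at this
  rw [this]
  ring

lemma ch_eight (a : ℕ) : (((a + 8).choose 8 : ℕ) : ℝ) =
    ((a : ℝ) + 1) * (a + 2) * (a + 3) * (a + 4) * (a + 5) * (a + 6) * (a + 7) * (a + 8) / 40320 := by
  have := ch_succ 7 a
  rw [ch_seven] at this
  norm_num at this
  rw [this]
  ring

lemma ch_nine (a : ℕ) : (((a + 9).choose 9 : ℕ) : ℝ) =
    ((a : ℝ) + 1) * (a + 2) * (a + 3) * (a + 4) * (a + 5) * (a + 6) * (a + 7) * (a + 8) *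
      (a + 9) / 362880 := by
  have := ch_succ 8 a
  rw [ch_eight] at this
  norm_num at this
  rw [this]
  ring

lemma ch_ten (a : ℕ) : (((a + 10).choose 10 : ℕ) : ℝ) =
    ((a : ℝ) + 1) * (a + 2) * (a + 3) * (a + 4) * (a + 5) * (a + 6) * (a + 7) * (a + 8) *
      (a + 9) * (a + 10) / 3628800 := by
  have := ch_succ 9 a
  rw [ch_nine] at this
  norm_num at this
  rw [this]
  ring

/-- `∑ psl6(a)² x^a` -/
lemma psl6_sq_hasSum {p : ℕ} (hp : p.Prime) :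
    HasSum (fun a : ℕ => psl6 p a ^ 2 * (1 / (p : ℝ)) ^ a)
      ((1 + 24 * (1 / (p : ℝ)) + 100 * (1 / (p : ℝ)) ^ 2 + 100 * (1 / (p : ℝ)) ^ 3 +
        25 * (1 / (p : ℝ)) ^ 4 + (1 / (p : ℝ)) ^ 5) / (1 - 1 / (p : ℝ))) := by
  obtain ⟨x0, x2⟩ := inv_pr hp
  have hx : ‖1 / (p : ℝ)‖ < 1 := by rw [Real.norm_of_nonneg x0.le]; linarith
  have hc : 1 - 1 / (p : ℝ) ≠ 0 := by linarith
  simp only [psl6_eq]
  generalize 1 / (p : ℝ) = x at *
  have h0 := hasSum_choose_mul_geometric_of_norm_lt_one 0 hx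
  have h1 := hasSum_choose_mul_geometric_of_norm_lt_one 1 hx
  have h2 := hasSum_choose_mul_geometric_of_norm_lt_one 2 hx
  have h3 := hasSum_choose_mul_geometric_of_norm_lt_one 3 hx
  have h4 := hasSum_choose_mul_geometric_of_norm_lt_one 4 hx
  have h5 := hasSum_choose_mul_geometric_of_norm_lt_one 5 hx
  have h6 := hasSum_choose_mul_geometric_of_norm_lt_one 6 hx
  have h7 := hasSum_choose_mul_geometric_of_norm_lt_one 7 hx
  have h8 := hasSum_choose_mul_geometric_of_norm_lt_one 8 hx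
  have H := ((((((((h0.mul_left (x ^ 2)).add
    (h1.mul_left ((1 - x) ^ 1 * (x ^ 2 * (1 + x))))).add
    (h2.mul_left ((1 - x) ^ 2 * (x ^ 2 * (1 + x) ^ 2)))).add
    (h3.mul_left ((1 - x) ^ 3 * (x ^ 2 * (1 + x) ^ 3)))).add
    (h4.mul_left ((1 - x) ^ 4 * (1 - 6 * x + 16 * x ^ 2 - 16 * x ^ 3 + 21 * x ^ 4)))).add
    (h5.mul_left ((1 - x) ^ 5 * (-20 + 90 * x - 150 * x ^ 2 + 110 * x ^ 3)))).add
    (h6.mul_left ((1 - x) ^ 6 * (90 - 270 * x + 230 * x ^ 2)))).add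
    (h7.mul_left ((1 - x) ^ 7 * (-140 + 210 * x)))).add
    (h8.mul_left ((1 - x) ^ 8 * 70))
  have hk : ∀ (k : ℕ) (q : ℝ), (1 - x) ^ k * q * (1 / (1 - x) ^ (k + 1)) = q / (1 - x) := by
    intro k q
    rw [pow_succ]
    field_simp
  have e : (1 + 24 * x + 100 * x ^ 2 + 100 * x ^ 3 + 25 * x ^ 4 + x ^ 5) / (1 - x) =
      x ^ 2 * (1 / (1 - x) ^ (0 + 1)) +
      (1 - x) ^ 1 * (x ^ 2 * (1 + x)) * (1 / (1 - x) ^ (1 + 1)) +
      (1 - x) ^ 2 * (x ^ 2 * (1 + x) ^ 2) * (1 / (1 - x) ^ (2 + 1)) +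
      (1 - x) ^ 3 * (x ^ 2 * (1 + x) ^ 3) * (1 / (1 - x) ^ (3 + 1)) +
      (1 - x) ^ 4 * (1 - 6 * x + 16 * x ^ 2 - 16 * x ^ 3 + 21 * x ^ 4) * (1 / (1 - x) ^ (4 + 1)) +
      (1 - x) ^ 5 * (-20 + 90 * x - 150 * x ^ 2 + 110 * x ^ 3) * (1 / (1 - x) ^ (5 + 1)) +
      (1 - x) ^ 6 * (90 - 270 * x + 230 * x ^ 2) * (1 / (1 - x) ^ (6 + 1)) +
      (1 - x) ^ 7 * (-140 + 210 * x) * (1 / (1 - x) ^ (7 + 1)) +
      (1 - x) ^ 8 * 70 * (1 / (1 - x) ^ (8 + 1)) := by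
    rw [hk, hk, hk, hk, hk, hk, hk, hk, zero_add, pow_one]
    ring
  rw [e]
  refine H.congr_fun fun a => ?_
  rw [ch_one, ch_two, ch_three, ch_four, ch_five, ch_six, ch_seven, ch_eight]
  simp only [add_zero, Nat.choose_zero_right, Nat.cast_one]
  generalize (a : ℝ) = t
  generalize x ^ a = z
  have hpoly : (x ^ 4 + (t + 4) * (1 - x) * x ^ 3 + (t + 4) * (t + 3) / 2 * (1 - x) ^ 2 * x ^ 2 +
      (t + 4) * (t + 3) * (t + 2) / 6 * (1 - x) ^ 3 * x +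
      (t + 4) * (t + 3) * (t + 2) * (t + 1) / 24 * (1 - x) ^ 4) ^ 2 =
      x ^ 2 * 1 + (1 - x) ^ 1 * (x ^ 2 * (1 + x)) * (t + 1) +
      (1 - x) ^ 2 * (x ^ 2 * (1 + x) ^ 2) * ((t + 1) * (t + 2) / 2) +
      (1 - x) ^ 3 * (x ^ 2 * (1 + x) ^ 3) * ((t + 1) * (t + 2) * (t + 3) / 6) +
      (1 - x) ^ 4 * (1 - 6 * x + 16 * x ^ 2 - 16 * x ^ 3 + 21 * x ^ 4) *
        ((t + 1) * (t + 2) * (t + 3) * (t + 4) / 24) +
      (1 - x) ^ 5 * (-20 + 90 * x - 150 * x ^ 2 + 110 * x ^ 3) *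
        ((t + 1) * (t + 2) * (t + 3) * (t + 4) * (t + 5) / 120) +
      (1 - x) ^ 6 * (90 - 270 * x + 230 * x ^ 2) *
        ((t + 1) * (t + 2) * (t + 3) * (t + 4) * (t + 5) * (t + 6) / 720) +
      (1 - x) ^ 7 * (-140 + 210 * x) *
        ((t + 1) * (t + 2) * (t + 3) * (t + 4) * (t + 5) * (t + 6) * (t + 7) / 5040) +
      (1 - x) ^ 8 * 70 *
        ((t + 1) * (t + 2) * (t + 3) * (t + 4) * (t + 5) * (t + 6) * (t + 7) * (t + 8) / 40320) := by
    ring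
  rw [hpoly]
  ring

lemma lc_six (m : ℕ) : lc 6 m =
    ((m : ℝ) + 1) * (m + 2) * (m + 3) * (m + 4) * (m + 5) / 120 := by
  unfold lc
  induction m with
  | zero => norm_num
  | succ m ih =>
    rw [Finset.prod_range_succ, ih]
    push_cast
    field_simp
    ring

lemma lc6_hasSum {x : ℝ} (hx0 : 0 ≤ x) (hx1 : x < 1) :
    HasSum (fun m : ℕ => lc 6 m ^ 2 * x ^ m)
      ((1 + 25 * x + 100 * x ^ 2 + 100 * x ^ 3 + 25 * x ^ 4 + x ^ 5) / (1 - x) ^ 11) := by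
  have hx : ‖x‖ < 1 := by rw [Real.norm_of_nonneg hx0]; linarith
  have hc : 1 - x ≠ 0 := by linarith
  have h5 := hasSum_choose_mul_geometric_of_norm_lt_one 5 hx
  have h6 := hasSum_choose_mul_geometric_of_norm_lt_one 6 hx
  have h7 := hasSum_choose_mul_geometric_of_norm_lt_one 7 hx
  have h8 := hasSum_choose_mul_geometric_of_norm_lt_one 8 hx
  have h9 := hasSum_choose_mul_geometric_of_norm_lt_one 9 hx
  have h10 := hasSum_choose_mul_geometric_of_norm_lt_one 10 hx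
  have H := (((((h10.mul_left 252).add (h9.mul_left (-630))).add (h8.mul_left 560)).add
    (h7.mul_left (-210))).add (h6.mul_left 30)).add (h5.mul_left (-1))
  have e : (1 + 25 * x + 100 * x ^ 2 + 100 * x ^ 3 + 25 * x ^ 4 + x ^ 5) / (1 - x) ^ 11 =
      252 * (1 / (1 - x) ^ (10 + 1)) + -630 * (1 / (1 - x) ^ (9 + 1)) +
      560 * (1 / (1 - x) ^ (8 + 1)) + -210 * (1 / (1 - x) ^ (7 + 1)) +
      30 * (1 / (1 - x) ^ (6 + 1)) + -1 * (1 / (1 - x) ^ (5 + 1)) := by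
    field_simp
    ring
  rw [e]
  refine H.congr_fun fun a => ?_
  rw [lc_six, ch_five, ch_six, ch_seven, ch_eight, ch_nine, ch_ten]
  generalize (a : ℝ) = t
  generalize x ^ a = z
  ring

/-- `∑_V C(V+3,3) x^{max(A,V)}` -/
lemma inner6_hasSum {p : ℕ} (hp : p.Prime) (A : ℕ) :
    HasSum (fun V : ℕ => (((V + 3).choose 3 : ℕ) : ℝ) * (1 / (p : ℝ)) ^ (max A V))
      ((1 / (p : ℝ)) ^ A * psl6 p A / (1 - 1 / (p : ℝ)) ^ 4) := by
  obtain ⟨x0, x2⟩ := inv_pr hp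
  have hx : ‖1 / (p : ℝ)‖ < 1 := by rw [Real.norm_of_nonneg x0.le]; linarith
  have hc : 1 - 1 / (p : ℝ) ≠ 0 := by linarith
  rw [psl6_eq]
  generalize 1 / (p : ℝ) = x at *
  have h0 := hasSum_choose_mul_geometric_of_norm_lt_one 0 hx
  have h1 := hasSum_choose_mul_geometric_of_norm_lt_one 1 hx
  have h2 := hasSum_choose_mul_geometric_of_norm_lt_one 2 hx
  have h3 := hasSum_choose_mul_geometric_of_norm_lt_one 3 hx
  have H := (((h3.mul_left (x ^ A)).add (h2.mul_left (x ^ A * A))).add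
    (h1.mul_left (x ^ A * (A * (A + 1) / 2)))).add
    (h0.mul_left (x ^ A * (A * (A + 1) * (A + 2) / 6)))
  rw [← hasSum_nat_add_iff' A]
  have hfin : ∑ i ∈ range A, (((i + 3).choose 3 : ℕ) : ℝ) * x ^ (max A i) =
      x ^ A * (A * (A + 1) * (A + 2) * (A + 3) / 24) := by
    have e1 : ∑ i ∈ range A, (((i + 3).choose 3 : ℕ) : ℝ) * x ^ (max A i) =
        ∑ i ∈ range A, (((i + 3).choose 3 : ℕ) : ℝ) * x ^ A := by
      refine Finset.sum_congr rfl fun i hi => ?_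
      rw [max_eq_left (Finset.mem_range.mp hi).le]
    rw [e1, ← Finset.sum_mul, mul_comm]
    congr 1
    clear e1 H h0 h1 h2 h3
    induction A with
    | zero => simp
    | succ A ih =>
      rw [Finset.sum_range_succ, ih, ch_three]
      push_cast
      ring
  rw [hfin]
  have e : x ^ A * (x ^ 4 + ((A : ℝ) + 4) * (1 - x) * x ^ 3 +
      ((A : ℝ) + 4) * (A + 3) / 2 * (1 - x) ^ 2 * x ^ 2 +
      ((A : ℝ) + 4) * (A + 3) * (A + 2) / 6 * (1 - x) ^ 3 * x +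
      ((A : ℝ) + 4) * (A + 3) * (A + 2) * (A + 1) / 24 * (1 - x) ^ 4) / (1 - x) ^ 4 -
      x ^ A * (A * (A + 1) * (A + 2) * (A + 3) / 24) =
      x ^ A * (1 / (1 - x) ^ (3 + 1)) + x ^ A * A * (1 / (1 - x) ^ (2 + 1)) +
      x ^ A * (A * (A + 1) / 2) * (1 / (1 - x) ^ (1 + 1)) +
      x ^ A * (A * (A + 1) * (A + 2) / 6) * (1 / (1 - x) ^ (0 + 1)) := by
    generalize x ^ A = z
    field_simp
    ring
  rw [e]
  refine H.congr_fun fun j => ?_
  rw [ch_one, ch_two, ch_three, ch_three, max_eq_right (Nat.le_add_left A j)]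
  simp only [add_zero, Nat.choose_zero_right, Nat.cast_one]
  push_cast
  rw [pow_add]
  ring

/-! ### the local weights -/

/-- local weights of `wC` -/
def lC (p : ℕ) (v : Fin 6 → ℕ) : ℝ :=
  if min (v 0 + v 2) (v 4) = 0 ∧ min (v 0) (v 5) = 0 ∧ min (v 0 + v 1 + v 2) (v 3) = 0 then
    psl6 p (v 0 + v 1 + v 2) * (((v 1 + v 4 : ℕ) : ℝ) + 1) * (((v 2 + v 5 : ℕ) : ℝ) + 1) *
      (1 / (p : ℝ)) ^ (v 0 + v 1 + v 2 + v 3 + v 4 + v 5) else 0

lemma lC_nonneg {p : ℕ} (hp : p.Prime) (v : Fin 6 → ℕ) : 0 ≤ lC p v := by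
  obtain ⟨x0, x2⟩ := inv_pr hp
  have := psl6_nonneg hp (v 0 + v 1 + v 2)
  unfold lC
  split_ifs
  · positivity
  · exact le_rfl

lemma lC_le {p : ℕ} (hp : p.Prime) (v : Fin 6 → ℕ) :
    lC p v ≤ (80 * ∏ i, ((v i : ℝ) + 2) ^ 5) * (1 / (p : ℝ)) ^ (∑ i, v i) := by
  obtain ⟨x0, x2⟩ := inv_pr hp
  unfold lC
  split_ifs
  · rw [Fin.sum_univ_six]
    refine mul_le_mul_of_nonneg_right ?_ (by positivity)
    rw [Fin.prod_univ_six]
    have h1 := psl6_le hp (v 0 + v 1 + v 2)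
    have a0 : (0 : ℝ) ≤ v 0 := Nat.cast_nonneg _
    have a1 : (0 : ℝ) ≤ v 1 := Nat.cast_nonneg _
    have a2 : (0 : ℝ) ≤ v 2 := Nat.cast_nonneg _
    have a3 : (0 : ℝ) ≤ v 3 := Nat.cast_nonneg _
    have a4 : (0 : ℝ) ≤ v 4 := Nat.cast_nonneg _
    have a5 : (0 : ℝ) ≤ v 5 := Nat.cast_nonneg _
    push_cast at h1 ⊢
    generalize (v 0 : ℝ) = t0 at *
    generalize (v 1 : ℝ) = t1 at *
    generalize (v 2 : ℝ) = t2 at *
    generalize (v 3 : ℝ) = t3 at *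
    generalize (v 4 : ℝ) = t4 at *
    generalize (v 5 : ℝ) = t5 at *
    have h2 : t0 + t1 + t2 + 2 ≤ (t0 + 2) * (t1 + 2) * (t2 + 2) := by
      have e1 := mul_nonneg a0 a1
      have e2 := mul_nonneg a0 a2
      have e3 := mul_nonneg a1 a2
      have e4 := mul_nonneg e1 a2
      nlinarith
    have h3 : t1 + t4 + 1 ≤ (t1 + 2) * (t4 + 2) := by nlinarith [mul_nonneg a1 a4]
    have h4 : t2 + t5 + 1 ≤ (t2 + 2) * (t5 + 2) := by nlinarith [mul_nonneg a2 a5]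
    have h5 : psl6 p (v 0 + v 1 + v 2) ≤ 80 * ((t0 + 2) * (t1 + 2) * (t2 + 2)) ^ 4 := by
      refine h1.trans (mul_le_mul_of_nonneg_left ?_ (by norm_num))
      exact pow_le_pow_left₀ (by positivity) h2 4
    have c0 : 1 ≤ t0 + 2 := by linarith
    have c3 : 1 ≤ (t3 + 2) ^ 5 := one_le_pow₀ (by linarith)
    have c4 : t4 + 2 ≤ (t4 + 2) ^ 5 := le_self_pow₀ (by linarith) (by norm_num)
    have c5 : t5 + 2 ≤ (t5 + 2) ^ 5 := le_self_pow₀ (by linarith) (by norm_num)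
    have c00 : (t0 + 2) ^ 4 ≤ (t0 + 2) ^ 5 := pow_le_pow_right₀ c0 (by norm_num)
    calc psl6 p (v 0 + v 1 + v 2) * (t1 + t4 + 1) * (t2 + t5 + 1)
        ≤ (80 * ((t0 + 2) * (t1 + 2) * (t2 + 2)) ^ 4) * ((t1 + 2) * (t4 + 2)) *
          ((t2 + 2) * (t5 + 2)) := by gcongr
      _ = 80 * ((t0 + 2) ^ 4 * (t1 + 2) ^ 5 * (t2 + 2) ^ 5 * 1 * (t4 + 2) * (t5 + 2)) := by ring
      _ ≤ 80 * ((t0 + 2) ^ 5 * (t1 + 2) ^ 5 * (t2 + 2) ^ 5 * (t3 + 2) ^ 5 * (t4 + 2) ^ 5 *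
          (t5 + 2) ^ 5) := by gcongr
  · positivity

lemma PC_summable : Summable (fun v : Fin 6 → ℕ =>
    (80 * ∏ i, ((v i : ℝ) + 2) ^ 5) * (1 / 2 : ℝ) ^ (∑ i, v i)) := by
  have h := summable_pi (r := 6) (fun _ n => ((n : ℝ) + 2) ^ 5 * (1 / 2 : ℝ) ^ n)
    (fun _ n => by positivity) (fun _ => pow_geo_summable 5)
  refine (h.mul_left 80).congr fun v => ?_
  rw [Finset.prod_mul_distrib, Finset.prod_pow_eq_pow_sum, mul_assoc]

lemma lC_s0 (p : ℕ) : lC p (Pi.single 0 1) = psl6 p 1 * (1 / (p : ℝ)) := by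
  unfold lC
  simp [Pi.single_apply]

lemma lC_s1 (p : ℕ) : lC p (Pi.single 1 1) = 2 * psl6 p 1 * (1 / (p : ℝ)) := by
  unfold lC
  simp [Pi.single_apply]
  left
  ring

lemma lC_s2 (p : ℕ) : lC p (Pi.single 2 1) = 2 * psl6 p 1 * (1 / (p : ℝ)) := by
  unfold lC
  simp [Pi.single_apply]
  left
  ring

lemma lC_s3 (p : ℕ) : lC p (Pi.single 3 1) = (1 / (p : ℝ)) := by
  unfold lC
  simp [Pi.single_apply, psl6_zero]

lemma lC_s4 (p : ℕ) : lC p (Pi.single 4 1) = 2 * (1 / (p : ℝ)) := by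
  unfold lC
  simp [Pi.single_apply, psl6_zero]
  left
  ring

lemma lC_s5 (p : ℕ) : lC p (Pi.single 5 1) = 2 * (1 / (p : ℝ)) := by
  unfold lC
  simp [Pi.single_apply, psl6_zero]
  left
  ring

lemma psl6_one_bd {p : ℕ} (hp : p.Prime) :
    -10 * (1 / (p : ℝ)) ≤ psl6 p 1 - 5 ∧ psl6 p 1 - 5 ≤ 10 * (1 / (p : ℝ)) := by
  obtain ⟨x0, x2⟩ := inv_pr hp
  rw [psl6_one]
  generalize 1 / (p : ℝ) = x at *
  have h2 : 0 ≤ x ^ 2 := by positivity
  have h3 : 0 ≤ x ^ 3 := by positivity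
  have h4 : 0 ≤ x ^ 4 := by positivity
  have h5 : x ^ 2 ≤ x / 2 := by nlinarith
  have h6 : x ^ 3 ≤ x ^ 2 / 2 := by nlinarith
  have h7 : x ^ 4 ≤ x ^ 3 / 2 := by nlinarith
  constructor <;> linarith

theorem lC_LW : LW 6 ![5, 10, 10, 1, 2, 2] lC := by
  obtain ⟨h1, h2⟩ := LW_crit (fun v : Fin 6 → ℕ => 80 * ∏ i, ((v i : ℝ) + 2) ^ 5) PC_summable lC
    (fun p hp v => lC_nonneg hp v) (fun p hp v => lC_le hp v)
  refine ⟨fun p hp v => lC_nonneg hp v, fun p hp => ?_, h1, ⟨20, fun p hp i => ?_⟩, h2⟩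
  · unfold lC
    simp [psl6_zero]
  · obtain ⟨x0, x2⟩ := inv_pr hp
    obtain ⟨q1, q2⟩ := psl6_one_bd hp
    have e : (20 : ℝ) / (p : ℝ) ^ 2 = 20 * (1 / (p : ℝ)) ^ 2 := by ring
    have e' : ∀ c : ℝ, c / (p : ℝ) = c * (1 / (p : ℝ)) := fun c => by ring
    rw [e, e']
    have k1 : ∀ c : ℝ, 0 ≤ c → c ≤ 2 → |c * psl6 p 1 * (1 / (p : ℝ)) - (c * 5) * (1 / (p : ℝ))| ≤
        20 * (1 / (p : ℝ)) ^ 2 := by
      intro c hc0 hc2
      have e2 : c * psl6 p 1 * (1 / (p : ℝ)) - (c * 5) * (1 / (p : ℝ)) =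
          c * ((psl6 p 1 - 5) * (1 / (p : ℝ))) := by ring
      rw [e2]
      generalize 1 / (p : ℝ) = x at *
      have l1 : (psl6 p 1 - 5) * x ≤ 10 * x * x := mul_le_mul_of_nonneg_right q2 x0.le
      have l2 : -10 * x * x ≤ (psl6 p 1 - 5) * x := mul_le_mul_of_nonneg_right q1 x0.le
      have l3 : |(psl6 p 1 - 5) * x| ≤ 10 * x * x := by
        rw [abs_le]
        constructor <;> linarith
      rw [abs_mul, abs_of_nonneg hc0]
      calc c * |(psl6 p 1 - 5) * x| ≤ 2 * (10 * x * x) := by gcongr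
        _ = 20 * x ^ 2 := by ring
    have k2 : ∀ c : ℝ, |c * (1 / (p : ℝ)) - c * (1 / (p : ℝ))| ≤ 20 * (1 / (p : ℝ)) ^ 2 := by
      intro c
      rw [sub_self, abs_zero]
      positivity
    fin_cases i
    · have := k1 1 (by norm_num) (by norm_num)
      rw [one_mul, one_mul] at this
      show |lC p (Pi.single 0 1) - ((5 : ℕ) : ℝ) * (1 / (p : ℝ))| ≤ _
      rw [lC_s0]
      push_cast
      exact this
    · have := k1 2 (by norm_num) (by norm_num)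
      show |lC p (Pi.single 1 1) - ((10 : ℕ) : ℝ) * (1 / (p : ℝ))| ≤ _
      rw [lC_s1]
      push_cast
      rw [show (2 : ℝ) * 5 = 10 by norm_num] at this
      exact this
    · have := k1 2 (by norm_num) (by norm_num)
      show |lC p (Pi.single 2 1) - ((10 : ℕ) : ℝ) * (1 / (p : ℝ))| ≤ _
      rw [lC_s2]
      push_cast
      rw [show (2 : ℝ) * 5 = 10 by norm_num] at this
      exact this
    · have := k2 1
      rw [one_mul] at this
      show |lC p (Pi.single 3 1) - ((1 : ℕ) : ℝ) * (1 / (p : ℝ))| ≤ _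
      rw [lC_s3]
      push_cast
      rw [one_mul]
      exact this
    · have := k2 2
      show |lC p (Pi.single 4 1) - ((2 : ℕ) : ℝ) * (1 / (p : ℝ))| ≤ _
      rw [lC_s4]
      push_cast
      exact this
    · have := k2 2
      show |lC p (Pi.single 5 1) - ((2 : ℕ) : ℝ) * (1 / (p : ℝ))| ≤ _
      rw [lC_s5]
      push_cast
      exact this

/-! ### the local sum -/

lemma hasSum_prod_nn' {α β : Type} (f : α × β → ℝ) (h0 : ∀ q, 0 ≤ f q) (g : α → ℝ)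
    (hg : ∀ a, HasSum (fun b => f (a, b)) (g a)) (S : ℝ) (hS : HasSum g S) : HasSum f S := by
  have hs : Summable f := by
    rw [summable_prod_of_nonneg h0]
    refine ⟨fun a => (hg a).summable, ?_⟩
    refine hS.summable.congr fun a => ?_
    exact (hg a).tsum_eq.symm
  have e := hs.tsum_prod' (fun a => (hg a).summable)
  have e2 : ∑' a, ∑' b, f (a, b) = S := by
    rw [← hS.tsum_eq]
    exact tsum_congr fun a => (hg a).tsum_eq
  rw [e2] at e
  rw [← e]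
  exact hs.hasSum

/-- sums over pairs through the antidiagonals -/
lemma hasSum_anti (F : ℕ → ℝ) (h0 : ∀ n, 0 ≤ F n) (S : ℝ)
    (hS : HasSum (fun V : ℕ => (((V + 3).choose 3 : ℕ) : ℝ) * F V) S) :
    HasSum (fun q : ℕ × ℕ => (((q.1 : ℝ) + 1) * ((q.2 : ℝ) + 1)) * F (q.1 + q.2)) S := by
  rw [← (Finset.HasAntidiagonal.sigmaAntidiagonalEquivProd (A := ℕ)).hasSum_iff]
  have hfib : ∀ n : ℕ, ∑ q : Finset.HasAntidiagonal.antidiagonal n, ((((q.1.1 : ℕ) : ℝ) + 1) *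
      (((q.1.2 : ℕ) : ℝ) + 1)) * F (q.1.1 + q.1.2) = (((n + 3).choose 3 : ℕ) : ℝ) * F n := by
    intro n
    have e1 : ∑ q : Finset.HasAntidiagonal.antidiagonal n, ((((q.1.1 : ℕ) : ℝ) + 1) *
        (((q.1.2 : ℕ) : ℝ) + 1)) * F (q.1.1 + q.1.2) =
        ∑ q ∈ Finset.HasAntidiagonal.antidiagonal n, (((q.1 : ℝ) + 1) * ((q.2 : ℝ) + 1)) * F (q.1 + q.2) :=
      Finset.sum_coe_sort (Finset.HasAntidiagonal.antidiagonal n)
        (fun q : ℕ × ℕ => (((q.1 : ℝ) + 1) * ((q.2 : ℝ) + 1)) * F (q.1 + q.2))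
    rw [e1]
    have e2 : ∑ q ∈ Finset.HasAntidiagonal.antidiagonal n, (((q.1 : ℝ) + 1) * ((q.2 : ℝ) + 1)) * F (q.1 + q.2) =
        (∑ q ∈ Finset.HasAntidiagonal.antidiagonal n, ((q.1 : ℝ) + 1) * ((q.2 : ℝ) + 1)) * F n := by
      rw [Finset.sum_mul]
      refine Finset.sum_congr rfl fun q hq => ?_
      rw [Finset.HasAntidiagonal.mem_antidiagonal.mp hq]
    rw [e2]
    congr 1
    rw [ch_three, Finset.Nat.sum_antidiagonal_eq_sum_range_succ_mk]
    have e3 : ∀ m : ℕ, ∑ k ∈ range m, ((k : ℝ) + 1) * ((n : ℝ) - k + 1) =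
        (m : ℝ) * (m + 1) / 2 * ((n : ℝ) + 1) - (m : ℝ) * (m + 1) * (m - 1) / 3 := by
      intro m
      induction m with
      | zero => simp
      | succ m ih =>
        rw [Finset.sum_range_succ, ih]
        push_cast
        ring
    have e4 : ∑ k ∈ range n.succ, (((k, n - k).1 : ℝ) + 1) * (((k, n - k).2 : ℝ) + 1) =
        ∑ k ∈ range (n + 1), ((k : ℝ) + 1) * ((n : ℝ) - k + 1) := by
      refine Finset.sum_congr rfl fun k hk => ?_
      have hk' : k ≤ n := by have := Finset.mem_range.mp hk; omega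
      show ((k : ℝ) + 1) * (((n - k : ℕ) : ℝ) + 1) = _
      rw [Nat.cast_sub hk']
    rw [e4, e3]
    push_cast
    ring
  have hs : Summable ((fun q : ℕ × ℕ => (((q.1 : ℝ) + 1) * ((q.2 : ℝ) + 1)) * F (q.1 + q.2)) ∘
      (Finset.HasAntidiagonal.sigmaAntidiagonalEquivProd (A := ℕ))) := by
    have h00 : ∀ q, 0 ≤ ((fun q : ℕ × ℕ => (((q.1 : ℝ) + 1) * ((q.2 : ℝ) + 1)) * F (q.1 + q.2)) ∘
      (Finset.HasAntidiagonal.sigmaAntidiagonalEquivProd (A := ℕ))) q := by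
      intro q
      have := h0 ((Finset.HasAntidiagonal.sigmaAntidiagonalEquivProd (A := ℕ) q).1 +
        (Finset.HasAntidiagonal.sigmaAntidiagonalEquivProd (A := ℕ) q).2)
      simp only [Function.comp]
      positivity
    refine (summable_sigma_of_nonneg h00).mpr ⟨fun n => (hasSum_fintype _).summable, ?_⟩
    refine hS.summable.congr fun n => ?_
    rw [tsum_fintype]
    exact (hfib n).symm
  refine HasSum.sigma_of_hasSum hS (fun n => ?_) hs
  have := hasSum_fintype (fun q : Finset.HasAntidiagonal.antidiagonal n =>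
    ((((q.1.1 : ℕ) : ℝ) + 1) * (((q.1.2 : ℕ) : ℝ) + 1)) * F (q.1.1 + q.1.2))
  rw [hfib n] at this
  exact this

/-- parametrisation of the terms with `v 3 = 0` -/
def k1 (q : ℕ × ℕ × ℕ) : Fin 6 → ℕ :=
  ![q.1 - min q.1 q.2.1 - min (q.1 - min q.1 q.2.1) q.2.2, min q.1 q.2.1,
    min (q.1 - min q.1 q.2.1) q.2.2, 0, q.2.1 - min q.1 q.2.1,
    q.2.2 - min (q.1 - min q.1 q.2.1) q.2.2]

/-- parametrisation of the terms with `v 3 ≠ 0` -/
def k2 (q : ℕ × ℕ × ℕ) : Fin 6 → ℕ := ![0, 0, 0, q.1 + 1, q.2.1, q.2.2]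

lemma k1_inj : Function.Injective k1 := by
  rintro ⟨a, b, c⟩ ⟨a', b', c'⟩ h
  have h0 := congrFun h 0
  have h1 := congrFun h 1
  have h2 := congrFun h 2
  have h4 := congrFun h 4
  have h5 := congrFun h 5
  simp only [k1, Matrix.cons_val] at h0 h1 h2 h4 h5
  have e1 : a = a' := by omega
  have e2 : b = b' := by omega
  have e3 : c = c' := by omega
  rw [e1, e2, e3]

lemma k2_inj : Function.Injective k2 := by
  rintro ⟨a, b, c⟩ ⟨a', b', c'⟩ h
  have h3 := congrFun h 3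
  have h4 := congrFun h 4
  have h5 := congrFun h 5
  simp only [k2, Matrix.cons_val] at h3 h4 h5
  have e1 : a = a' := by omega
  have e2 : b = b' := by omega
  have e3 : c = c' := by omega
  rw [e1, e2, e3]

lemma lC_k1 (p : ℕ) (A V W : ℕ) : lC p (k1 (A, V, W)) =
    psl6 p A * ((((V : ℝ) + 1) * ((W : ℝ) + 1)) * (1 / (p : ℝ)) ^ (max A (V + W))) := by
  have q0 : k1 (A, V, W) 0 = A - min A V - min (A - min A V) W := rfl
  have q1 : k1 (A, V, W) 1 = min A V := rfl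
  have q2 : k1 (A, V, W) 2 = min (A - min A V) W := rfl
  have q3 : k1 (A, V, W) 3 = 0 := rfl
  have q4 : k1 (A, V, W) 4 = V - min A V := rfl
  have q5 : k1 (A, V, W) 5 = W - min (A - min A V) W := rfl
  have e1 : k1 (A, V, W) 0 + k1 (A, V, W) 1 + k1 (A, V, W) 2 = A := by omega
  have e2 : k1 (A, V, W) 1 + k1 (A, V, W) 4 = V := by omega
  have e4 : k1 (A, V, W) 2 + k1 (A, V, W) 5 = W := by omega
  have e3 : k1 (A, V, W) 0 + k1 (A, V, W) 1 + k1 (A, V, W) 2 + k1 (A, V, W) 3 +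
      k1 (A, V, W) 4 + k1 (A, V, W) 5 = max A (V + W) := by omega
  unfold lC
  rw [if_pos ⟨by omega, by omega, by omega⟩, e3, e1, e2, e4]
  ring

lemma lC_k2 (p : ℕ) (c V W : ℕ) : lC p (k2 (c, V, W)) =
    ((1 / (p : ℝ)) * (1 / (p : ℝ)) ^ c) *
      ((((V : ℝ) + 1) * ((W : ℝ) + 1)) * (1 / (p : ℝ)) ^ (V + W)) := by
  have q0 : k2 (c, V, W) 0 = 0 := rfl
  have q1 : k2 (c, V, W) 1 = 0 := rfl
  have q2 : k2 (c, V, W) 2 = 0 := rfl
  have q3 : k2 (c, V, W) 3 = c + 1 := rfl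
  have q4 : k2 (c, V, W) 4 = V := rfl
  have q5 : k2 (c, V, W) 5 = W := rfl
  unfold lC
  rw [if_pos ⟨by omega, by omega, by omega⟩, q0, q1, q2, q3, q4, q5]
  simp only [zero_add, add_zero, psl6_zero]
  rw [pow_add, pow_add, pow_add, pow_add]
  ring

lemma lC_hasSum {p : ℕ} (hp : p.Prime) : HasSum (lC p)
    ((1 + 25 * (1 / (p : ℝ)) + 100 * (1 / (p : ℝ)) ^ 2 + 100 * (1 / (p : ℝ)) ^ 3 +
      25 * (1 / (p : ℝ)) ^ 4 + (1 / (p : ℝ)) ^ 5) / (1 - 1 / (p : ℝ)) ^ 5) := by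
  obtain ⟨x0, x2⟩ := inv_pr hp
  have hsq := psl6_sq_hasSum hp
  have hin := inner6_hasSum hp
  have hx : ‖1 / (p : ℝ)‖ < 1 := by rw [Real.norm_of_nonneg x0.le]; linarith
  have hc : 1 - 1 / (p : ℝ) ≠ 0 := by linarith
  -- first part
  have p1 : HasSum (fun v : Fin 6 → ℕ => if v 3 = 0 then lC p v else 0)
      ((1 + 24 * (1 / (p : ℝ)) + 100 * (1 / (p : ℝ)) ^ 2 + 100 * (1 / (p : ℝ)) ^ 3 +
        25 * (1 / (p : ℝ)) ^ 4 + (1 / (p : ℝ)) ^ 5) / (1 - 1 / (p : ℝ)) /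
        (1 - 1 / (p : ℝ)) ^ 4) := by
    rw [← k1_inj.hasSum_iff]
    · refine hasSum_prod_nn' _ (fun q => ?_)
        (fun A => psl6 p A ^ 2 * (1 / (p : ℝ)) ^ A / (1 - 1 / (p : ℝ)) ^ 4)
        (fun A => ?_) _ (hsq.div_const _)
      · simp only [Function.comp]
        split_ifs
        · exact lC_nonneg hp _
        · exact le_rfl
      · have h := (hasSum_anti (fun V => (1 / (p : ℝ)) ^ (max A V)) (fun V => by positivity) _
          (hin A)).mul_left (psl6 p A)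
        have e : psl6 p A ^ 2 * (1 / (p : ℝ)) ^ A / (1 - 1 / (p : ℝ)) ^ 4 =
            psl6 p A * ((1 / (p : ℝ)) ^ A * psl6 p A / (1 - 1 / (p : ℝ)) ^ 4) := by ring
        rw [e]
        refine h.congr_fun fun V => ?_
        obtain ⟨V, W⟩ := V
        simp only [Function.comp]
        rw [if_pos (by simp [k1]), lC_k1]
    · intro v hv
      by_contra hne
      split_ifs at hne with h2
      · apply hv
        unfold lC at hne
        split_ifs at hne with hm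
        · obtain ⟨m1, m2, m3⟩ := hm
          refine ⟨(v 0 + v 1 + v 2, v 1 + v 4, v 2 + v 5), ?_⟩
          funext i
          unfold k1
          fin_cases i <;> simp only [Matrix.cons_val, Fin.isValue, Fin.zero_eta, Fin.mk_one, Fin.reduceFinMk] <;> omega
        · exact absurd rfl hne
      · exact absurd rfl hne
  have p2 : HasSum (fun v : Fin 6 → ℕ => if v 3 = 0 then 0 else lC p v)
      (((1 / (p : ℝ)) * (1 - 1 / (p : ℝ))⁻¹) * (1 / (1 - 1 / (p : ℝ)) ^ (3 + 1))) := by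
    rw [← k2_inj.hasSum_iff]
    · have hV := hasSum_anti (fun V => (1 / (p : ℝ)) ^ V) (fun V => by positivity) _
        (hasSum_choose_mul_geometric_of_norm_lt_one 3 hx)
      have hcc := (hasSum_geometric_of_norm_lt_one hx).mul_left (1 / (p : ℝ))
      refine hasSum_prod_nn' _ (fun q => ?_)
        (fun c => ((1 / (p : ℝ)) * (1 / (p : ℝ)) ^ c) * (1 / (1 - 1 / (p : ℝ)) ^ (3 + 1)))
        (fun c => ?_) _ (hcc.mul_right _)
      · simp only [Function.comp]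
        split_ifs
        · exact le_rfl
        · exact lC_nonneg hp _
      · refine (hV.mul_left ((1 / (p : ℝ)) * (1 / (p : ℝ)) ^ c)).congr_fun fun V => ?_
        obtain ⟨V, W⟩ := V
        simp only [Function.comp]
        rw [if_neg (by simp [k2]), lC_k2]
    · intro v hv
      by_contra hne
      split_ifs at hne with h2
      · exact absurd rfl hne
      · apply hv
        unfold lC at hne
        split_ifs at hne with hm
        · obtain ⟨m1, m2, m3⟩ := hm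
          refine ⟨(v 3 - 1, v 4, v 5), ?_⟩
          funext i
          unfold k2
          fin_cases i <;> simp only [Matrix.cons_val, Fin.isValue, Fin.zero_eta, Fin.mk_one, Fin.reduceFinMk] <;> omega
        · exact absurd rfl hne
  have e : (1 + 25 * (1 / (p : ℝ)) + 100 * (1 / (p : ℝ)) ^ 2 + 100 * (1 / (p : ℝ)) ^ 3 +
      25 * (1 / (p : ℝ)) ^ 4 + (1 / (p : ℝ)) ^ 5) / (1 - 1 / (p : ℝ)) ^ 5 =
      (1 + 24 * (1 / (p : ℝ)) + 100 * (1 / (p : ℝ)) ^ 2 + 100 * (1 / (p : ℝ)) ^ 3 +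
        25 * (1 / (p : ℝ)) ^ 4 + (1 / (p : ℝ)) ^ 5) / (1 - 1 / (p : ℝ)) /
        (1 - 1 / (p : ℝ)) ^ 4 +
      ((1 / (p : ℝ)) * (1 - 1 / (p : ℝ))⁻¹) * (1 / (1 - 1 / (p : ℝ)) ^ (3 + 1)) := by
    generalize 1 / (p : ℝ) = x at *
    field_simp
    ring
  rw [e]
  refine (p1.add p2).congr_fun fun v => ?_
  split_ifs <;> simp

lemma lC_factor {p : ℕ} (hp : p.Prime) :
    (1 - 1 / (p : ℝ)) ^ (30 : ℕ) * ∑' v : Fin 6 → ℕ, lC p v =
      (1 - 1 / (p : ℝ)) ^ ((6 : ℝ) ^ 2) * ∑' m : ℕ, lc 6 m ^ 2 * (1 / (p : ℝ)) ^ m := by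
  obtain ⟨x0, x2⟩ := inv_pr hp
  rw [(lC_hasSum hp).tsum_eq, (lc6_hasSum x0.le (by linarith)).tsum_eq]
  rw [show ((6 : ℝ) ^ 2) = ((36 : ℕ) : ℝ) by norm_num, Real.rpow_natCast]
  have hc : 1 - 1 / (p : ℝ) ≠ 0 := by linarith
  generalize 1 / (p : ℝ) = x at *
  field_simp

/-! ### the multiplicative function -/

lemma fac_mul {a b : ℕ} (ha : a ≠ 0) (hb : b ≠ 0) (p : ℕ) :
    (a * b).factorization p = a.factorization p + b.factorization p := by
  rw [Nat.factorization_mul ha hb]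
  rfl

lemma d2_prod {a N : ℕ} (ha : a ≠ 0) (hN : N ≠ 0) (hd : a ∣ N) :
    d2 a = ∏ p ∈ N.primeFactors, ((a.factorization p : ℝ) + 1) := by
  unfold d2
  rw [Nat.card_divisors ha]
  push_cast
  refine Finset.prod_subset (Nat.primeFactors_mono hd hN) fun p _ hp => ?_
  have : a.factorization p = 0 := by
    rwa [← Finsupp.notMem_support_iff, Nat.support_factorization]
  rw [this]
  norm_num

theorem wC_eq : wC = mw lC := by
  funext b
  unfold wC mw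
  by_cases hb : ∀ i, b i ≠ 0
  swap
  · rw [if_neg hb, if_neg (fun h => hb h.2.2.2)]
  rw [if_pos hb]
  have hN : ∏ i, b i ≠ 0 := Finset.prod_ne_zero_iff.mpr fun i _ => hb i
  have b02 := mul_ne_zero (hb 0) (hb 2)
  have b01 := mul_ne_zero (hb 0) (hb 1)
  have b012 := mul_ne_zero b01 (hb 2)
  have b0123 := mul_ne_zero b012 (hb 3)
  have b01234 := mul_ne_zero b0123 (hb 4)
  have f02 : ∀ p, (b 0 * b 2).factorization p = (b 0).factorization p + (b 2).factorization p :=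
    fac_mul (hb 0) (hb 2)
  have f012 : ∀ p, (b 0 * b 1 * b 2).factorization p = (b 0).factorization p +
      (b 1).factorization p + (b 2).factorization p := by
    intro p
    rw [fac_mul b01 (hb 2), fac_mul (hb 0) (hb 1)]
  have f14 : ∀ p, (b 1 * b 4).factorization p = (b 1).factorization p + (b 4).factorization p :=
    fac_mul (hb 1) (hb 4)
  have f25 : ∀ p, (b 2 * b 5).factorization p = (b 2).factorization p + (b 5).factorization p :=
    fac_mul (hb 2) (hb 5)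
  have eN : ∏ i, b i = b 0 * b 1 * b 2 * b 3 * b 4 * b 5 := Fin.prod_univ_six _
  have fN : ∀ p, (∏ i, b i).factorization p = (b 0).factorization p + (b 1).factorization p +
      (b 2).factorization p + (b 3).factorization p + (b 4).factorization p +
      (b 5).factorization p := by
    intro p
    rw [eN, fac_mul b01234 (hb 5), fac_mul b0123 (hb 4), fac_mul b012 (hb 3), f012]
  by_cases hc : Nat.Coprime (b 0 * b 2) (b 4) ∧ Nat.Coprime (b 0) (b 5) ∧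
      Nat.Coprime (b 0 * b 1 * b 2) (b 3)
  · rw [if_pos ⟨hc.1, hc.2.1, hc.2.2, hb⟩]
    have hl : ∀ p ∈ (∏ i, b i).primeFactors, lC p (fun i => (b i).factorization p) =
        psl6 p ((b 0 * b 1 * b 2).factorization p) * (((b 1 * b 4).factorization p : ℝ) + 1) *
          (((b 2 * b 5).factorization p : ℝ) + 1) *
          (1 / (p : ℝ)) ^ ((∏ i, b i).factorization p) := by
      intro p hp
      unfold lC
      have c1 := min_fac (p := p) hc.1
      have c2 := min_fac (p := p) hc.2.1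
      have c3 := min_fac (p := p) hc.2.2
      rw [f02] at c1
      rw [f012] at c3
      rw [if_pos ⟨c1, c2, c3⟩, f012, f14, f25, fN]
    rw [Finset.prod_congr rfl hl, Finset.prod_mul_distrib, Finset.prod_mul_distrib,
      Finset.prod_mul_distrib]
    have s1 : (b 0 * b 1 * b 2).primeFactors ⊆ (∏ i, b i).primeFactors :=
      Nat.primeFactors_mono (by rw [eN]; exact ⟨b 3 * b 4 * b 5, by ring⟩) hN
    have t1 : ps6 (b 0 * b 1 * b 2) =
        ∏ p ∈ (∏ i, b i).primeFactors, psl6 p ((b 0 * b 1 * b 2).factorization p) := by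
      unfold ps6
      refine Finsupp.prod_of_support_subset _ ?_ _ (fun p _ => psl6_zero p)
      rw [Nat.support_factorization]
      exact s1
    have t2 := d2_prod (mul_ne_zero (hb 1) (hb 4)) hN
      (by rw [eN]; exact ⟨b 0 * b 2 * b 3 * b 5, by ring⟩)
    have t2' := d2_prod (mul_ne_zero (hb 2) (hb 5)) hN
      (by rw [eN]; exact ⟨b 0 * b 1 * b 3 * b 4, by ring⟩)
    have t3 : ∏ p ∈ (∏ i, b i).primeFactors, (1 / (p : ℝ)) ^ ((∏ i, b i).factorization p) =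
        1 / ((∏ i, b i : ℕ) : ℝ) := by
      conv_rhs => rw [← Nat.prod_factorization_pow_eq_self hN]
      unfold Finsupp.prod
      rw [Nat.support_factorization]
      push_cast
      rw [one_div, ← Finset.prod_inv_distrib]
      refine Finset.prod_congr rfl fun p _ => ?_
      rw [one_div, inv_pow]
    rw [← t1, ← t2, ← t2', t3, Nat.cast_prod]
    ring
  · rw [if_neg (fun h => hc ⟨h.1, h.2.1, h.2.2.1⟩)]
    symm
    have : ∃ p : ℕ, p.Prime ∧ p ∣ ∏ i, b i ∧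
        ¬ (min ((b 0).factorization p + (b 2).factorization p) ((b 4).factorization p) = 0 ∧
        min ((b 0).factorization p) ((b 5).factorization p) = 0 ∧
        min ((b 0).factorization p + (b 1).factorization p + (b 2).factorization p)
          ((b 3).factorization p) = 0) := by
      by_cases h1 : Nat.Coprime (b 0 * b 2) (b 4)
      · by_cases h2 : Nat.Coprime (b 0) (b 5)
        · have h3 : ¬ Nat.Coprime (b 0 * b 1 * b 2) (b 3) := fun h => hc ⟨h1, h2, h⟩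
          obtain ⟨p, hp, hd, hm⟩ := exists_pr b012 (hb 3) h3
          rw [f012] at hm
          exact ⟨p, hp, hd.trans (by rw [eN]; exact ⟨b 3 * b 4 * b 5, by ring⟩),
            fun h => hm h.2.2⟩
        · obtain ⟨p, hp, hd, hm⟩ := exists_pr (hb 0) (hb 5) h2
          exact ⟨p, hp, hd.trans (by rw [eN]; exact ⟨b 1 * b 2 * b 3 * b 4 * b 5, by ring⟩),
            fun h => hm h.2.1⟩
      · obtain ⟨p, hp, hd, hm⟩ := exists_pr b02 (hb 4) h1
        rw [f02] at hm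
        exact ⟨p, hp, hd.trans (by rw [eN]; exact ⟨b 1 * b 3 * b 4 * b 5, by ring⟩),
          fun h => hm h.1⟩
    obtain ⟨p, hp, hd, hm⟩ := this
    refine Finset.prod_eq_zero (i := p) ?_ ?_
    · rw [Nat.mem_primeFactors]
      exact ⟨hp, hd, hN⟩
    · unfold lC
      rw [if_neg hm]

/-- TM I2, from MC -/
theorem wC_lim_of
    (MEP : ∀ {r : ℕ} (_ : 0 < r) (m : Fin r → ℕ) (lam : ℕ → (Fin r → ℕ) → ℝ) (_ : LW r m lam),
      KH r (mw lam) ∧ ∀ s : Fin r → ℝ, (∀ i, 0 < s i) →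
        Tendsto (fun L : ℝ => (∑' b : Fin r → ℕ, mw lam b * ∏ i, (b i : ℝ) ^ (-(s i / L))) /
            L ^ ((∑ i, m i : ℕ) : ℝ)) atTop
          (𝓝 ((∏' p : Nat.Primes, ((1 - 1 / (p : ℝ)) ^ (∑ i, m i) * ∑' v : Fin r → ℕ, lam p v)) *
            ∏ i, (s i) ^ (-(m i : ℝ))))) :
    KH 6 wC ∧ ∀ s : Fin 6 → ℝ, (∀ i, 0 < s i) →
    Tendsto (fun L : ℝ => (∑' b : Fin 6 → ℕ, wC b * ∏ i, (b i : ℝ) ^ (-(s i / L))) / L ^ (30 : ℝ))
      atTop (𝓝 (aF 6 * ∏ i, (s i) ^ (-((![5, 10, 10, 1, 2, 2] : Fin 6 → ℝ) i)))) := by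
  obtain ⟨h1, h2⟩ := MEP (by norm_num) ![5, 10, 10, 1, 2, 2] lC lC_LW
  rw [wC_eq]
  refine ⟨h1, fun s hs => ?_⟩
  have h3 := h2 s hs
  have e1 : (∑ i, (![5, 10, 10, 1, 2, 2] : Fin 6 → ℕ) i) = 30 := by decide
  rw [e1] at h3
  have e2 : ∏ i, (s i) ^ (-(((![5, 10, 10, 1, 2, 2] : Fin 6 → ℕ) i : ℕ) : ℝ)) =
      ∏ i, (s i) ^ (-((![5, 10, 10, 1, 2, 2] : Fin 6 → ℝ) i)) := by
    rw [Fin.prod_univ_six, Fin.prod_univ_six]
    simp
  have e3 : (∏' p : Nat.Primes, ((1 - 1 / (p : ℝ)) ^ (30 : ℕ) * ∑' v : Fin 6 → ℕ, lC p v)) =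
      aF 6 := by
    unfold aF
    exact tprod_congr fun p => lC_factor p.2
  rw [e2, e3] at h3
  have e4 : ((30 : ℕ) : ℝ) = (30 : ℝ) := by norm_num
  rw [e4] at h3
  exact h3

end

end Pool.Agent.H497R2.TMI2
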