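import Pool.Agent.H223.TM.Defs
import Pool.Agent.H497R2.TM_I2

/-!
# TM I5a: the local sum of the weight `wP` (helper497)
-/

set_option autoImplicit false

namespace Pool.Agent.H497R2.TMI5

open Finset Filter Topology MeasureTheory Complex
open Pool.Agent.H306R2 Pool.Agent.H306R2.SM Pool.Agent.H223.EM Pool.Agent.H223.TM
open Pool.Agent.H497R2.EM Pool.Agent.H497R2.TMI2

noncomputable section

/-- local weight of `wP` -/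
def lP (p : ℕ) (v : Fin 9 → ℕ) : ℝ :=
  if (v 1 + v 2 = 0 ∨ v 3 + v 6 = 0) ∧ (v 2 = 0 ∨ v 4 + v 7 = 0) ∧ (v 4 + v 5 = 0 ∨ v 6 = 0) ∧
      (v 5 = 0 ∨ v 7 = 0) then
    ((v 0 + v 1 + v 2 + 1 : ℕ) : ℝ) * ((v 3 + v 4 + v 5 + 1 : ℕ) : ℝ) * ((v 6 + v 7 + v 8 + 1 : ℕ) : ℝ) *
      (((v 0 + v 3 + v 6 + 1 : ℕ) : ℝ) * ((v 1 + v 4 + v 7 + 1 : ℕ) : ℝ) *
        ((v 2 + v 5 + v 8 + 1 : ℕ) : ℝ)) * (1 / (p : ℝ)) ^ (∑ i, v i) else 0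

/-- the support of `lP` -/
def Adm (v : Fin 9 → ℕ) : Prop :=
  (v 1 + v 2 = 0 ∨ v 3 + v 6 = 0) ∧ (v 2 = 0 ∨ v 4 + v 7 = 0) ∧ (v 4 + v 5 = 0 ∨ v 6 = 0) ∧
      (v 5 = 0 ∨ v 7 = 0)

/-- row sums `a`, column sums `b` -/
def Mar (v : Fin 9 → ℕ) (a0 a1 a2 b0 b1 b2 : ℕ) : Prop :=
  v 0 + v 1 + v 2 = a0 ∧ v 3 + v 4 + v 5 = a1 ∧ v 6 + v 7 + v 8 = a2 ∧
  v 0 + v 3 + v 6 = b0 ∧ v 1 + v 4 + v 7 = b1 ∧ v 2 + v 5 + v 8 = b2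

lemma adm_exists (a0 a1 a2 b0 b1 b2 : ℕ) (h : a0 + a1 + a2 = b0 + b1 + b2) :
    ∃ v : Fin 9 → ℕ, Adm v ∧ Mar v a0 a1 a2 b0 b1 b2 := by
  obtain ⟨e0, h0⟩ : ∃ e0, e0 = min a0 b0 := ⟨_, rfl⟩
  obtain ⟨e1, h1⟩ : ∃ e1, e1 = min (a0 - e0) b1 := ⟨_, rfl⟩
  obtain ⟨e2, h2⟩ : ∃ e2, e2 = a0 - e0 - e1 := ⟨_, rfl⟩
  obtain ⟨e3, h3⟩ : ∃ e3, e3 = min a1 (b0 - e0) := ⟨_, rfl⟩
  obtain ⟨e4, h4⟩ : ∃ e4, e4 = min (a1 - e3) (b1 - e1) := ⟨_, rfl⟩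
  obtain ⟨e5, h5⟩ : ∃ e5, e5 = a1 - e3 - e4 := ⟨_, rfl⟩
  refine ⟨![e0, e1, e2, e3, e4, e5, b0 - e0 - e3, b1 - e1 - e4, b2 - e2 - e5], ?_, ?_⟩
  · show (e1 + e2 = 0 ∨ e3 + (b0 - e0 - e3) = 0) ∧ (e2 = 0 ∨ e4 + (b1 - e1 - e4) = 0) ∧
      (e4 + e5 = 0 ∨ b0 - e0 - e3 = 0) ∧ (e5 = 0 ∨ b1 - e1 - e4 = 0)
    refine ⟨?_, ?_, ?_, ?_⟩ <;> omega
  · show e0 + e1 + e2 = a0 ∧ e3 + e4 + e5 = a1 ∧
      b0 - e0 - e3 + (b1 - e1 - e4) + (b2 - e2 - e5) = a2 ∧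
      e0 + e3 + (b0 - e0 - e3) = b0 ∧ e1 + e4 + (b1 - e1 - e4) = b1 ∧
      e2 + e5 + (b2 - e2 - e5) = b2
    refine ⟨?_, ?_, ?_, ?_, ?_, ?_⟩ <;> omega

lemma mn2 (x y z x' y' z' : ℕ) (h : y = 0 ∨ z = 0) (h' : y' = 0 ∨ z' = 0)
    (h1 : x + y = x' + y') (h2 : x + z = x' + z') : x = x' := by omega

lemma sum9 {M : Type} [AddCommMonoid M] (v : Fin 9 → M) :
    ∑ i, v i = v 0 + v 1 + v 2 + v 3 + v 4 + v 5 + v 6 + v 7 + v 8 := by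
  rw [Fin.sum_univ_castSucc, Fin.sum_univ_eight]
  rfl

lemma adm_unique (v w : Fin 9 → ℕ) (hv : Adm v) (hw : Adm w) (a0 a1 a2 b0 b1 b2 : ℕ)
    (mv : Mar v a0 a1 a2 b0 b1 b2) (mw : Mar w a0 a1 a2 b0 b1 b2) : v = w := by
  obtain ⟨v1, v2, v3, v4⟩ := hv
  obtain ⟨w1, w2, w3, w4⟩ := hw
  obtain ⟨p1, p2, p3, p4, p5, p6⟩ := mv
  obtain ⟨q1, q2, q3, q4, q5, q6⟩ := mw
  have e0 : v 0 = w 0 := mn2 _ _ _ _ _ _ v1 w1 (by linarith) (by linarith)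
  have e1 : v 1 = w 1 := mn2 _ _ _ _ _ _ v2 w2 (by linarith) (by linarith)
  have e2 : v 2 = w 2 := by linarith
  have e3 : v 3 = w 3 := mn2 _ _ _ _ _ _ v3 w3 (by linarith) (by linarith)
  have e4 : v 4 = w 4 := mn2 _ _ _ _ _ _ v4 w4 (by linarith) (by linarith)
  have e5 : v 5 = w 5 := by linarith
  have e6 : v 6 = w 6 := by linarith
  have e7 : v 7 = w 7 := by linarith
  have e8 : v 8 = w 8 := by linarith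
  funext i
  fin_cases i
  · exact e0
  · exact e1
  · exact e2
  · exact e3
  · exact e4
  · exact e5
  · exact e6
  · exact e7
  · exact e8

/-- triples with sum `m` -/
def T3 (m : ℕ) : Finset (Σ _ : ℕ × ℕ, ℕ × ℕ) :=
  (HasAntidiagonal.antidiagonal m).sigma (fun q => HasAntidiagonal.antidiagonal q.2)

lemma mem_T3 (m a0 s a1 a2 : ℕ) : (⟨(a0, s), (a1, a2)⟩ : Σ _ : ℕ × ℕ, ℕ × ℕ) ∈ T3 m ↔
    a0 + s = m ∧ a1 + a2 = s := by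
  unfold T3
  rw [Finset.mem_sigma, HasAntidiagonal.mem_antidiagonal, HasAntidiagonal.mem_antidiagonal]

/-- weight of a triple -/
def wt3 (x : Σ _ : ℕ × ℕ, ℕ × ℕ) : ℝ := ((x.1.1 : ℝ) + 1) * (((x.2.1 : ℝ) + 1) * ((x.2.2 : ℝ) + 1))

lemma anti0 (n : ℕ) : ∑ q ∈ HasAntidiagonal.antidiagonal n, ((q.2 : ℝ) + 1) =
    ((n : ℝ) + 1) * (n + 2) / 2 := by
  induction n with
  | zero => simp
  | succ n ih =>
    rw [Finset.Nat.sum_antidiagonal_succ, ih]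
    push_cast
    ring

lemma anti1 (n : ℕ) : ∑ q ∈ HasAntidiagonal.antidiagonal n, ((q.1 : ℝ) + 1) * ((q.2 : ℝ) + 1) =
    (((n + 3).choose 3 : ℕ) : ℝ) := by
  rw [ch_three]
  induction n with
  | zero => simp; norm_num
  | succ n ih =>
    rw [Finset.Nat.sum_antidiagonal_succ]
    have e : ∑ q ∈ HasAntidiagonal.antidiagonal n, ((((q.1 + 1, q.2) : ℕ × ℕ).1 : ℝ) + 1) *
        ((((q.1 + 1, q.2) : ℕ × ℕ).2 : ℝ) + 1) =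
        ∑ q ∈ HasAntidiagonal.antidiagonal n, ((q.1 : ℝ) + 1) * ((q.2 : ℝ) + 1) +
        ∑ q ∈ HasAntidiagonal.antidiagonal n, ((q.2 : ℝ) + 1) := by
      rw [← Finset.sum_add_distrib]
      refine Finset.sum_congr rfl fun q _ => ?_
      push_cast
      ring
    rw [e, ih, anti0]
    push_cast
    ring

lemma anti2 (n : ℕ) : ∑ q ∈ HasAntidiagonal.antidiagonal n, (((q.2 + 3).choose 3 : ℕ) : ℝ) =
    (((n + 4).choose 4 : ℕ) : ℝ) := by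
  rw [ch_four]
  induction n with
  | zero => simp; norm_num
  | succ n ih =>
    rw [Finset.Nat.sum_antidiagonal_succ, ih, ch_three]
    push_cast
    ring

lemma anti3 (n : ℕ) : ∑ q ∈ HasAntidiagonal.antidiagonal n,
    ((q.1 : ℝ) + 1) * (((q.2 + 3).choose 3 : ℕ) : ℝ) = (((n + 5).choose 5 : ℕ) : ℝ) := by
  rw [ch_five]
  induction n with
  | zero => simp; norm_num
  | succ n ih =>
    rw [Finset.Nat.sum_antidiagonal_succ]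
    have e : ∑ q ∈ HasAntidiagonal.antidiagonal n, ((((q.1 + 1, q.2) : ℕ × ℕ).1 : ℝ) + 1) *
        (((((q.1 + 1, q.2) : ℕ × ℕ).2 + 3).choose 3 : ℕ) : ℝ) =
        ∑ q ∈ HasAntidiagonal.antidiagonal n, ((q.1 : ℝ) + 1) * (((q.2 + 3).choose 3 : ℕ) : ℝ) +
        ∑ q ∈ HasAntidiagonal.antidiagonal n, (((q.2 + 3).choose 3 : ℕ) : ℝ) := by
      rw [← Finset.sum_add_distrib]
      refine Finset.sum_congr rfl fun q _ => ?_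
      push_cast
      ring
    rw [e, ih, anti2, ch_three, ch_four]
    push_cast
    ring

lemma sum_T3 (m : ℕ) : ∑ x ∈ T3 m, wt3 x = (((m + 5).choose 5 : ℕ) : ℝ) := by
  unfold T3 wt3
  rw [Finset.sum_sigma, ← anti3]
  refine Finset.sum_congr rfl fun q _ => ?_
  show ∑ s ∈ HasAntidiagonal.antidiagonal q.2, ((q.1 : ℝ) + 1) * (((s.1 : ℝ) + 1) * ((s.2 : ℝ) + 1)) = _
  rw [← Finset.mul_sum, anti1]

/-- the index type: pairs of triples with the same sum -/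
abbrev S3 : Type := Σ m : ℕ, (↥(T3 m) × ↥(T3 m))

lemma S3_sum (s : S3) : s.2.1.1.1.1 + s.2.1.1.2.1 + s.2.1.1.2.2 = s.1 ∧
    s.2.2.1.1.1 + s.2.2.1.2.1 + s.2.2.1.2.2 = s.1 ∧
    s.2.1.1.1.2 = s.2.1.1.2.1 + s.2.1.1.2.2 ∧ s.2.2.1.1.2 = s.2.2.1.2.1 + s.2.2.1.2.2 := by
  obtain ⟨m, ⟨⟨⟨a0, s⟩, ⟨a1, a2⟩⟩, ha⟩, ⟨⟨⟨b0, t⟩, ⟨b1, b2⟩⟩, hb⟩⟩ := s
  rw [mem_T3] at ha hb
  show a0 + a1 + a2 = m ∧ b0 + b1 + b2 = m ∧ s = a1 + a2 ∧ t = b1 + b2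
  omega

lemma gr_exists (s : S3) : ∃ v : Fin 9 → ℕ, Adm v ∧ Mar v s.2.1.1.1.1 s.2.1.1.2.1 s.2.1.1.2.2
    s.2.2.1.1.1 s.2.2.1.2.1 s.2.2.1.2.2 := by
  obtain ⟨h1, h2, -, -⟩ := S3_sum s
  exact adm_exists _ _ _ _ _ _ (by omega)

/-- the greedy matrix -/
def gr (s : S3) : Fin 9 → ℕ := (gr_exists s).choose

lemma gr_adm (s : S3) : Adm (gr s) := (gr_exists s).choose_spec.1

lemma gr_mar (s : S3) : Mar (gr s) s.2.1.1.1.1 s.2.1.1.2.1 s.2.1.1.2.2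
    s.2.2.1.1.1 s.2.2.1.2.1 s.2.2.1.2.2 := (gr_exists s).choose_spec.2

lemma gr_inj : Function.Injective gr := by
  intro s s' h
  have m1 := gr_mar s
  have m2 := gr_mar s'
  rw [h] at m1
  obtain ⟨h1, h2, h3, h4⟩ := S3_sum s
  obtain ⟨h1', h2', h3', h4'⟩ := S3_sum s'
  obtain ⟨p1, p2, p3, p4, p5, p6⟩ := m1
  obtain ⟨q1, q2, q3, q4, q5, q6⟩ := m2
  have f1 := p1.symm.trans q1
  have f2 := p2.symm.trans q2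
  have f3 := p3.symm.trans q3
  have f4 := p4.symm.trans q4
  have f5 := p5.symm.trans q5
  have f6 := p6.symm.trans q6
  clear p1 p2 p3 p4 p5 p6 q1 q2 q3 q4 q5 q6 h
  obtain ⟨m, ⟨⟨⟨a0, s⟩, ⟨a1, a2⟩⟩, ha⟩, ⟨⟨⟨b0, t⟩, ⟨b1, b2⟩⟩, hb⟩⟩ := s
  obtain ⟨m', ⟨⟨⟨a0', s'⟩, ⟨a1', a2'⟩⟩, ha'⟩, ⟨⟨⟨b0', t'⟩, ⟨b1', b2'⟩⟩, hb'⟩⟩ := s'
  simp only at h1 h2 h3 h4 h1' h2' h3' h4' f1 f2 f3 f4 f5 f6
  have k0 : m = m' := by omega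
  have k1 : s = s' := by omega
  have k2 : t = t' := by omega
  subst k0 k1 k2 f1 f2 f3 f4 f5 f6
  rfl

lemma lP_nonneg (p : ℕ) (v : Fin 9 → ℕ) : 0 ≤ lP p v := by
  unfold lP
  split_ifs
  · positivity
  · exact le_rfl

lemma lP_gr (p : ℕ) (s : S3) : lP p (gr s) =
    wt3 s.2.1.1 * wt3 s.2.2.1 * (1 / (p : ℝ)) ^ s.1 := by
  have h1 := gr_adm s
  obtain ⟨p1, p2, p3, p4, p5, p6⟩ := gr_mar s
  obtain ⟨s1, s2, -, -⟩ := S3_sum s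
  have hs : ∑ i, gr s i = s.1 := by
    rw [sum9]
    linarith
  unfold lP
  unfold Adm at h1
  rw [if_pos h1, p1, p2, p3, p4, p5, p6, hs]
  unfold wt3
  push_cast
  ring

lemma gr_range (v : Fin 9 → ℕ) (hv : Adm v) : v ∈ Set.range gr := by
  have ha : (⟨(v 0 + v 1 + v 2, v 3 + v 4 + v 5 + (v 6 + v 7 + v 8)),
      (v 3 + v 4 + v 5, v 6 + v 7 + v 8)⟩ : Σ _ : ℕ × ℕ, ℕ × ℕ) ∈
      T3 (v 0 + v 1 + v 2 + (v 3 + v 4 + v 5) + (v 6 + v 7 + v 8)) := by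
    rw [mem_T3]
    omega
  have hb : (⟨(v 0 + v 3 + v 6, v 1 + v 4 + v 7 + (v 2 + v 5 + v 8)),
      (v 1 + v 4 + v 7, v 2 + v 5 + v 8)⟩ : Σ _ : ℕ × ℕ, ℕ × ℕ) ∈
      T3 (v 0 + v 1 + v 2 + (v 3 + v 4 + v 5) + (v 6 + v 7 + v 8)) := by
    rw [mem_T3]
    omega
  refine ⟨⟨_, ⟨_, ha⟩, ⟨_, hb⟩⟩, ?_⟩
  exact adm_unique _ _ (gr_adm _) hv _ _ _ _ _ _ (gr_mar _) ⟨rfl, rfl, rfl, rfl, rfl, rfl⟩

/-- I5a -/
theorem lP_sum (p : ℕ) (hp : p.Prime) : HasSum (lP p)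
    (∑' m : ℕ, ((m + 5).choose 5 : ℝ) ^ 2 * (1 / (p : ℝ)) ^ m) := by
  obtain ⟨x0, x2⟩ := inv_pr hp
  have hlc : ∀ m : ℕ, lc 6 m = ((m + 5).choose 5 : ℝ) := by
    intro m
    rw [lc_six, ch_five]
  have hS : HasSum (fun m : ℕ => ((m + 5).choose 5 : ℝ) ^ 2 * (1 / (p : ℝ)) ^ m)
      (∑' m : ℕ, ((m + 5).choose 5 : ℝ) ^ 2 * (1 / (p : ℝ)) ^ m) := by
    have h := (lc6_hasSum x0.le (by linarith)).summable
    refine Summable.hasSum (h.congr fun m => ?_)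
    rw [hlc]
  have hout : ∀ v, v ∉ Set.range gr → lP p v = 0 := by
    intro v hv
    unfold lP
    rw [if_neg]
    intro h
    exact hv (gr_range v h)
  rw [← gr_inj.hasSum_iff hout]
  have hfib : ∀ m : ℕ, ∑ q : ↥(T3 m) × ↥(T3 m), wt3 q.1.1 * wt3 q.2.1 * (1 / (p : ℝ)) ^ m =
      ((m + 5).choose 5 : ℝ) ^ 2 * (1 / (p : ℝ)) ^ m := by
    intro m
    rw [← Finset.sum_mul, Fintype.sum_prod_type]
    congr 1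
    have e1 : ∀ x : ↥(T3 m), ∑ y : ↥(T3 m), wt3 x.1 * wt3 y.1 = wt3 x.1 * ((m + 5).choose 5 : ℝ) := by
      intro x
      rw [← Finset.mul_sum, Finset.sum_coe_sort (T3 m) (fun y => wt3 y), sum_T3]
    rw [Finset.sum_congr rfl (fun x _ => e1 x), ← Finset.sum_mul,
      Finset.sum_coe_sort (T3 m) (fun y => wt3 y), sum_T3]
    ring
  have hval : ∀ m : ℕ, ∀ q : ↥(T3 m) × ↥(T3 m), (lP p ∘ gr) ⟨m, q⟩ =
      wt3 q.1.1 * wt3 q.2.1 * (1 / (p : ℝ)) ^ m := fun m q => lP_gr p ⟨m, q⟩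
  have hfib' : ∀ m : ℕ, HasSum (fun q : ↥(T3 m) × ↥(T3 m) => (lP p ∘ gr) ⟨m, q⟩)
      (((m + 5).choose 5 : ℝ) ^ 2 * (1 / (p : ℝ)) ^ m) := by
    intro m
    have := hasSum_fintype (fun q : ↥(T3 m) × ↥(T3 m) => (lP p ∘ gr) ⟨m, q⟩)
    rw [Finset.sum_congr rfl (fun q _ => hval m q), hfib m] at this
    exact this
  have hs : Summable (lP p ∘ gr) := by
    refine (summable_sigma_of_nonneg (fun q => lP_nonneg p _)).mpr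
      ⟨fun n => (hfib' n).summable, ?_⟩
    refine hS.summable.congr fun n => ?_
    exact (hfib' n).tsum_eq.symm
  exact HasSum.sigma_of_hasSum hS hfib' hs

end

end Pool.Agent.H497R2.TMI5
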