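import Pool.Agent.H497R2.TM_I5a

/-!
# TM I5b: the weight `wP`, instance (4,...,4) (helper497)
-/

set_option autoImplicit false

namespace Pool.Agent.H497R2.TMI5

open Finset Filter Topology MeasureTheory Complex
open Pool.Agent.H306R2 Pool.Agent.H306R2.SM Pool.Agent.H223.EM Pool.Agent.H223.TM
open Pool.Agent.H497R2.EM Pool.Agent.H497R2.TMI2

noncomputable section

lemma prod9 {M : Type} [CommMonoid M] (v : Fin 9 → M) :
    ∏ i, v i = v 0 * v 1 * v 2 * v 3 * v 4 * v 5 * v 6 * v 7 * v 8 := by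
  rw [Fin.prod_univ_castSucc, Fin.prod_univ_eight]
  rfl

lemma three_le (x y z : ℝ) (hx : 0 ≤ x) (hy : 0 ≤ y) (hz : 0 ≤ z) :
    x + y + z + 1 ≤ (x + 2) * (y + 2) * (z + 2) := by
  have e1 := mul_nonneg hx hy
  have e2 := mul_nonneg hx hz
  have e3 := mul_nonneg hy hz
  have e4 := mul_nonneg e1 hz
  nlinarith

lemma prod_re (s0 s1 s2 s3 s4 s5 s6 s7 s8 : ℝ) :
    (s0 * s1 * s2) * (s3 * s4 * s5) * (s6 * s7 * s8) *
      ((s0 * s3 * s6) * (s1 * s4 * s7) * (s2 * s5 * s8)) =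
    s0 ^ 2 * s1 ^ 2 * s2 ^ 2 * s3 ^ 2 * s4 ^ 2 * s5 ^ 2 * s6 ^ 2 * s7 ^ 2 * s8 ^ 2 := by
  ring

lemma lP_le {p : ℕ} (hp : p.Prime) (v : Fin 9 → ℕ) :
    lP p v ≤ (∏ i, ((v i : ℝ) + 2) ^ 2) * (1 / (p : ℝ)) ^ (∑ i, v i) := by
  obtain ⟨x0, x2⟩ := inv_pr hp
  unfold lP
  split_ifs
  · refine mul_le_mul_of_nonneg_right ?_ (by positivity)
    rw [prod9]
    have a : ∀ i, (0 : ℝ) ≤ v i := fun i => Nat.cast_nonneg _
    have r0 := three_le _ _ _ (a 0) (a 1) (a 2)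
    have r1 := three_le _ _ _ (a 3) (a 4) (a 5)
    have r2 := three_le _ _ _ (a 6) (a 7) (a 8)
    have s0 := three_le _ _ _ (a 0) (a 3) (a 6)
    have s1 := three_le _ _ _ (a 1) (a 4) (a 7)
    have s2 := three_le _ _ _ (a 2) (a 5) (a 8)
    have a0 := a 0
    have a1 := a 1
    have a2 := a 2
    have a3 := a 3
    have a4 := a 4
    have a5 := a 5
    have a6 := a 6
    have a7 := a 7
    have a8 := a 8
    clear a
    push_cast
    generalize (v 0 : ℝ) = t0 at *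
    generalize (v 1 : ℝ) = t1 at *
    generalize (v 2 : ℝ) = t2 at *
    generalize (v 3 : ℝ) = t3 at *
    generalize (v 4 : ℝ) = t4 at *
    generalize (v 5 : ℝ) = t5 at *
    generalize (v 6 : ℝ) = t6 at *
    generalize (v 7 : ℝ) = t7 at *
    generalize (v 8 : ℝ) = t8 at *
    calc (t0 + t1 + t2 + 1) * (t3 + t4 + t5 + 1) * (t6 + t7 + t8 + 1) *
          ((t0 + t3 + t6 + 1) * (t1 + t4 + t7 + 1) * (t2 + t5 + t8 + 1))
        ≤ ((t0 + 2) * (t1 + 2) * (t2 + 2)) * ((t3 + 2) * (t4 + 2) * (t5 + 2)) *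
          ((t6 + 2) * (t7 + 2) * (t8 + 2)) *
          (((t0 + 2) * (t3 + 2) * (t6 + 2)) * ((t1 + 2) * (t4 + 2) * (t7 + 2)) *
            ((t2 + 2) * (t5 + 2) * (t8 + 2))) := by gcongr
      _ = _ := prod_re _ _ _ _ _ _ _ _ _
  · positivity

lemma PP_summable : Summable (fun v : Fin 9 → ℕ =>
    (∏ i, ((v i : ℝ) + 2) ^ 2) * (1 / 2 : ℝ) ^ (∑ i, v i)) := by
  have h := summable_pi (r := 9) (fun _ n => ((n : ℝ) + 2) ^ 2 * (1 / 2 : ℝ) ^ n)
    (fun _ n => by positivity) (fun _ => pow_geo_summable 2)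
  refine h.congr fun v => ?_
  rw [Finset.prod_mul_distrib, Finset.prod_pow_eq_pow_sum]

lemma lP_single (p : ℕ) (i : Fin 9) : lP p (Pi.single i 1) = 4 * (1 / (p : ℝ)) := by
  unfold lP
  rw [sum9]
  fin_cases i <;> simp [Pi.single_apply] <;> norm_num

theorem lP_LW : LW 9 ![4, 4, 4, 4, 4, 4, 4, 4, 4] lP := by
  obtain ⟨h1, h2⟩ := LW_crit (fun v : Fin 9 → ℕ => ∏ i, ((v i : ℝ) + 2) ^ 2) PP_summable lP
    (fun p _ v => lP_nonneg p v) (fun p hp v => lP_le hp v)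
  refine ⟨fun p _ v => lP_nonneg p v, fun p hp => ?_, h1, ⟨0, fun p hp i => ?_⟩, h2⟩
  · unfold lP
    simp
  · rw [lP_single]
    have e : (((![4, 4, 4, 4, 4, 4, 4, 4, 4] : Fin 9 → ℕ) i : ℕ) : ℝ) = 4 := by
      fin_cases i <;> rfl
    rw [e, zero_div]
    have e2 : 4 * (1 / (p : ℝ)) - 4 / (p : ℝ) = 0 := by ring
    rw [e2, abs_zero]

lemma lP_factor {p : ℕ} (hp : p.Prime) :
    (1 - 1 / (p : ℝ)) ^ (36 : ℕ) * ∑' v : Fin 9 → ℕ, lP p v =
      (1 - 1 / (p : ℝ)) ^ ((6 : ℝ) ^ 2) * ∑' m : ℕ, lc 6 m ^ 2 * (1 / (p : ℝ)) ^ m := by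
  rw [(lP_sum p hp).tsum_eq]
  rw [show ((6 : ℝ) ^ 2) = ((36 : ℕ) : ℝ) by norm_num, Real.rpow_natCast]
  congr 1
  refine tsum_congr fun m => ?_
  rw [lc_six, ch_five]

/-! ### the multiplicative function -/

lemma fac_mul3 {a b c : ℕ} (ha : a ≠ 0) (hb : b ≠ 0) (hc : c ≠ 0) (p : ℕ) :
    (a * b * c).factorization p = a.factorization p + b.factorization p + c.factorization p := by
  rw [fac_mul (mul_ne_zero ha hb) hc, fac_mul ha hb]

theorem wP_eq : wP = mw lP := by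
  funext b
  unfold wP mw
  by_cases hb : ∀ i, b i ≠ 0
  swap
  · rw [if_neg hb, if_neg (fun h => hb h.2.2.2.2)]
  rw [if_pos hb]
  have hN : ∏ i, b i ≠ 0 := Finset.prod_ne_zero_iff.mpr fun i _ => hb i
  have b12 := mul_ne_zero (hb 1) (hb 2)
  have b36 := mul_ne_zero (hb 3) (hb 6)
  have b47 := mul_ne_zero (hb 4) (hb 7)
  have b45 := mul_ne_zero (hb 4) (hb 5)
  have f12 := fac_mul (hb 1) (hb 2)
  have f36 := fac_mul (hb 3) (hb 6)
  have f47 := fac_mul (hb 4) (hb 7)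
  have f45 := fac_mul (hb 4) (hb 5)
  have eN : ∏ i, b i = b 0 * b 1 * b 2 * b 3 * b 4 * b 5 * b 6 * b 7 * b 8 := prod9 _
  have fN : ∀ p, (∏ i, b i).factorization p = ∑ i, (b i).factorization p := by
    intro p
    rw [Nat.factorization_prod (fun i _ => hb i), Finsupp.finsetSum_apply]
  have e012 := mul_ne_zero (mul_ne_zero (hb 0) (hb 1)) (hb 2)
  have e345 := mul_ne_zero (mul_ne_zero (hb 3) (hb 4)) (hb 5)
  have e678 := mul_ne_zero (mul_ne_zero (hb 6) (hb 7)) (hb 8)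
  have e036 := mul_ne_zero (mul_ne_zero (hb 0) (hb 3)) (hb 6)
  have e147 := mul_ne_zero (mul_ne_zero (hb 1) (hb 4)) (hb 7)
  have e258 := mul_ne_zero (mul_ne_zero (hb 2) (hb 5)) (hb 8)
  by_cases hc : Nat.Coprime (b 1 * b 2) (b 3 * b 6) ∧ Nat.Coprime (b 2) (b 4 * b 7) ∧
      Nat.Coprime (b 4 * b 5) (b 6) ∧ Nat.Coprime (b 5) (b 7)
  · rw [if_pos ⟨hc.1, hc.2.1, hc.2.2.1, hc.2.2.2, hb⟩]
    have hl : ∀ p ∈ (∏ i, b i).primeFactors, lP p (fun i => (b i).factorization p) =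
        (((b 0 * b 1 * b 2).factorization p : ℝ) + 1) *
        (((b 3 * b 4 * b 5).factorization p : ℝ) + 1) *
        (((b 6 * b 7 * b 8).factorization p : ℝ) + 1) *
        ((((b 0 * b 3 * b 6).factorization p : ℝ) + 1) *
        (((b 1 * b 4 * b 7).factorization p : ℝ) + 1) *
        (((b 2 * b 5 * b 8).factorization p : ℝ) + 1)) *
          (1 / (p : ℝ)) ^ ((∏ i, b i).factorization p) := by
      intro p hp
      unfold lP
      have c1 := min_fac (p := p) hc.1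
      have c2 := min_fac (p := p) hc.2.1
      have c3 := min_fac (p := p) hc.2.2.1
      have c4 := min_fac (p := p) hc.2.2.2
      rw [f12, f36, Nat.min_eq_zero_iff] at c1
      rw [f47, Nat.min_eq_zero_iff] at c2
      rw [f45, Nat.min_eq_zero_iff] at c3
      rw [Nat.min_eq_zero_iff] at c4
      rw [if_pos ⟨c1, c2, c3, c4⟩, fac_mul3 (hb 0) (hb 1) (hb 2), fac_mul3 (hb 3) (hb 4) (hb 5),
        fac_mul3 (hb 6) (hb 7) (hb 8), fac_mul3 (hb 0) (hb 3) (hb 6),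
        fac_mul3 (hb 1) (hb 4) (hb 7), fac_mul3 (hb 2) (hb 5) (hb 8), fN]
      push_cast
      rfl
    rw [Finset.prod_congr rfl hl, Finset.prod_mul_distrib, Finset.prod_mul_distrib,
      Finset.prod_mul_distrib, Finset.prod_mul_distrib, Finset.prod_mul_distrib,
      Finset.prod_mul_distrib]
    rw [← d2_prod e012 hN (by rw [eN]; exact ⟨b 3 * b 4 * b 5 * b 6 * b 7 * b 8, by ring⟩),
      ← d2_prod e345 hN (by rw [eN]; exact ⟨b 0 * b 1 * b 2 * b 6 * b 7 * b 8, by ring⟩),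
      ← d2_prod e678 hN (by rw [eN]; exact ⟨b 0 * b 1 * b 2 * b 3 * b 4 * b 5, by ring⟩),
      ← d2_prod e036 hN (by rw [eN]; exact ⟨b 1 * b 2 * b 4 * b 5 * b 7 * b 8, by ring⟩),
      ← d2_prod e147 hN (by rw [eN]; exact ⟨b 0 * b 2 * b 3 * b 5 * b 6 * b 8, by ring⟩),
      ← d2_prod e258 hN (by rw [eN]; exact ⟨b 0 * b 1 * b 3 * b 4 * b 6 * b 7, by ring⟩)]
    have t3 : ∏ p ∈ (∏ i, b i).primeFactors, (1 / (p : ℝ)) ^ ((∏ i, b i).factorization p) =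
        1 / ((∏ i, b i : ℕ) : ℝ) := by
      conv_rhs => rw [← Nat.prod_factorization_pow_eq_self hN]
      unfold Finsupp.prod
      rw [Nat.support_factorization]
      push_cast
      rw [one_div, ← Finset.prod_inv_distrib]
      refine Finset.prod_congr rfl fun p _ => ?_
      rw [one_div, inv_pow]
    rw [t3, Nat.cast_prod]
    ring
  · rw [if_neg (fun h => hc ⟨h.1, h.2.1, h.2.2.1, h.2.2.2.1⟩)]
    symm
    have hdv : ∀ i, b i ∣ ∏ i, b i := fun i => Finset.dvd_prod_of_mem b (Finset.mem_univ i)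
    have : ∃ p : ℕ, p.Prime ∧ p ∣ ∏ i, b i ∧
        ¬ (((b 1).factorization p + (b 2).factorization p = 0 ∨
            (b 3).factorization p + (b 6).factorization p = 0) ∧
          ((b 2).factorization p = 0 ∨ (b 4).factorization p + (b 7).factorization p = 0) ∧
          ((b 4).factorization p + (b 5).factorization p = 0 ∨ (b 6).factorization p = 0) ∧
          ((b 5).factorization p = 0 ∨ (b 7).factorization p = 0)) := by
      by_cases h1 : Nat.Coprime (b 1 * b 2) (b 3 * b 6)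
      · by_cases h2 : Nat.Coprime (b 2) (b 4 * b 7)
        · by_cases h3 : Nat.Coprime (b 4 * b 5) (b 6)
          · have h4 : ¬ Nat.Coprime (b 5) (b 7) := fun h => hc ⟨h1, h2, h3, h⟩
            obtain ⟨p, hp, hd, hm⟩ := exists_pr (hb 5) (hb 7) h4
            refine ⟨p, hp, hd.trans (hdv 5), fun h => hm ?_⟩
            rw [Nat.min_eq_zero_iff]
            exact h.2.2.2
          · obtain ⟨p, hp, hd, hm⟩ := exists_pr b45 (hb 6) h3
            refine ⟨p, hp, hd.trans (by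
              rw [eN]; exact ⟨b 0 * b 1 * b 2 * b 3 * b 6 * b 7 * b 8, by ring⟩), fun h => hm ?_⟩
            rw [f45, Nat.min_eq_zero_iff]
            exact h.2.2.1
        · obtain ⟨p, hp, hd, hm⟩ := exists_pr (hb 2) b47 h2
          refine ⟨p, hp, hd.trans (hdv 2), fun h => hm ?_⟩
          rw [f47, Nat.min_eq_zero_iff]
          exact h.2.1
      · obtain ⟨p, hp, hd, hm⟩ := exists_pr b12 b36 h1
        refine ⟨p, hp, hd.trans (by
          rw [eN]; exact ⟨b 0 * b 3 * b 4 * b 5 * b 6 * b 7 * b 8, by ring⟩), fun h => hm ?_⟩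
        rw [f12, f36, Nat.min_eq_zero_iff]
        exact h.1
    obtain ⟨p, hp, hd, hm⟩ := this
    refine Finset.prod_eq_zero (i := p) ?_ ?_
    · rw [Nat.mem_primeFactors]
      exact ⟨hp, hd, hN⟩
    · unfold lP
      rw [if_neg hm]

/-- TM I5b, from MC -/
theorem wP_lim_of
    (MEP : ∀ {r : ℕ} (_ : 0 < r) (m : Fin r → ℕ) (lam : ℕ → (Fin r → ℕ) → ℝ) (_ : LW r m lam),
      KH r (mw lam) ∧ ∀ s : Fin r → ℝ, (∀ i, 0 < s i) →
        Tendsto (fun L : ℝ => (∑' b : Fin r → ℕ, mw lam b * ∏ i, (b i : ℝ) ^ (-(s i / L))) /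
            L ^ ((∑ i, m i : ℕ) : ℝ)) atTop
          (𝓝 ((∏' p : Nat.Primes, ((1 - 1 / (p : ℝ)) ^ (∑ i, m i) * ∑' v : Fin r → ℕ, lam p v)) *
            ∏ i, (s i) ^ (-(m i : ℝ))))) :
    KH 9 wP ∧ ∀ s : Fin 9 → ℝ, (∀ i, 0 < s i) →
    Tendsto (fun L : ℝ => (∑' b : Fin 9 → ℕ, wP b * ∏ i, (b i : ℝ) ^ (-(s i / L))) / L ^ (36 : ℝ))
      atTop (𝓝 (aF 6 * ∏ i, (s i) ^ (-((![4, 4, 4, 4, 4, 4, 4, 4, 4] : Fin 9 → ℝ) i)))) := by
  obtain ⟨h1, h2⟩ := MEP (by norm_num) ![4, 4, 4, 4, 4, 4, 4, 4, 4] lP lP_LW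
  rw [wP_eq]
  refine ⟨h1, fun s hs => ?_⟩
  have h3 := h2 s hs
  have e1 : (∑ i, (![4, 4, 4, 4, 4, 4, 4, 4, 4] : Fin 9 → ℕ) i) = 36 := by decide
  rw [e1] at h3
  have e2 : ∏ i, (s i) ^ (-(((![4, 4, 4, 4, 4, 4, 4, 4, 4] : Fin 9 → ℕ) i : ℕ) : ℝ)) =
      ∏ i, (s i) ^ (-((![4, 4, 4, 4, 4, 4, 4, 4, 4] : Fin 9 → ℝ) i)) := by
    refine Finset.prod_congr rfl fun i _ => ?_
    fin_cases i <;> simp
  have e3 : (∏' p : Nat.Primes, ((1 - 1 / (p : ℝ)) ^ (36 : ℕ) * ∑' v : Fin 9 → ℕ, lP p v)) =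
      aF 6 := by
    unfold aF
    exact tprod_congr fun p => lP_factor p.2
  rw [e2, e3] at h3
  have e4 : ((36 : ℕ) : ℝ) = (36 : ℝ) := by norm_num
  rw [e4] at h3
  exact h3

end

end Pool.Agent.H497R2.TMI5
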