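import Pool.Agent.H300R2.FB.Defs
import Pool.Agent.H442R2.EHI.KSum

/-!
F6 (`ksumQ`): Dirichlet polynomial over the values of a perturbed monomial (helper497).
-/

namespace Pool.Agent.H497R2.FB

open Finset Polynomial
open Pool.Agent.H469R2.NK (e)
open Pool.Agent.H442R2.EHI
open Pool.Agent.H300R2.BH
open Pool.Agent.H300R2.FB

/-- scaled coefficients -/
noncomputable def bq (j : ℕ) (b : Fin (j - 1) → ℝ) (q : ℝ) (i : Fin (j - 1)) : ℝ :=
  b i / q ^ (j - 1 - (i : ℕ))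

lemma pw_scale (j : ℕ) (b : Fin (j - 1) → ℝ) (q t : ℝ) (hq : 0 < q) :
    pw j b (q * t) = q ^ j * pw j (bq j b q) t := by
  unfold pw tR bq
  rw [mul_add, mul_pow, Finset.mul_sum]
  congr 1
  apply sum_congr rfl
  intro i _
  have hi := i.2
  have h1 : (q : ℝ) ^ j = q ^ (j - 1 - (i : ℕ)) * q ^ ((i : ℕ) + 1) := by
    rw [← pow_add]; congr 1; omega
  rw [h1, mul_pow]
  have h2 : q ^ (j - 1 - (i : ℕ)) ≠ 0 := by positivity
  field_simp

lemma pow_split (j : ℕ) (i : Fin (j - 1)) (t : ℝ) :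
    t ^ j = t ^ (j - 1 - (i : ℕ)) * t ^ ((i : ℕ) + 1) := by
  have hi := i.2
  rw [← pow_add]; congr 1; omega

lemma term_mono (j : ℕ) (i : Fin (j - 1)) (K s t : ℝ) (hK : 0 ≤ K) (hs : K ≤ s) (hst : s ≤ t) :
    K ^ (j - 1 - (i : ℕ)) * (t ^ ((i : ℕ) + 1) - s ^ ((i : ℕ) + 1)) ≤ t ^ j - s ^ j := by
  have hs0 : 0 ≤ s := hK.trans hs
  have h1 : s ^ ((i : ℕ) + 1) ≤ t ^ ((i : ℕ) + 1) := pow_le_pow_left₀ hs0 hst _
  have h2 : K ^ (j - 1 - (i : ℕ)) ≤ s ^ (j - 1 - (i : ℕ)) := pow_le_pow_left₀ hK hs _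
  have h3 : s ^ (j - 1 - (i : ℕ)) ≤ t ^ (j - 1 - (i : ℕ)) := pow_le_pow_left₀ hs0 hst _
  have h4 : 0 ≤ t ^ ((i : ℕ) + 1) := pow_nonneg (hs0.trans hst) _
  rw [pow_split j i t, pow_split j i s]
  nlinarith

lemma pw_mono (j : ℕ) (b : Fin (j - 1) → ℝ) (L K s t : ℝ) (hL0 : 0 < L) (hL : 2 * (j : ℝ) ≤ L)
    (hK : 0 ≤ K) (hb : ∀ i, |b i| * L ≤ K ^ (j - 1 - (i : ℕ))) (hs : K ≤ s) (hst : s ≤ t) :
    (t ^ j - s ^ j) / 2 ≤ pw j b t - pw j b s := by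
  have hs0 : 0 ≤ s := hK.trans hs
  have h0 : 0 ≤ t ^ j - s ^ j := sub_nonneg.2 (pow_le_pow_left₀ hs0 hst _)
  have h1 : ∀ i : Fin (j - 1), -((t ^ j - s ^ j) / L) ≤
      b i * t ^ ((i : ℕ) + 1) - b i * s ^ ((i : ℕ) + 1) := by
    intro i
    have h2 : s ^ ((i : ℕ) + 1) ≤ t ^ ((i : ℕ) + 1) := pow_le_pow_left₀ hs0 hst _
    have h3 := term_mono j i K s t hK hs hst
    have h4 : |b i| ≤ K ^ (j - 1 - (i : ℕ)) / L := by
      rw [le_div_iff₀ hL0]; exact hb i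
    have h5 : |b i| * (t ^ ((i : ℕ) + 1) - s ^ ((i : ℕ) + 1)) ≤ (t ^ j - s ^ j) / L := by
      calc |b i| * (t ^ ((i : ℕ) + 1) - s ^ ((i : ℕ) + 1))
          ≤ (K ^ (j - 1 - (i : ℕ)) / L) * (t ^ ((i : ℕ) + 1) - s ^ ((i : ℕ) + 1)) :=
            mul_le_mul_of_nonneg_right h4 (by linarith)
        _ = (K ^ (j - 1 - (i : ℕ)) * (t ^ ((i : ℕ) + 1) - s ^ ((i : ℕ) + 1))) / L := by ring
        _ ≤ _ := by gcongr
    have h6 := neg_abs_le (b i)
    have h7 : -|b i| * (t ^ ((i : ℕ) + 1) - s ^ ((i : ℕ) + 1)) ≤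
        b i * (t ^ ((i : ℕ) + 1) - s ^ ((i : ℕ) + 1)) :=
      mul_le_mul_of_nonneg_right h6 (by linarith)
    linarith
  have h2 : ∑ _i : Fin (j - 1), -((t ^ j - s ^ j) / L) ≤ tR j b t - tR j b s := by
    unfold tR
    rw [← sum_sub_distrib]
    exact sum_le_sum fun i _ => h1 i
  rw [sum_const, card_univ, Fintype.card_fin, nsmul_eq_mul] at h2
  have h3 : ((j - 1 : ℕ) : ℝ) ≤ j := by exact_mod_cast Nat.sub_le j 1
  have h4 : ((j - 1 : ℕ) : ℝ) * ((t ^ j - s ^ j) / L) ≤ (t ^ j - s ^ j) / 2 := by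
    rw [mul_div_assoc', div_le_div_iff₀ hL0 (by norm_num)]
    nlinarith
  unfold pw
  linarith

lemma pw_lower (j : ℕ) (b : Fin (j - 1) → ℝ) (L K t : ℝ) (hL0 : 0 < L)
    (hL : 2 * (j : ℝ) ≤ L)
    (hK : 0 ≤ K) (hb : ∀ i, |b i| * L ≤ K ^ (j - 1 - (i : ℕ))) (ht : K ≤ t) :
    t ^ j / 2 ≤ pw j b t := by
  have ht0 : 0 ≤ t := hK.trans ht
  have h1 : ∀ i : Fin (j - 1), -(t ^ j / L) ≤ b i * t ^ ((i : ℕ) + 1) := by
    intro i
    have h4 : |b i| ≤ K ^ (j - 1 - (i : ℕ)) / L := by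
      rw [le_div_iff₀ hL0]; exact hb i
    have h5 : |b i| * t ^ ((i : ℕ) + 1) ≤ t ^ j / L := by
      calc |b i| * t ^ ((i : ℕ) + 1)
          ≤ (K ^ (j - 1 - (i : ℕ)) / L) * t ^ ((i : ℕ) + 1) :=
            mul_le_mul_of_nonneg_right h4 (by positivity)
        _ ≤ (t ^ (j - 1 - (i : ℕ)) / L) * t ^ ((i : ℕ) + 1) := by gcongr
        _ = t ^ j / L := by rw [pow_split j i t]; ring
    have h6 := neg_abs_le (b i)
    have h7 : -|b i| * t ^ ((i : ℕ) + 1) ≤ b i * t ^ ((i : ℕ) + 1) :=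
      mul_le_mul_of_nonneg_right h6 (by positivity)
    linarith
  have h2 : ∑ _i : Fin (j - 1), -(t ^ j / L) ≤ tR j b t := by
    unfold tR
    exact sum_le_sum fun i _ => h1 i
  rw [sum_const, card_univ, Fintype.card_fin, nsmul_eq_mul] at h2
  have h3 : ((j - 1 : ℕ) : ℝ) ≤ j := by exact_mod_cast Nat.sub_le j 1
  have h0 : 0 ≤ t ^ j := by positivity
  have h4 : ((j - 1 : ℕ) : ℝ) * (t ^ j / L) ≤ t ^ j / 2 := by
    rw [mul_div_assoc', div_le_div_iff₀ hL0 (by norm_num)]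
    nlinarith
  unfold pw
  linarith

/-- the function `n ↦ e(ξ log p(q n + r))` -/
noncomputable def gQ (j : ℕ) (b : Fin (j - 1) → ℝ) (q r ξ t : ℝ) : ℂ :=
  e (ξ * Real.log (pw j b (q * t + r)))

lemma gQ_shift (j : ℕ) (b : Fin (j - 1) → ℝ) (q r ξ : ℝ) (hq : 0 < q) (t : ℝ)
    (hpos : 0 < pw j b (q * t + r)) :
    gQ j b q r ξ t = e (ξ * Real.log (q ^ j)) *
      e (ξ * Real.log (pw j (bq j b q) (t + r / q))) := by
  have h1 : q * t + r = q * (t + r / q) := by field_simp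
  have h2 : pw j b (q * t + r) = q ^ j * pw j (bq j b q) (t + r / q) := by
    rw [h1]; exact pw_scale j b q _ hq
  have h3 : pw j (bq j b q) (t + r / q) ≠ 0 := by
    intro h
    rw [h2, h, mul_zero] at hpos
    exact lt_irrefl _ hpos
  unfold gQ
  rw [← Pool.Agent.H469R2.NK.e_add, ← mul_add, h2, Real.log_mul (by positivity) h3]

lemma large_xiQ {j M : ℕ} {κ η C : ℝ} (hη : 0 < η) (hC : 0 < C)
    (hv : ∀ (J L : ℕ) (u ξ : ℝ) (b : Fin (j - 1) → ℝ), 1 ≤ J → (J : ℝ) ≤ u → L ≤ J →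
      u + L ≤ 3 * J → (∀ i, |b i| ≤ κ * (J : ℝ) ^ (j - 1 - (i : ℕ))) → 1 ≤ |ξ| →
      |ξ| ≤ (J : ℝ) ^ M →
      ‖∑ n ∈ range L, e (ξ * Real.log (pw j b (u + n)))‖ ≤ C * ((J : ℝ) ^ (1 - η) + J / |ξ|))
    (b : Fin (j - 1) → ℝ)
    (q r ξ : ℝ) (hq : 1 ≤ q) (hr : 0 ≤ r) (hrq : r < q) (K A B : ℕ) (hA : 1 ≤ A) (hBK : B ≤ K)
    (hκ : 0 ≤ κ) (hb : ∀ i, |b i| ≤ κ * (q * ((A : ℝ) + 1)) ^ (j - 1 - (i : ℕ)))
    (hpos : ∀ t : ℝ, (A : ℝ) + 1 ≤ t → 0 < pw j b (q * t + r))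
    (hAK : (K : ℝ) ^ (1 / 2 : ℝ) ≤ (A : ℝ) + 1) (hξ1 : 1 ≤ |ξ|)
    (hξ2 : |ξ| ≤ ((A : ℝ) + 1) ^ M) (m : ℕ) (hm : B ≤ 2 ^ m) (b0 : ℕ) (hAb : A ≤ b0)
    (hbB : b0 ≤ B) :
    ‖∑ n ∈ Ioc A b0, gQ j b q r ξ n‖ ≤
      m * (C * ((K : ℝ) * (K : ℝ) ^ (-(η / 2)) + K / |ξ|)) := by
  have hq0 : 0 < q := by linarith
  refine KS.dyadic (fun n => gQ j b q r ξ n) A B _ (by positivity) ?_ m A b0 le_rfl hAb ?_ hbB
  · intro a b1 haA hab hb2 hbB
    rcases hab.eq_or_lt with rfl | hlt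
    · simp only [Ioc_self, sum_empty, norm_zero]; positivity
    have haK : (a : ℝ) + 1 ≤ K := by
      have : a + 1 ≤ K := by omega
      exact_mod_cast this
    have haA' : (A : ℝ) ≤ a := by exact_mod_cast haA
    have hK0 : (0 : ℝ) < K := by
      have : (0 : ℝ) ≤ a := Nat.cast_nonneg _
      linarith
    have ha1 : (1 : ℝ) ≤ (a : ℝ) + 1 := by
      have : (0 : ℝ) ≤ a := Nat.cast_nonneg _
      linarith
    have hrq' : r / q < 1 := by rw [div_lt_one hq0]; exact hrq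
    have hrq0 : 0 ≤ r / q := by positivity
    have hba : (b1 : ℝ) ≤ 2 * a := by exact_mod_cast hb2
    have h1 := hv (a + 1) (b1 - a) ((a : ℝ) + 1 + r / q) ξ (bq j b q) (by omega)
      (by push_cast; linarith)
      (by omega)
      (by rw [Nat.cast_sub hab]; push_cast; linarith)
      (by
        intro i
        unfold bq
        rw [abs_div, abs_of_nonneg (by positivity : (0 : ℝ) ≤ q ^ (j - 1 - (i : ℕ))),
          div_le_iff₀ (by positivity)]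
        refine (hb i).trans ?_
        rw [mul_pow]
        push_cast
        have h2 : ((A : ℝ) + 1) ^ (j - 1 - (i : ℕ)) ≤ ((a : ℝ) + 1) ^ (j - 1 - (i : ℕ)) :=
          pow_le_pow_left₀ (by positivity) (by linarith) _
        calc κ * (q ^ (j - 1 - (i : ℕ)) * ((A : ℝ) + 1) ^ (j - 1 - (i : ℕ)))
            ≤ κ * (q ^ (j - 1 - (i : ℕ)) * ((a : ℝ) + 1) ^ (j - 1 - (i : ℕ))) := by gcongr
          _ = _ := by ring)
      hξ1
      (by
        push_cast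
        exact hξ2.trans (pow_le_pow_left₀ (by positivity) (by linarith) M))
    have h2 : ∑ n ∈ Ioc a b1, gQ j b q r ξ n = e (ξ * Real.log (q ^ j)) *
        ∑ n ∈ range (b1 - a),
          e (ξ * Real.log (pw j (bq j b q) ((a : ℝ) + 1 + r / q + n))) := by
      rw [KS.Ioc_sum_range (fun n => gQ j b q r ξ n), mul_sum]
      apply sum_congr rfl
      intro n _
      rw [gQ_shift j b q r ξ hq0]
      · congr 4
        push_cast
        ring_nf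
      · apply hpos
        push_cast
        have : (0 : ℝ) ≤ n := Nat.cast_nonneg _
        linarith
    rw [h2, norm_mul, Pool.Agent.H469R2.NK.norm_e, one_mul]
    refine h1.trans ?_
    push_cast
    apply mul_le_mul_of_nonneg_left _ hC.le
    apply add_le_add
    · rw [sub_eq_add_neg, Real.rpow_add (by linarith), Real.rpow_one]
      apply mul_le_mul haK _ (Real.rpow_nonneg (by linarith) _) hK0.le
      have h3 : (K : ℝ) ^ (-(η / 2)) = ((K : ℝ) ^ (1 / 2 : ℝ)) ^ (-η) := by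
        rw [← Real.rpow_mul hK0.le]; congr 1; ring
      rw [h3]
      apply Real.rpow_le_rpow_of_nonpos (by positivity) (by linarith) (by linarith)
    · gcongr
  · calc b0 ≤ B := hbB
      _ ≤ 2 ^ m := hm
      _ ≤ 2 ^ m * A := Nat.le_mul_of_pos_right _ (by omega)

/-- a lower bound for the logarithm -/
lemma log_ge (c : ℝ) : ∃ x0 : ℕ, ∀ x : ℕ, x0 ≤ x → c ≤ Real.log x := by
  have h := Real.tendsto_log_atTop.comp (tendsto_natCast_atTop_atTop (R := ℝ))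
  exact Filter.eventually_atTop.mp (h.eventually_ge_atTop c)

/-- F6. Dirichlet polynomial over the values of a perturbed monomial. -/
theorem ksumQ (hv : VdcPoly) (j : ℕ) (hj : 1 ≤ j) (ε : ℝ) (hε : 0 < ε) (E1 E2 U : ℕ) :
    ∃ (E4 x0 : ℕ), ∀ x : ℕ, x0 ≤ x →
    ∀ K K1 q r : ℕ, (x : ℝ) ^ ε ≤ K → K ≤ x → K1 ≤ K → (K : ℝ) ≤ K1 * Real.log x ^ E2 → 1 ≤ q →
    (q : ℝ) ≤ Real.log x ^ E1 → ∀ b : Fin (j - 1) → ℝ,
    (∀ i, |b i| * Real.log x ≤ (K1 : ℝ) ^ (j - 1 - (i : ℕ))) →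
    ∀ ξ : ℝ, Real.log x ^ E4 ≤ |ξ| → |ξ| ≤ (x : ℝ) ^ 2 →
    ‖∑ k ∈ (Ioc K1 K).filter (fun k => k % q = r),
      (((pw j b k) ^ (-(1 / 2) : ℝ) : ℝ) : ℂ) * e (ξ * Real.log (pw j b k))‖ ^ 2 ≤
      ((K : ℝ) ^ 2 / (K : ℝ) ^ j) / Real.log x ^ U := by
  set M : ℕ := ⌈4 / ε⌉₊ with hM
  obtain ⟨κ, hκ, η, hη, C, hC, hv⟩ := hv j hj M
  set V : ℕ := U + E2 * j + 1 with hV
  obtain ⟨X2, hX2⟩ := KS.exists_x0 ε hε 2 (E1 + E2)
  obtain ⟨X4, hX4⟩ := KS.exists_x0 (ε / 2) (by positivity) 2 (E1 + E2)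
  obtain ⟨X5, hX5⟩ := KS.exists_x0 (ε * (η / 2)) (by positivity) (6 * C) (V + 1)
  obtain ⟨X6, hX6⟩ := log_ge (6 * C + 2 * j + 2 ^ j / κ + 2)
  refine ⟨V + 2, 8 + X2 + X6 + X4 + X5, ?_⟩
  intro x hx K K1 q r hεK hKx hK1K hKK1 hq hqL b hb ξ hξ1 hξ2
  have hx8 : 8 ≤ x := by omega
  have c2 := hX2 x (by omega)
  have c4 := hX4 x (by omega)
  have c5 := hX5 x (by omega)
  have c6 := hX6 x (by omega)
  set L := Real.log x with hL
  have hx8' : (8 : ℝ) ≤ x := by exact_mod_cast hx8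
  have hx0 : (0 : ℝ) < x := by linarith
  have hj0 : (0 : ℝ) ≤ j := Nat.cast_nonneg _
  have hκ2 : 0 < 2 ^ j / κ := by positivity
  have hL2 : 2 ≤ L := by linarith
  have hLj : 2 * (j : ℝ) ≤ L := by linarith
  have hLC : 6 * C ≤ L := by linarith
  have hLκ : 2 ^ j ≤ κ * L := by
    have h1 : 2 ^ j / κ ≤ L := by linarith
    rw [div_le_iff₀ hκ] at h1
    linarith
  have hL0 : 0 < L := by linarith
  have hL1 : 1 ≤ L := by linarith
  have hK0 : (0 : ℝ) < K := lt_of_lt_of_le (Real.rpow_pos_of_pos hx0 ε) hεK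
  have hKx' : (K : ℝ) ≤ x := by exact_mod_cast hKx
  have hKnn : 0 ≤ ((K : ℝ) ^ 2 / (K : ℝ) ^ j) / L ^ U := by positivity
  rcases le_or_gt q r with hqr | hqr
  · -- empty sum
    have : (Ioc K1 K).filter (fun k => k % q = r) = ∅ := by
      rw [filter_eq_empty_iff]
      intro k _ hk
      have := Nat.mod_lt k (show q > 0 by omega)
      omega
    rw [this, sum_empty, norm_zero]
    simpa using hKnn
  have hK1q : 2 * (q : ℝ) ≤ K1 := by
    have h1 : 2 * L ^ (E1 + E2) ≤ (K1 : ℝ) * L ^ E2 := c2.trans (hεK.trans hKK1)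
    rw [pow_add, ← mul_assoc] at h1
    have h2 := le_of_mul_le_mul_right h1 (by positivity : 0 < L ^ E2)
    linarith
  have hK1q' : 2 * q ≤ K1 := by exact_mod_cast hK1q
  have hK10 : (0 : ℝ) < K1 := by
    have : (1 : ℝ) ≤ q := by exact_mod_cast hq
    linarith
  have hq1 : (1 : ℝ) ≤ q := by exact_mod_cast hq
  have hrq : (r : ℝ) < q := by exact_mod_cast hqr
  have hr0 : (0 : ℝ) ≤ r := Nat.cast_nonneg _
  set A := (K1 - r) / q with hA
  set B := (K - r) / q with hB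
  have hAB : A ≤ B := Nat.div_le_div_right (by omega)
  have hA1 : 1 ≤ A := by
    rw [hA, Nat.le_div_iff_mul_le (by omega)]; omega
  have hBK : B ≤ K := (Nat.div_le_self _ _).trans (Nat.sub_le _ _)
  have hqB : q * B + r ≤ K := by
    have := Nat.mul_div_le (K - r) q
    rw [← hB] at this
    omega
  have hqA : K1 < q * (A + 1) + r := by
    have := Nat.lt_mul_div_succ (K1 - r) (show 0 < q by omega)
    rw [← hA] at this
    omega
  have hqA' : (K1 : ℝ) < q * ((A : ℝ) + 1) + r := by exact_mod_cast hqA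
  -- rewriting the sum
  have hsum : ∑ k ∈ (Ioc K1 K).filter (fun k => k % q = r),
      (((pw j b k) ^ (-(1 / 2) : ℝ) : ℝ) : ℂ) * e (ξ * Real.log (pw j b k)) =
      ∑ n ∈ Ioc A B, (((fun n : ℕ => (pw j b ((q : ℝ) * n + r)) ^ (-(1 / 2) : ℝ)) n : ℝ) : ℂ) *
        (fun n : ℕ => gQ j b q r ξ n) n := by
    refine Finset.sum_nbij' (fun k => k / q) (fun j => q * j + r) ?_ ?_ ?_ ?_ ?_
    · intro k hk
      rw [mem_filter, mem_Ioc] at hk
      have h1 := Nat.div_add_mod k q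
      rw [hk.2] at h1
      rw [mem_Ioc, hA, hB, Nat.div_lt_iff_lt_mul (by omega), Nat.le_div_iff_mul_le (by omega)]
      have h2 : k / q * q = q * (k / q) := mul_comm _ _
      rw [h2]
      omega
    · intro j hj
      rw [mem_Ioc, hA, hB, Nat.div_lt_iff_lt_mul (by omega), Nat.le_div_iff_mul_le (by omega),
        mul_comm j q] at hj
      rw [mem_filter, mem_Ioc]
      refine ⟨by omega, ?_⟩
      rw [Nat.mul_add_mod, Nat.mod_eq_of_lt hqr]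
    · intro k hk
      rw [mem_filter] at hk
      have h1 := Nat.div_add_mod k q
      rw [hk.2] at h1
      exact h1
    · intro j _
      rw [Nat.mul_add_div (by omega), Nat.div_eq_of_lt hqr, add_zero]
    · intro k hk
      rw [mem_filter] at hk
      have h1 := Nat.div_add_mod k q
      rw [hk.2] at h1
      have h2 : (q : ℝ) * ((k / q : ℕ) : ℝ) + r = k := by exact_mod_cast h1
      simp only [gQ, h2]
  -- bound of the partial sums
  have hx1 : (1 : ℝ) ≤ x := by linarith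
  have hKhalf : (x : ℝ) ^ (ε / 2) ≤ (K : ℝ) ^ (1 / 2 : ℝ) := by
    have h1 : (x : ℝ) ^ (ε / 2) = ((x : ℝ) ^ ε) ^ (1 / 2 : ℝ) := by
      rw [← Real.rpow_mul hx0.le]; congr 1; ring
    rw [h1]
    exact Real.rpow_le_rpow (by positivity) hεK (by norm_num)
  have hKsq : (K : ℝ) ^ (1 / 2 : ℝ) * (K : ℝ) ^ (1 / 2 : ℝ) = K := by
    rw [← Real.rpow_add hK0]; norm_num
  have hKh0 : 0 < (K : ℝ) ^ (1 / 2 : ℝ) := Real.rpow_pos_of_pos hK0 _
  have hξ0 : 0 < |ξ| := lt_of_lt_of_le (by positivity) hξ1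
  have hA0 : (0 : ℝ) ≤ A := Nat.cast_nonneg _
  have hA1r : (1 : ℝ) ≤ A := by exact_mod_cast hA1
  have hK12 : (K1 : ℝ) ≤ 2 * (q * ((A : ℝ) + 1)) := by nlinarith
  have hA1' : (K : ℝ) ^ (1 / 2 : ℝ) ≤ (A : ℝ) + 1 := by
    have h2 : (K : ℝ) ≤ (2 * L ^ (E1 + E2)) * ((A : ℝ) + 1) := by
      calc (K : ℝ) ≤ K1 * L ^ E2 := hKK1
        _ ≤ (2 * (q * ((A : ℝ) + 1))) * L ^ E2 := mul_le_mul_of_nonneg_right hK12 (by positivity)
        _ ≤ (2 * (L ^ E1 * ((A : ℝ) + 1))) * L ^ E2 := by gcongr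
        _ = (2 * L ^ (E1 + E2)) * ((A : ℝ) + 1) := by rw [pow_add]; ring
    have h3 : (K : ℝ) ^ (1 / 2 : ℝ) * (K : ℝ) ^ (1 / 2 : ℝ) ≤
        (K : ℝ) ^ (1 / 2 : ℝ) * ((A : ℝ) + 1) := by
      rw [hKsq]
      exact h2.trans (mul_le_mul_of_nonneg_right (c4.trans hKhalf) (by positivity))
    exact le_of_mul_le_mul_left h3 hKh0
  -- the polynomial
  have hlow : ∀ t : ℝ, (K1 : ℝ) ≤ t → t ^ j / 2 ≤ pw j b t := fun t ht =>
    pw_lower j b L K1 t hL0 hLj hK10.le hb ht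
  have hpwpos : ∀ t : ℝ, (K1 : ℝ) ≤ t → 0 < pw j b t := fun t ht =>
    lt_of_lt_of_le (by
      have : 0 < t := lt_of_lt_of_le hK10 ht
      positivity) (hlow t ht)
  have hpwmono : ∀ s t : ℝ, (K1 : ℝ) ≤ s → s ≤ t → pw j b s ≤ pw j b t := by
    intro s t hs hst
    have h1 := pw_mono j b L K1 s t hL0 hLj hK10.le hb hs hst
    have h2 : s ^ j ≤ t ^ j := pow_le_pow_left₀ (hK10.le.trans hs) hst _
    linarith
  have hbκ : ∀ i : Fin (j - 1), |b i| ≤ κ * (q * ((A : ℝ) + 1)) ^ (j - 1 - (i : ℕ)) := by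
    intro i
    have hi := i.2
    have h1 : |b i| * L ≤ (κ * (q * ((A : ℝ) + 1)) ^ (j - 1 - (i : ℕ))) * L := by
      calc |b i| * L ≤ (K1 : ℝ) ^ (j - 1 - (i : ℕ)) := hb i
        _ ≤ (2 * (q * ((A : ℝ) + 1))) ^ (j - 1 - (i : ℕ)) :=
            pow_le_pow_left₀ hK10.le hK12 _
        _ = 2 ^ (j - 1 - (i : ℕ)) * (q * ((A : ℝ) + 1)) ^ (j - 1 - (i : ℕ)) := mul_pow _ _ _
        _ ≤ 2 ^ j * (q * ((A : ℝ) + 1)) ^ (j - 1 - (i : ℕ)) := by
            apply mul_le_mul_of_nonneg_right _ (by positivity)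
            exact pow_le_pow_right₀ (by norm_num) (by omega)
        _ ≤ (κ * L) * (q * ((A : ℝ) + 1)) ^ (j - 1 - (i : ℕ)) :=
            mul_le_mul_of_nonneg_right hLκ (by positivity)
        _ = _ := by ring
    exact le_of_mul_le_mul_right h1 hL0
  have hξone : 1 ≤ |ξ| := le_trans (one_le_pow₀ hL1) hξ1
  set m := Nat.log 2 x + 1 with hm
  have hm2 : B ≤ 2 ^ m := by
    have h1 : x < 2 ^ (Nat.log 2 x + 1) := Nat.lt_pow_succ_log_self (by norm_num) x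
    rw [hm]
    have h2 : B ≤ x := hBK.trans hKx
    omega
  have hmL : (m : ℝ) ≤ 3 * L := by
    have h1 : 2 ^ Nat.log 2 x ≤ x := Nat.pow_log_le_self 2 (by omega)
    have h2 : (2 : ℝ) ^ Nat.log 2 x ≤ x := by exact_mod_cast h1
    have h3 : (Nat.log 2 x : ℝ) * Real.log 2 ≤ L := by
      rw [hL, ← Real.log_pow]
      exact Real.log_le_log (by positivity) h2
    have h4 : (1 / 2 : ℝ) ≤ Real.log 2 := by
      have := Real.log_two_gt_d9; linarith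
    have h5 : (0 : ℝ) ≤ Nat.log 2 x := Nat.cast_nonneg _
    rw [hm]; push_cast
    nlinarith
  have hξM : |ξ| ≤ ((A : ℝ) + 1) ^ M := by
    have h1 : (x : ℝ) ^ (ε / 2) ≤ (A : ℝ) + 1 := hKhalf.trans hA1'
    have h2 : (x : ℝ) ^ 2 ≤ ((x : ℝ) ^ (ε / 2)) ^ M := by
      rw [← Real.rpow_natCast ((x : ℝ) ^ (ε / 2)), ← Real.rpow_mul hx0.le,
        ← Real.rpow_natCast (x : ℝ) 2]
      apply Real.rpow_le_rpow_of_exponent_le hx1
      have h3 : 4 / ε ≤ M := Nat.le_ceil _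
      rw [div_le_iff₀ hε] at h3
      push_cast
      linarith
    exact hξ2.trans (h2.trans (pow_le_pow_left₀ (by positivity) h1 M))
  have hpart : ∀ b0, A ≤ b0 → b0 ≤ B → ‖∑ n ∈ Ioc A b0, gQ j b q r ξ n‖ ≤ K / L ^ V := by
    intro b0 hAb hbB
    have h1 := large_xiQ hη hC hv b q r ξ hq1 hr0 hrq K A B hA1 hBK hκ.le hbκ
      (fun t ht => hpwpos _ (by nlinarith)) hA1' hξone hξM m hm2 b0 hAb hbB
    refine h1.trans ?_
    rw [le_div_iff₀ (by positivity)]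
    have h2 : (x : ℝ) ^ (ε * (η / 2)) ≤ (K : ℝ) ^ (η / 2) := by
      rw [Real.rpow_mul hx0.le]
      exact Real.rpow_le_rpow (by positivity) hεK (by positivity)
    have h3 : (K : ℝ) ^ (-(η / 2)) * (K : ℝ) ^ (η / 2) = 1 := by
      rw [← Real.rpow_add hK0]; simp
    have hKm : 0 < (K : ℝ) ^ (-(η / 2)) := Real.rpow_pos_of_pos hK0 _
    have t1 : (3 * L) * (C * ((K : ℝ) * (K : ℝ) ^ (-(η / 2)))) * L ^ V ≤ 1 / 2 * K := by
      calc (3 * L) * (C * ((K : ℝ) * (K : ℝ) ^ (-(η / 2)))) * L ^ V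
        _ = 1 / 2 * ((K : ℝ) * (K : ℝ) ^ (-(η / 2)) * (6 * C * L ^ (V + 1))) := by
            rw [pow_succ]; ring
        _ ≤ 1 / 2 * ((K : ℝ) * (K : ℝ) ^ (-(η / 2)) * (K : ℝ) ^ (η / 2)) := by
            apply mul_le_mul_of_nonneg_left _ (by norm_num)
            apply mul_le_mul_of_nonneg_left (c5.trans h2) (by positivity)
        _ = 1 / 2 * K := by rw [mul_assoc ((K : ℝ)), h3, mul_one]
    have t2 : (3 * L) * (C * ((K : ℝ) / |ξ|)) * L ^ V ≤ 1 / 2 * K := by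
      have h4 : (K : ℝ) / |ξ| ≤ K / L ^ (V + 2) := by gcongr
      calc (3 * L) * (C * ((K : ℝ) / |ξ|)) * L ^ V
          ≤ (3 * L) * (C * ((K : ℝ) / L ^ (V + 2))) * L ^ V := by gcongr
        _ = 1 / 2 * ((6 * C) * K / L) := by
            rw [pow_add]
            field_simp
            ring
        _ ≤ 1 / 2 * K := by
            apply mul_le_mul_of_nonneg_left _ (by norm_num)
            rw [div_le_iff₀ hL0]
            nlinarith
    calc (m : ℝ) * (C * ((K : ℝ) * (K : ℝ) ^ (-(η / 2)) + K / |ξ|)) * L ^ V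
        ≤ (3 * L) * (C * ((K : ℝ) * (K : ℝ) ^ (-(η / 2)) + K / |ξ|)) * L ^ V := by gcongr
      _ = (3 * L) * (C * ((K : ℝ) * (K : ℝ) ^ (-(η / 2)))) * L ^ V +
          (3 * L) * (C * ((K : ℝ) / |ξ|)) * L ^ V := by ring
      _ ≤ K := by linarith
  -- Abel summation
  have hw0 : ∀ n : ℕ, A < n → (K1 : ℝ) ≤ (q : ℝ) * n + r := by
    intro n hn
    have h1 : (A : ℝ) + 1 ≤ n := by exact_mod_cast hn
    nlinarith
  have habel := KS.abel (fun n : ℕ => (pw j b ((q : ℝ) * n + r)) ^ (-(1 / 2) : ℝ))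
    (fun n : ℕ => gQ j b q r ξ n) A
    (K / L ^ V) (by positivity) B hAB
    (fun n hn => Real.rpow_nonneg (hpwpos _ (hw0 n hn)).le _)
    (by
      intro n hn
      have h1 := hw0 n hn
      apply Real.rpow_le_rpow_of_nonpos (hpwpos _ h1) _ (by norm_num)
      apply hpwmono _ _ h1
      push_cast
      linarith) hpart
  rw [hsum]
  have hpK1 : 0 < (K1 : ℝ) ^ j / 2 := by positivity
  have hfin : (pw j b ((q : ℝ) * ((A + 1 : ℕ) : ℝ) + r)) ^ (-(1 / 2) : ℝ) ≤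
      ((K1 : ℝ) ^ j / 2) ^ (-(1 / 2) : ℝ) := by
    apply Real.rpow_le_rpow_of_nonpos hpK1 _ (by norm_num)
    refine (hlow K1 le_rfl).trans (hpwmono _ _ le_rfl ?_)
    push_cast
    exact hqA'.le
  have h1 := habel.trans (mul_le_mul_of_nonneg_right hfin (by positivity : 0 ≤ (K : ℝ) / L ^ V))
  have h2 := pow_le_pow_left₀ (norm_nonneg _) h1 2
  refine h2.trans ?_
  have h3 : (((K1 : ℝ) ^ j / 2) ^ (-(1 / 2) : ℝ)) ^ 2 = ((K1 : ℝ) ^ j / 2)⁻¹ := by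
    rw [← Real.rpow_natCast, ← Real.rpow_mul hpK1.le, ← Real.rpow_neg_one]
    congr 1; norm_num
  rw [mul_pow, h3]
  have h4 : ((K : ℝ) / L ^ V) ^ 2 = K ^ 2 / (L ^ V * L ^ V) := by
    rw [div_pow]; ring
  have hKj : (K : ℝ) ^ j ≤ (K1 : ℝ) ^ j * L ^ (E2 * j) := by
    calc (K : ℝ) ^ j ≤ (K1 * L ^ E2) ^ j := pow_le_pow_left₀ hK0.le hKK1 _
      _ = (K1 : ℝ) ^ j * L ^ (E2 * j) := by rw [mul_pow, ← pow_mul]
  have h6 : 2 * (L ^ U * L ^ (E2 * j)) ≤ L ^ V * L ^ V := by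
    calc 2 * (L ^ U * L ^ (E2 * j)) ≤ L * (L ^ U * L ^ (E2 * j)) :=
          mul_le_mul_of_nonneg_right hL2 (by positivity)
      _ = L ^ V := by rw [hV, pow_add, pow_add]; ring
      _ = L ^ V * 1 := (mul_one _).symm
      _ ≤ L ^ V * L ^ V := mul_le_mul_of_nonneg_left (one_le_pow₀ hL1) (by positivity)
  rw [h4, inv_mul_eq_div, div_div, div_div]
  rw [div_le_div_iff₀ (by positivity) (by positivity)]
  have h7 : (K : ℝ) ^ j * L ^ U ≤ L ^ V * L ^ V * ((K1 : ℝ) ^ j / 2) := by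
    calc (K : ℝ) ^ j * L ^ U ≤ ((K1 : ℝ) ^ j * L ^ (E2 * j)) * L ^ U :=
          mul_le_mul_of_nonneg_right hKj (by positivity)
      _ = (2 * (L ^ U * L ^ (E2 * j))) * ((K1 : ℝ) ^ j / 2) := by ring
      _ ≤ (L ^ V * L ^ V) * ((K1 : ℝ) ^ j / 2) := mul_le_mul_of_nonneg_right h6 hpK1.le
  calc (K : ℝ) ^ 2 * ((K : ℝ) ^ j * L ^ U) ≤ (K : ℝ) ^ 2 * (L ^ V * L ^ V * ((K1 : ℝ) ^ j / 2)) :=
        mul_le_mul_of_nonneg_left h7 (by positivity)
    _ = _ := by ring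

end Pool.Agent.H497R2.FB
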